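import Pool.Agent.R311.BS.WE

set_option autoImplicit false

/-! Averaging over windows and general Bohr sets. -/

namespace Pool.Agent.R311.BS

open Finset MeasureTheory Filter Topology
open Pool.Agent.H306R2

noncomputable section

theorem averaging (F : ℝ → ℝ) (hF : Continuous F) (hF0 : ∀ t, 0 ≤ F t) (S : Set ℝ)
    (hS : MeasurableSet S) (A B : ℝ) (hSb : S ⊆ Set.Icc A B) (w : ℝ → ℝ → ℝ)
    (hw : Continuous (Function.uncurry w)) (hw0 : ∀ τ t, 0 ≤ w τ t)
    (hw1 : ∀ t, ∫⁻ τ, ENNReal.ofReal (w τ t) ≤ 1) (a b J : ℝ)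
    (hab : a ≤ b) (hJ : 0 ≤ J) (h : ∀ τ ∈ Set.Icc a b, J ≤ ∫ t in S, F t * w τ t) :
    (b - a) * J ≤ ∫ t in S, F t := by
  have hint : ∀ G : ℝ → ℝ, Continuous G → IntegrableOn G S := fun G hG =>
    hG.integrableOn_Icc.mono_set hSb
  have h0 : 0 ≤ ∫ t in S, F t := setIntegral_nonneg hS fun t _ => hF0 t
  rw [← ENNReal.ofReal_le_ofReal_iff h0, ENNReal.ofReal_mul (by linarith)]
  have e1 : ENNReal.ofReal (∫ t in S, F t) = ∫⁻ t in S, ENNReal.ofReal (F t) :=
    ofReal_integral_eq_lintegral_ofReal (hint F hF) (Eventually.of_forall fun t => hF0 t)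
  rw [e1]
  have e2 : ENNReal.ofReal (b - a) * ENNReal.ofReal J = ∫⁻ τ in Set.Icc a b, ENNReal.ofReal J := by
    rw [setLIntegral_const, Real.volume_Icc, mul_comm]
  rw [e2]
  have hmeasw : Measurable (fun p : ℝ × ℝ => ENNReal.ofReal (w p.1 p.2)) :=
    (ENNReal.continuous_ofReal.comp hw).measurable
  have hmeasF : Measurable (fun t : ℝ => ENNReal.ofReal (F t)) :=
    (ENNReal.continuous_ofReal.comp hF).measurable
  calc ∫⁻ τ in Set.Icc a b, ENNReal.ofReal J ≤
      ∫⁻ τ in Set.Icc a b, ∫⁻ t in S, ENNReal.ofReal (F t) * ENNReal.ofReal (w τ t) := by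
        refine setLIntegral_mono' measurableSet_Icc fun τ hτ => ?_
        refine (ENNReal.ofReal_le_ofReal (h τ hτ)).trans ?_
        have hwc : Continuous (fun t => w τ t) := hw.comp (by fun_prop : Continuous (fun t : ℝ => (τ, t)))
        rw [ofReal_integral_eq_lintegral_ofReal (hint (fun t => F t * w τ t) (hF.mul hwc))
          (Eventually.of_forall fun t => mul_nonneg (hF0 t) (hw0 τ t))]
        refine lintegral_mono fun t => ?_
        rw [ENNReal.ofReal_mul (hF0 t)]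
    _ ≤ ∫⁻ τ, ∫⁻ t in S, ENNReal.ofReal (F t) * ENNReal.ofReal (w τ t) :=
        setLIntegral_le_lintegral _ _
    _ = ∫⁻ t in S, ∫⁻ τ, ENNReal.ofReal (F t) * ENNReal.ofReal (w τ t) := by
        rw [lintegral_lintegral_swap]
        refine Measurable.aemeasurable ?_
        exact (hmeasF.comp measurable_snd).mul hmeasw
    _ ≤ ∫⁻ t in S, ENNReal.ofReal (F t) := by
        refine lintegral_mono fun t => ?_
        have : Measurable (fun τ : ℝ => ENNReal.ofReal (w τ t)) :=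
          hmeasw.comp (by fun_prop : Measurable (fun τ : ℝ => (τ, t)))
        rw [lintegral_const_mul _ this]
        calc ENNReal.ofReal (F t) * ∫⁻ τ, ENNReal.ofReal (w τ t) ≤ ENNReal.ofReal (F t) * 1 := by
              gcongr; exact hw1 t
          _ = _ := mul_one _

lemma gw_uncurry (H : ℝ) : Continuous (Function.uncurry fun τ t => gw τ H t) := by
  unfold gw Function.uncurry
  fun_prop

lemma gw_lint (H : ℝ) (hH : 0 < H) (t : ℝ) : ∫⁻ τ, ENNReal.ofReal (gw τ H t) ≤ 1 := by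
  have e3 : ∀ τ, gw τ H t = gw t H τ := fun τ => gw_symm τ H t
  simp only [e3]
  rw [← ofReal_integral_eq_lintegral_ofReal (gw_integrable t H hH)
    (Eventually.of_forall fun τ => gw_nonneg t H τ hH), gw_integral t H hH, ENNReal.ofReal_one]

/-- independent frequencies -/
theorem indep_bound (q : ℕ) (hq : 2 ≤ q) {r : ℕ} (β : Fin r → ℝ)
    (hβ : ∀ m : Fin r → ℤ, th β m = 0 → m = 0) {δ : ℝ} (hδ : 0 < δ) (hδ1 : δ ≤ 1 / 4) :
    ∃ c : ℝ, 0 < c ∧ ∃ η : ℝ, 0 < η ∧ ∀ᶠ T : ℝ in atTop, ∀ H : ℝ, T ^ (1 - η) ≤ H → H ≤ T →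
      ∀ φ : Fin r → ℝ, c * H * Real.log T ^ (((q:ℝ) / 2) ^ 2) ≤
        ∫ t in Set.Icc T (T + H) ∩ BSet β φ δ, ‖zl t‖ ^ q := by
  obtain ⟨c, hc, η, hη, hη1, h⟩ := window_bound q hq β hβ hδ hδ1
  refine ⟨c / 2, by positivity, η / 4, by positivity, ?_⟩
  filter_upwards [h, ev_rpow_ge 4 (η / 4) (by positivity), eventually_ge_atTop 1] with T hT h4 hT1 H hH1 hH2 φ
  have hT0 : 0 < T := by linarith
  have hlog : 0 ≤ Real.log T := Real.log_nonneg hT1
  obtain ⟨R, hR⟩ : ∃ R : ℝ, R = T ^ (1 - η / 2) := ⟨_, rfl⟩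
  have hR0 : 0 < R := by rw [hR]; positivity
  have hRH : 4 * R ≤ H := by
    refine le_trans ?_ hH1
    calc 4 * R ≤ T ^ (η / 4) * T ^ (1 - η / 2) := by rw [hR]; gcongr
      _ = T ^ (1 - η / 4) := by
          rw [← Real.rpow_add hT0]
          congr 1
          ring
  have hH0 : 0 < H := by linarith
  rw [← hR] at hT
  have hav := averaging (fun t => ‖zl t‖ ^ q) (zl_cont.norm.pow q) (fun t => by positivity)
    (Set.Icc T (T + H) ∩ BSet β φ δ) (measurableSet_Icc.inter (BSet_meas β φ δ)) T (T + H)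
    Set.inter_subset_left (fun τ t => gw τ (T ^ (1 - η)) t) (gw_uncurry _)
    (fun τ t => gw_nonneg _ _ _ (by positivity)) (gw_lint _ (by positivity)) (T + R) (T + H - R)
    (c * Real.log T ^ (((q:ℝ) / 2) ^ 2)) (by linarith) (by positivity) (by
      intro τ hτ
      refine (hT τ (by linarith [hτ.1]) (by linarith [hτ.2]) φ).trans ?_
      refine setIntegral_mono_set ?_ ?_ ?_
      · have hc : Continuous fun t => ‖zl t‖ ^ q * gw τ (T ^ (1 - η)) t :=
          (zl_cont.norm.pow q).mul (gw_continuous _ _)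
        exact hc.integrableOn_Icc.mono_set Set.inter_subset_left
      · refine Eventually.of_forall fun t => ?_
        have := gw_nonneg τ (T ^ (1 - η)) t (by positivity)
        simp only [Pi.zero_apply]
        positivity
      · refine Eventually.of_forall fun t ht => ?_
        refine ⟨⟨?_, ?_⟩, ht.2⟩
        · linarith [ht.1.1, hτ.1]
        · linarith [ht.1.2, hτ.2])
  refine le_trans ?_ hav
  have hp : 0 ≤ c * Real.log T ^ (((q:ℝ) / 2) ^ 2) := by positivity
  calc c / 2 * H * Real.log T ^ (((q:ℝ) / 2) ^ 2) = (H / 2) * (c * Real.log T ^ (((q:ℝ) / 2) ^ 2)) := by ring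
    _ ≤ (T + H - R - (T + R)) * (c * Real.log T ^ (((q:ℝ) / 2) ^ 2)) := by
        gcongr
        linarith

/-- a basis of the group generated by finitely many real numbers -/
theorem exists_basis {J : ℕ} (α : Fin J → ℝ) : ∃ (r : ℕ) (β : Fin r → ℝ) (n : Fin J → Fin r → ℤ),
    (∀ m : Fin r → ℤ, th β m = 0 → m = 0) ∧ ∀ j, α j = ∑ i, n j i * β i := by
  obtain ⟨M, hM⟩ : ∃ M : Submodule ℤ ℝ, M = Submodule.span ℤ (Set.range α) := ⟨_, rfl⟩
  have hfg : Module.Finite ℤ M := by
    rw [hM]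
    exact Module.Finite.span_of_finite ℤ (Set.finite_range α)
  have hfree : Module.Free ℤ M := inferInstance
  let b := Module.finBasis ℤ M
  have hαM : ∀ j, α j ∈ M := fun j => by
    rw [hM]
    exact Submodule.subset_span ⟨j, rfl⟩
  refine ⟨Module.finrank ℤ M, fun i => (b i : ℝ), fun j i => b.repr ⟨α j, hαM j⟩ i, ?_, ?_⟩
  · intro m hm
    unfold th at hm
    have h1 : ∑ i, (m i : ℝ) * (b i : ℝ) = 0 := by
      rcases mul_eq_zero.mp hm with h | h
      · exfalso
        have := Real.pi_pos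
        linarith
      · exact h
    have h2 : ∑ i, m i • b i = 0 := by
      apply Subtype.ext
      rw [Submodule.coe_sum]
      simp only [Submodule.coe_smul, Submodule.coe_zero, zsmul_eq_mul]
      exact h1
    have h3 := Fintype.linearIndependent_iff.mp b.linearIndependent m h2
    funext i
    exact h3 i
  · intro j
    have h1 := b.sum_repr ⟨α j, hαM j⟩
    have h2 := congrArg (fun x : M => (x : ℝ)) h1
    simp only [Submodule.coe_sum, Submodule.coe_smul, zsmul_eq_mul] at h2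
    exact h2.symm

/-- lower bounds for moments of zeta in all Bohr sets -/
theorem main (q : ℕ) (hq : 2 ≤ q) {J : ℕ} (α : Fin J → ℝ) (δ : ℝ) (hδ : 0 < δ) :
    ∃ c : ℝ, 0 < c ∧ ∃ η : ℝ, 0 < η ∧ ∀ᶠ T : ℝ in atTop, ∀ H : ℝ, T ^ (1 - η) ≤ H → H ≤ T →
      ∀ t₀ : ℝ, c * H * Real.log T ^ ((q:ℝ) ^ 2 / 4) ≤
        ∫ t in {t | t ∈ Set.Icc T (T + H) ∧
            ∀ j, |α j * (t - t₀) - round (α j * (t - t₀))| < δ}, ‖zl t‖ ^ q := by
  obtain ⟨r, β, n, hβ, hn⟩ := exists_basis α
  obtain ⟨C, hC⟩ : ∃ C : ℝ, C = 1 + ∑ j, ∑ i, |(n j i : ℝ)| := ⟨_, rfl⟩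
  have hC1 : 1 ≤ C := by
    rw [hC]
    have : 0 ≤ ∑ j, ∑ i, |(n j i : ℝ)| := sum_nonneg fun j _ => sum_nonneg fun i _ => abs_nonneg _
    linarith
  obtain ⟨c, hc, η, hη, h⟩ := indep_bound q hq β hβ (δ := min (1 / 4) (δ / (4 * C)))
    (lt_min (by norm_num) (by positivity)) (min_le_left _ _)
  refine ⟨c, hc, η, hη, ?_⟩
  filter_upwards [h] with T hT H hH1 hH2 t₀
  have h1 := hT H hH1 hH2 (fun i => β i * t₀)
  rw [show ((q:ℝ) / 2) ^ 2 = (q:ℝ) ^ 2 / 4 by ring] at h1
  refine h1.trans ?_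
  refine setIntegral_mono_set ?_ ?_ ?_
  · exact (zl_cont.norm.pow q).integrableOn_Icc.mono_set fun t ht => ht.1
  · exact Eventually.of_forall fun t => by simp only [Pi.zero_apply]; positivity
  · refine Eventually.of_forall fun t ht => ?_
    refine ⟨ht.1, fun j => ?_⟩
    have hB := ht.2
    choose k hk using hB
    have h2 : α j * (t - t₀) - ((∑ i, n j i * k i : ℤ) : ℝ) = ∑ i, (n j i : ℝ) * (β i * t - β i * t₀ - k i) := by
      rw [hn j, sum_mul]
      push_cast
      rw [← sum_sub_distrib]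
      refine sum_congr rfl fun i _ => ?_
      ring
    have h3 : |α j * (t - t₀) - ((∑ i, n j i * k i : ℤ) : ℝ)| ≤ δ / 2 := by
      rw [h2]
      refine (abs_sum_le_sum_abs _ _).trans ?_
      have h4 : ∀ i ∈ (univ : Finset (Fin r)), |(n j i : ℝ) * (β i * t - β i * t₀ - k i)| ≤
          |(n j i : ℝ)| * (2 * (δ / (4 * C))) := by
        intro i _
        rw [abs_mul]
        refine mul_le_mul_of_nonneg_left ?_ (abs_nonneg _)
        refine (hk i).le.trans ?_
        have := min_le_right (1 / 4) (δ / (4 * C))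
        linarith
      refine (sum_le_sum h4).trans ?_
      rw [← sum_mul]
      have h5 : ∑ i, |(n j i : ℝ)| ≤ C := by
        rw [hC]
        have := single_le_sum (f := fun j => ∑ i, |(n j i : ℝ)|)
          (fun j _ => sum_nonneg fun i _ => abs_nonneg _) (mem_univ j)
        linarith
      calc (∑ i, |(n j i : ℝ)|) * (2 * (δ / (4 * C))) ≤ C * (2 * (δ / (4 * C))) := by gcongr
        _ = δ / 2 := by field_simp; ring
    have h6 := round_le (α j * (t - t₀)) (∑ i, n j i * k i)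
    linarith

end

end Pool.Agent.R311.BS
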