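import Pool.Agent.H306R2.Asy

set_option autoImplicit false

/-! Generalised divisor functions: submultiplicativity, growth and mean squares. -/

namespace Pool.Agent.R311.BS

open Finset MeasureTheory Filter Topology
open Pool.Agent.H306R2

noncomputable section

lemma lc_submul {κ : ℝ} (hκ : 1 ≤ κ) (i j : ℕ) : lc κ (i + j) ≤ lc κ i * lc κ j := by
  have h0 : 0 ≤ κ := by linarith
  unfold lc
  rw [prod_range_add]
  refine mul_le_mul_of_nonneg_left ?_ (prod_nonneg fun t _ => by positivity)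
  refine prod_le_prod (fun t _ => by positivity) fun t _ => ?_
  push_cast
  rw [div_le_div_iff₀ (by positivity) (by positivity)]
  have hi : (0:ℝ) ≤ i := Nat.cast_nonneg i
  have ht : (0:ℝ) ≤ t := Nat.cast_nonneg t
  nlinarith [mul_nonneg hi (sub_nonneg.mpr hκ)]

lemma dv_eq_prod (κ : ℝ) {n : ℕ} (hn : n ≠ 0) (S : Finset ℕ) (hS : n.primeFactors ⊆ S) :
    dv κ n = ∏ p ∈ S, lc κ (n.factorization p) := by
  unfold dv
  rw [if_neg hn]
  exact Finsupp.prod_of_support_subset _ (by rwa [Nat.support_factorization]) _ fun _ _ => lc_zero κ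

theorem dv_submul {κ : ℝ} (hκ : 1 ≤ κ) (a b : ℕ) : dv κ (a * b) ≤ dv κ a * dv κ b := by
  have h0 : 0 ≤ κ := by linarith
  rcases Nat.eq_zero_or_pos a with ha | ha
  · subst ha; simp [dv]
  rcases Nat.eq_zero_or_pos b with hb | hb
  · subst hb; simp [dv]
  have hab : a * b ≠ 0 := by positivity
  rw [dv_eq_prod κ hab (a * b).primeFactors (Subset.refl _),
    dv_eq_prod κ ha.ne' (a * b).primeFactors (Nat.primeFactors_mono (Dvd.intro _ rfl) hab),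
    dv_eq_prod κ hb.ne' (a * b).primeFactors (Nat.primeFactors_mono (Dvd.intro_left _ rfl) hab),
    ← prod_mul_distrib]
  refine prod_le_prod (fun p _ => lc_nonneg h0 _) fun p _ => ?_
  rw [Nat.factorization_mul ha.ne' hb.ne', Finsupp.add_apply]
  exact lc_submul hκ _ _

theorem dv_growth {κ : ℝ} (hκ : 0 ≤ κ) : ∃ C : ℝ, 0 < C ∧ ∀ n : ℕ, dv κ n ^ 8 ≤ C * (n:ℝ) ^ 2 := by
  obtain ⟨J, hJ⟩ := exists_nat_ge (κ ^ 8)
  have hs := dvJ_summable J one_pos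
  refine ⟨∑' n : ℕ, dv J n * (n:ℝ) ^ (-1 - 1 : ℝ) + 1, ?_, fun n => ?_⟩
  · have : 0 ≤ ∑' n : ℕ, dv J n * (n:ℝ) ^ (-1 - 1 : ℝ) := tsum_nonneg fun n =>
      mul_nonneg (dv_nonneg (Nat.cast_nonneg J) n) (by positivity)
    linarith
  · rcases Nat.eq_zero_or_pos n with hn | hn
    · subst hn; simp [dv]
    have hn0 : (0:ℝ) < n := by exact_mod_cast hn
    have h1 : dv κ n ^ 8 ≤ dv (κ ^ 8) n := by
      have e1 := dv_sq_le hκ n
      have e2 := dv_sq_le (κ := κ ^ 2) (by positivity) n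
      have e3 := dv_sq_le (κ := (κ ^ 2) ^ 2) (by positivity) n
      have p0 := dv_nonneg hκ n
      have p1 := dv_nonneg (α := κ ^ 2) (by positivity) n
      have p2 := dv_nonneg (α := (κ ^ 2) ^ 2) (by positivity) n
      calc dv κ n ^ 8 = ((dv κ n ^ 2) ^ 2) ^ 2 := by ring
        _ ≤ ((dv (κ ^ 2) n) ^ 2) ^ 2 := by gcongr
        _ ≤ (dv ((κ ^ 2) ^ 2) n) ^ 2 := by gcongr
        _ ≤ dv (((κ ^ 2) ^ 2) ^ 2) n := e3
        _ = dv (κ ^ 8) n := by congr 1; ring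
    have h2 : dv (κ ^ 8) n ≤ dv J n := dv_mono (by positivity) hJ n
    have h3 : dv J n * (n:ℝ) ^ (-1 - 1 : ℝ) ≤ ∑' n : ℕ, dv J n * (n:ℝ) ^ (-1 - 1 : ℝ) :=
      hs.le_tsum n fun m _ => mul_nonneg (dv_nonneg (Nat.cast_nonneg J) m) (by positivity)
    have h4 : (n:ℝ) ^ (-1 - 1 : ℝ) = ((n:ℝ) ^ 2)⁻¹ := by
      rw [show (-1 - 1 : ℝ) = -((2:ℕ):ℝ) by norm_num, Real.rpow_neg hn0.le, Real.rpow_natCast]
    rw [h4] at h3
    have h5 : dv J n ≤ (∑' n : ℕ, dv J n * (n:ℝ) ^ (-1 - 1 : ℝ)) * (n:ℝ) ^ 2 := by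
      rw [← div_eq_mul_inv, div_le_iff₀ (by positivity)] at h3
      exact h3
    have h6 : (0:ℝ) ≤ (n:ℝ) ^ 2 := by positivity
    linarith

/-- normalised values are bounded and tend to zero -/
theorem dv_decay {κ : ℝ} (hκ : 0 ≤ κ) : ∃ C : ℝ, 1 ≤ C ∧
    (∀ n : ℕ, dv κ n * (Real.sqrt n)⁻¹ ≤ C) ∧
    ∀ ε : ℝ, 0 < ε → ∃ B : ℕ, ∀ n : ℕ, B ≤ n → dv κ n * (Real.sqrt n)⁻¹ ≤ ε := by
  obtain ⟨C, hC, h⟩ := dv_growth hκ
  have key : ∀ n : ℕ, 1 ≤ n → (dv κ n * (Real.sqrt n)⁻¹) ^ 8 ≤ C / (n:ℝ) ^ 2 := by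
    intro n hn
    have hn0 : (0:ℝ) < n := by exact_mod_cast hn
    have e1 : ((Real.sqrt n)⁻¹) ^ 8 = ((n:ℝ) ^ 4)⁻¹ := by
      rw [inv_pow]
      congr 1
      calc Real.sqrt n ^ 8 = (Real.sqrt n ^ 2) ^ 4 := by ring
        _ = _ := by rw [Real.sq_sqrt hn0.le]
    rw [mul_pow, e1, ← div_eq_mul_inv, div_le_div_iff₀ (by positivity) (by positivity)]
    have := h n
    calc dv κ n ^ 8 * (n:ℝ) ^ 2 ≤ (C * (n:ℝ) ^ 2) * (n:ℝ) ^ 2 := by gcongr
      _ = C * (n:ℝ) ^ 4 := by ring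
  refine ⟨C + 1, by linarith, fun n => ?_, fun ε hε => ?_⟩
  · rcases Nat.eq_zero_or_pos n with hn | hn
    · subst hn; simp [dv]; linarith
    have h1 := key n hn
    have hn1 : (1:ℝ) ≤ n := by exact_mod_cast hn
    have h2 : C / (n:ℝ) ^ 2 ≤ C := div_le_self hC.le (one_le_pow₀ hn1)
    have h0 : 0 ≤ dv κ n * (Real.sqrt n)⁻¹ := mul_nonneg (dv_nonneg hκ n) (by positivity)
    by_contra hcon
    rw [not_le] at hcon
    have h3 : (C + 1) ^ 8 ≤ (dv κ n * (Real.sqrt n)⁻¹) ^ 8 := pow_le_pow_left₀ (by linarith) hcon.le 8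
    have h4 : C + 1 ≤ (C + 1) ^ 8 := by
      calc C + 1 = (C + 1) ^ 1 := (pow_one _).symm
        _ ≤ (C + 1) ^ 8 := pow_le_pow_right₀ (by linarith) (by norm_num)
    linarith
  · obtain ⟨B, hB⟩ := exists_nat_ge (C / ε ^ 8)
    refine ⟨B + 1, fun n hn => ?_⟩
    have hn1 : 1 ≤ n := by omega
    have hnr : (1:ℝ) ≤ n := by exact_mod_cast hn1
    have h1 := key n hn1
    have h0 : 0 ≤ dv κ n * (Real.sqrt n)⁻¹ := mul_nonneg (dv_nonneg hκ n) (by positivity)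
    by_contra hcon
    rw [not_le] at hcon
    have h3 : ε ^ 8 ≤ (dv κ n * (Real.sqrt n)⁻¹) ^ 8 := pow_le_pow_left₀ hε.le hcon.le 8
    have h5 : ε ^ 8 ≤ C / (n:ℝ) ^ 2 := h3.trans h1
    have hBn : C / ε ^ 8 < n := by
      have : (B:ℝ) + 1 ≤ n := by exact_mod_cast hn
      linarith
    rw [div_lt_iff₀ (by positivity)] at hBn
    rw [le_div_iff₀ (by positivity)] at h5
    have h6 : (n:ℝ) ≤ (n:ℝ) ^ 2 := by nlinarith
    have h7 : (n:ℝ) * ε ^ 8 ≤ ε ^ 8 * (n:ℝ) ^ 2 := by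
      have : 0 < ε ^ 8 := by positivity
      nlinarith
    linarith

/-- conversion between sums over `Fin 1 → ℕ` and finite sums -/
lemma tsum_fin_one {κ L : ℝ} (hL : 0 < L) :
    Summable (fun b : Fin 1 → ℕ => if pos L b 0 ≤ 1 then wt κ (fun _ => κ) b else 0) ∧
    ∑' b : Fin 1 → ℕ, (if pos L b 0 ≤ 1 then wt κ (fun _ => κ) b else 0) =
      ∑ v ∈ Icc 1 ⌊Real.exp L⌋₊, dv κ v ^ 2 / v := by
  have hval : ∀ v : ℕ, (if pos L (fun _ : Fin 1 => v) 0 ≤ 1 then wt κ (fun _ => κ) (fun _ : Fin 1 => v) else 0) =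
      if v ∈ Icc 1 ⌊Real.exp L⌋₊ then dv κ v ^ 2 / v else 0 := by
    intro v
    have e1 : wt κ (fun _ => κ) (fun _ : Fin 1 => v) = dv κ v ^ 2 / v := by
      unfold wt
      simp
      ring
    rw [e1]
    rcases Nat.eq_zero_or_pos v with hv | hv
    · subst hv; simp [dv]
    · have hv0 : (0:ℝ) < v := by exact_mod_cast hv
      have : pos L (fun _ : Fin 1 => v) 0 ≤ 1 ↔ v ∈ Icc 1 ⌊Real.exp L⌋₊ := by
        unfold pos
        rw [mem_Icc, div_le_one hL, Nat.le_floor_iff (Real.exp_pos _).le,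
          ← Real.log_le_iff_le_exp hv0]
        exact ⟨fun h => ⟨hv, h⟩, fun h => h.2⟩
      by_cases h : v ∈ Icc 1 ⌊Real.exp L⌋₊
      · rw [if_pos h, if_pos (this.mpr h)]
      · rw [if_neg h, if_neg (fun h' => h (this.mp h'))]
  set F : (Fin 1 → ℕ) → ℝ := fun b => if pos L b 0 ≤ 1 then wt κ (fun _ => κ) b else 0 with hF
  have hFe : ∀ v : ℕ, F ((Equiv.funUnique (Fin 1) ℕ).symm v) =
      if v ∈ Icc 1 ⌊Real.exp L⌋₊ then dv κ v ^ 2 / v else 0 := by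
    intro v
    rw [← hval v]
    rfl
  have hs : Summable (fun v : ℕ => if v ∈ Icc 1 ⌊Real.exp L⌋₊ then dv κ v ^ 2 / (v:ℝ) else 0) :=
    summable_of_ne_finset_zero (s := Icc 1 ⌊Real.exp L⌋₊) fun v hv => by rw [if_neg hv]
  constructor
  · rw [← (Equiv.funUnique (Fin 1) ℕ).symm.summable_iff]
    exact hs.congr fun v => (hFe v).symm
  · change ∑' b, F b = _
    rw [← (Equiv.funUnique (Fin 1) ℕ).symm.tsum_eq F]
    simp only [hFe]
    rw [tsum_eq_sum (s := Icc 1 ⌊Real.exp L⌋₊) (fun v hv => by rw [if_neg hv])]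
    exact sum_congr rfl fun v hv => by rw [if_pos hv]

theorem U_upper {κ : ℝ} (hκ : 0 < κ) : ∃ C : ℝ, 0 < C ∧ ∀ᶠ L : ℝ in atTop,
    ∑ v ∈ Icc 1 ⌊Real.exp L⌋₊, dv κ v ^ 2 / v ≤ C * L ^ (κ ^ 2) := by
  have e0 : (∑ _i : Fin 1, κ) = κ := by simp
  have h := wt_upper (fun _ : Fin 1 => κ) (fun _ => hκ) one_pos (fun _ => 1) (fun _ => one_pos)
    (aF κ / Real.Gamma (κ * κ + 1) + 1) (by
      rw [e0]
      simp [div_eq_mul_inv])
  rw [e0] at h
  have hA := aF_pos hκ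
  have hG : 0 < Real.Gamma (κ * κ + 1) := Real.Gamma_pos_of_pos (by positivity)
  refine ⟨aF κ / Real.Gamma (κ * κ + 1) + 1, by positivity, ?_⟩
  filter_upwards [h, eventually_gt_atTop 0] with L hL hL0
  obtain ⟨h1, h2⟩ := tsum_fin_one (κ := κ) hL0
  rw [← h2]
  refine hL _ h1 (fun b hb => ?_) fun b hb => ?_
  · rw [if_pos (hb 0)]
  · rw [if_neg]
    intro h
    exact hb fun i => by rw [Subsingleton.elim i 0]; exact h

theorem U_lower {κ : ℝ} (hκ : 1 ≤ κ) : ∃ c : ℝ, 0 < c ∧ ∀ᶠ L : ℝ in atTop,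
    c * L ^ (κ ^ 2) ≤ ∑ v ∈ Icc 1 ⌊Real.exp L⌋₊, dv κ v ^ 2 / v := by
  have hκ0 : 0 < κ := by linarith
  have e0 : (∑ _i : Fin (0 + 1), κ) = κ := by simp
  have hA := aF_pos hκ0
  have hG : 0 < Real.Gamma (κ * κ + 1) := Real.Gamma_pos_of_pos (by positivity)
  have hpos : 0 < aF κ / Real.Gamma (κ * κ + 1) := by positivity
  have h := wt_lower (n := 0) (fun _ : Fin (0 + 1) => κ) (fun _ => hκ0) (fun i => i.elim0)
    (fun i => i.elim0) (by simp) (by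
      rw [e0]
      nlinarith) (aF κ / Real.Gamma (κ * κ + 1) / 2) (by
      rw [e0]
      simp only [univ_eq_empty, prod_empty, sum_empty, sub_zero, Real.one_rpow, one_mul]
      rw [mul_one_div]
      linarith)
  rw [e0] at h
  refine ⟨aF κ / Real.Gamma (κ * κ + 1) / 2, by positivity, ?_⟩
  filter_upwards [h, eventually_gt_atTop 0] with L hL hL0
  obtain ⟨h1, h2⟩ := tsum_fin_one (κ := κ) hL0
  rw [← h2]
  refine hL _ h1 (fun b => ?_) fun b hb _ => ?_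
  · split_ifs
    · exact wt_nonneg hκ0.le (fun _ => hκ0.le) b
    · exact le_refl _
  · rw [if_pos]
    simpa using hb

end

end Pool.Agent.R311.BS
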