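import Pool.Agent.R311.BS.A

set_option autoImplicit false

/-! Coprimality conditions and truncated divisor functions. -/

namespace Pool.Agent.R311.BS

open Finset MeasureTheory Filter Topology
open Pool.Agent.H306R2

noncomputable section

/-- `Σ_{v ≤ N, (v, P) = 1} d_κ(v)² / v` -/
def SP (κ : ℝ) (P N : ℕ) : ℝ := ∑ v ∈ (Icc 1 N).filter (fun v => v.Coprime P), dv κ v ^ 2 / v

lemma SP_nonneg (κ : ℝ) (P N : ℕ) : 0 ≤ SP κ P N := sum_nonneg fun v _ => by positivity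

lemma dv_split {κ : ℝ} {p : ℕ} (hp : p.Prime) {v : ℕ} (hv : v ≠ 0) :
    dv κ v = lc κ (v.factorization p) * dv κ (v / p ^ (v.factorization p)) := by
  have h1 : (p ^ (v.factorization p)).Coprime (v / p ^ (v.factorization p)) :=
    Nat.Coprime.pow_left _ (Nat.coprime_ordCompl hp hv)
  have h2 := (dA_mult κ).map_mul_of_coprime h1
  rw [Nat.ordProj_mul_ordCompl_eq_self] at h2
  rw [dA_apply, dA_apply, dA_apply, dv_prime_pow κ hp] at h2
  exact h2

lemma SP_step {κ : ℝ} (hκ : 0 < κ) {p : ℕ} (hp : p.Prime) : ∃ C : ℝ, 0 < C ∧ ∀ Q N : ℕ,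
    SP κ Q N ≤ C * SP κ (Q * p) N := by
  have hp' := inv_prime hp
  have hsum : Summable (fun j : ℕ => lc κ j ^ 2 * (1 / (p:ℝ)) ^ j) := by
    refine Summable.of_nonneg_of_le (fun j => by have := hp'.1; positivity) (fun j => ?_)
      (lc_summable (α := κ ^ 2) (by positivity) hp'.1 (by linarith [hp'.2]))
    have := lc_sq_le hκ.le j
    have := hp'.1
    gcongr
  refine ⟨∑' j : ℕ, lc κ j ^ 2 * (1 / (p:ℝ)) ^ j, ?_, fun Q N => ?_⟩
  · refine hsum.tsum_pos (fun j => by have := hp'.1; positivity) 0 ?_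
    simp [lc_zero]
  · have h1 : (∑ j ∈ range (N + 1), lc κ j ^ 2 * (1 / (p:ℝ)) ^ j) * SP κ (Q * p) N ≤
        (∑' j : ℕ, lc κ j ^ 2 * (1 / (p:ℝ)) ^ j) * SP κ (Q * p) N :=
      mul_le_mul_of_nonneg_right (hsum.sum_le_tsum _ fun j _ => by have := hp'.1; positivity)
        (SP_nonneg _ _ _)
    refine le_trans ?_ h1
    unfold SP
    rw [sum_mul_sum, ← sum_product']
    have hinj : Set.InjOn (fun v : ℕ => (v.factorization p, v / p ^ (v.factorization p)))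
        ((Icc 1 N).filter (fun v => v.Coprime Q) : Set ℕ) := by
      intro a _ b _ hab
      simp only [Prod.mk.injEq] at hab
      have e1 := Nat.ordProj_mul_ordCompl_eq_self a p
      have e2 := Nat.ordProj_mul_ordCompl_eq_self b p
      rw [← e1, ← e2, hab.2, hab.1]
    have hterm : ∀ v ∈ (Icc 1 N).filter (fun v => v.Coprime Q), dv κ v ^ 2 / (v:ℝ) =
        (fun x : ℕ × ℕ => lc κ x.1 ^ 2 * (1 / (p:ℝ)) ^ x.1 * (dv κ x.2 ^ 2 / (x.2:ℝ)))
          (v.factorization p, v / p ^ (v.factorization p)) := by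
      intro v hv
      rw [mem_filter, mem_Icc] at hv
      have hv0 : v ≠ 0 := by omega
      have e1 : (v:ℝ) = (p:ℝ) ^ (v.factorization p) * ((v / p ^ (v.factorization p) : ℕ) : ℝ) := by
        exact_mod_cast (Nat.ordProj_mul_ordCompl_eq_self v p).symm
      have e2 := dv_split (κ := κ) hp hv0
      simp only
      generalize v.factorization p = j at e1 e2 ⊢
      generalize v / p ^ j = m at e1 e2 ⊢
      rw [e2, e1]
      have hpp : (p:ℝ) ≠ 0 := by exact_mod_cast hp.ne_zero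
      rw [one_div, inv_pow]
      have hpk : (p:ℝ) ^ j ≠ 0 := pow_ne_zero _ hpp
      rw [mul_pow, div_eq_mul_inv, mul_inv, div_eq_mul_inv]
      ring
    rw [sum_congr rfl hterm, ← sum_image (f := fun x : ℕ × ℕ =>
      lc κ x.1 ^ 2 * (1 / (p:ℝ)) ^ x.1 * (dv κ x.2 ^ 2 / (x.2:ℝ))) hinj]
    refine sum_le_sum_of_subset_of_nonneg ?_ fun x _ _ => by have := hp'.1; positivity
    intro x hx
    rw [mem_image] at hx
    obtain ⟨v, hv, rfl⟩ := hx
    rw [mem_filter, mem_Icc] at hv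
    have hv0 : v ≠ 0 := by omega
    rw [mem_product, mem_range, mem_filter, mem_Icc]
    simp only
    refine ⟨?_, ⟨?_, ?_⟩, ?_⟩
    · have := Nat.factorization_lt p hv0
      omega
    · exact Nat.pos_of_ne_zero (Nat.ordCompl_pos p hv0).ne'
    · exact (Nat.ordCompl_le v p).trans hv.1.2
    · refine Nat.Coprime.mul_right ?_ (Nat.coprime_ordCompl hp hv0).symm
      exact Nat.Coprime.coprime_dvd_left (Nat.ordCompl_dvd v p) hv.2

lemma SP_all {κ : ℝ} (hκ : 0 < κ) (s : Finset ℕ) (hs : ∀ p ∈ s, p.Prime) : ∃ C : ℝ, 0 < C ∧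
    ∀ N : ℕ, SP κ 1 N ≤ C * SP κ (∏ p ∈ s, p) N := by
  classical
  induction s using Finset.induction_on with
  | empty => exact ⟨1, one_pos, fun N => by simp⟩
  | insert p s hps ih =>
    obtain ⟨C, hC, h⟩ := ih fun q hq => hs q (mem_insert_of_mem hq)
    obtain ⟨C', hC', h'⟩ := SP_step hκ (hs p (mem_insert_self _ _))
    refine ⟨C * C', by positivity, fun N => ?_⟩
    rw [prod_insert hps, mul_comm p]
    calc SP κ 1 N ≤ C * SP κ (∏ p ∈ s, p) N := h N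
      _ ≤ C * (C' * SP κ ((∏ p ∈ s, p) * p) N) := by gcongr; exact h' _ N
      _ = _ := by ring

theorem SP_lower {κ : ℝ} (hκ : 1 ≤ κ) (s : Finset ℕ) (hs : ∀ p ∈ s, p.Prime) : ∃ c : ℝ, 0 < c ∧
    ∀ᶠ L : ℝ in atTop, c * L ^ (κ ^ 2) ≤ SP κ (∏ p ∈ s, p) ⌊Real.exp L⌋₊ := by
  obtain ⟨C, hC, h⟩ := SP_all (κ := κ) (by linarith) s hs
  obtain ⟨c, hc, h'⟩ := U_lower hκ
  refine ⟨c / C, by positivity, ?_⟩
  filter_upwards [h'] with L hL
  have h1 := h ⌊Real.exp L⌋₊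
  have e1 : SP κ 1 ⌊Real.exp L⌋₊ = ∑ v ∈ Icc 1 ⌊Real.exp L⌋₊, dv κ v ^ 2 / v := by
    unfold SP
    rw [filter_true_of_mem fun v _ => Nat.coprime_one_right v]
  rw [e1] at h1
  rw [div_mul_eq_mul_div, div_le_iff₀ hC, mul_comm _ C]
  linarith

/-! ### Arithmetic functions -/

/-- `d_α` restricted to integers prime to `P` -/
def xA (P : ℕ) (α : ℝ) : ArithmeticFunction ℝ :=
  ⟨fun n => if n.Coprime P then dv α n else 0, by simp [dv]⟩

/-- `d_α` restricted to integers `≤ N` prime to `P` -/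
def cA (P : ℕ) (N α : ℝ) : ArithmeticFunction ℝ :=
  ⟨fun n => if (n:ℝ) ≤ N ∧ n.Coprime P then dv α n else 0, by simp [dv]⟩

lemma xA_apply (P : ℕ) (α : ℝ) (n : ℕ) : xA P α n = if n.Coprime P then dv α n else 0 := rfl

lemma cA_apply (P : ℕ) (N α : ℝ) (n : ℕ) :
    cA P N α n = if (n:ℝ) ≤ N ∧ n.Coprime P then dv α n else 0 := rfl

lemma xA_nonneg (P : ℕ) {α : ℝ} (hα : 0 ≤ α) (n : ℕ) : 0 ≤ xA P α n := by
  rw [xA_apply]
  split_ifs
  · exact dv_nonneg hα n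
  · exact le_refl _

lemma xA_le (P : ℕ) {α : ℝ} (hα : 0 ≤ α) (n : ℕ) : xA P α n ≤ dv α n := by
  rw [xA_apply]
  split_ifs
  · exact le_refl _
  · exact dv_nonneg hα n

lemma cA_nonneg (P : ℕ) (N : ℝ) {α : ℝ} (hα : 0 ≤ α) (n : ℕ) : 0 ≤ cA P N α n := by
  rw [cA_apply]
  split_ifs
  · exact dv_nonneg hα n
  · exact le_refl _

lemma cA_le (P : ℕ) (N : ℝ) {α : ℝ} (hα : 0 ≤ α) (n : ℕ) : cA P N α n ≤ xA P α n := by
  rw [cA_apply, xA_apply]
  by_cases h : n.Coprime P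
  · rw [if_pos h]
    split_ifs
    · exact le_refl _
    · exact dv_nonneg hα n
  · rw [if_neg h, if_neg fun h' => h h'.2]

lemma cA_eq (P : ℕ) {N : ℝ} (α : ℝ) {n : ℕ} (hn : (n:ℝ) ≤ N) : cA P N α n = xA P α n := by
  rw [cA_apply, xA_apply]
  by_cases h : n.Coprime P
  · rw [if_pos h, if_pos ⟨hn, h⟩]
  · rw [if_neg h, if_neg fun h' => h h'.2]

lemma cA_supp (P : ℕ) (N α : ℝ) (n : ℕ) (hn : N < n) : cA P N α n = 0 := by
  rw [cA_apply, if_neg]
  intro h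
  linarith [h.1]

lemma xA_mul (P : ℕ) (α β : ℝ) : xA P α * xA P β = xA P (α + β) := by
  ext n
  rw [ArithmeticFunction.mul_apply, xA_apply]
  have h := congrArg (fun f : ArithmeticFunction ℝ => f n) (dA_mul α β)
  simp only [ArithmeticFunction.mul_apply, dA_apply] at h
  by_cases hn : n.Coprime P
  · rw [if_pos hn, ← h]
    refine sum_congr rfl fun x hx => ?_
    rw [Nat.mem_divisorsAntidiagonal] at hx
    have h1 : x.1.Coprime P := Nat.Coprime.coprime_dvd_left ⟨x.2, hx.1.symm⟩ hn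
    have h2 : x.2.Coprime P := Nat.Coprime.coprime_dvd_left ⟨x.1, by rw [mul_comm]; exact hx.1.symm⟩ hn
    rw [xA_apply, xA_apply, if_pos h1, if_pos h2]
  · rw [if_neg hn]
    refine sum_eq_zero fun x hx => ?_
    rw [Nat.mem_divisorsAntidiagonal] at hx
    rw [xA_apply, xA_apply]
    by_cases h1 : x.1.Coprime P
    · by_cases h2 : x.2.Coprime P
      · exfalso
        apply hn
        rw [← hx.1]
        exact Nat.Coprime.mul_left h1 h2
      · rw [if_neg h2, mul_zero]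
    · rw [if_neg h1, zero_mul]

lemma xA_zero (P : ℕ) : xA P 0 = 1 := by
  ext n
  rw [xA_apply, ← dA_apply, dA_zero, ArithmeticFunction.one_apply]
  by_cases h : n = 1
  · subst h; simp
  · simp [h]

lemma xA_pow (P : ℕ) (α : ℝ) (k : ℕ) : xA P α ^ k = xA P (k * α) := by
  induction k with
  | zero => rw [pow_zero, Nat.cast_zero, zero_mul, xA_zero]
  | succ k ih => rw [pow_succ, ih, xA_mul]; congr 1; push_cast; ring

lemma mul_mono_le {f f' g g' : ArithmeticFunction ℝ} (Z : ℝ)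
    (h1 : ∀ n : ℕ, (n:ℝ) ≤ Z → 0 ≤ f n ∧ f n ≤ f' n)
    (h2 : ∀ n : ℕ, (n:ℝ) ≤ Z → 0 ≤ g n ∧ g n ≤ g' n) :
    ∀ n : ℕ, (n:ℝ) ≤ Z → 0 ≤ (f * g) n ∧ (f * g) n ≤ (f' * g') n := by
  intro n hn
  rw [ArithmeticFunction.mul_apply, ArithmeticFunction.mul_apply]
  have hx : ∀ x ∈ n.divisorsAntidiagonal, (x.1:ℝ) ≤ Z ∧ (x.2:ℝ) ≤ Z := by
    intro x hx
    rw [Nat.mem_divisorsAntidiagonal] at hx
    have hn0 : 0 < n := Nat.pos_of_ne_zero hx.2
    have a1 : x.1 ≤ n := Nat.le_of_dvd hn0 ⟨x.2, hx.1.symm⟩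
    have a2 : x.2 ≤ n := Nat.le_of_dvd hn0 ⟨x.1, by rw [mul_comm]; exact hx.1.symm⟩
    exact ⟨le_trans (by exact_mod_cast a1) hn, le_trans (by exact_mod_cast a2) hn⟩
  constructor
  · exact sum_nonneg fun x hx' => mul_nonneg (h1 _ (hx x hx').1).1 (h2 _ (hx x hx').2).1
  · refine sum_le_sum fun x hx' => ?_
    obtain ⟨b1, b2⟩ := hx x hx'
    exact mul_le_mul (h1 _ b1).2 (h2 _ b2).2 (h2 _ b2).1 ((h1 _ b1).1.trans (h1 _ b1).2)

lemma mul_congr_le {f f' g g' : ArithmeticFunction ℝ} (Z : ℝ)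
    (h1 : ∀ n : ℕ, (n:ℝ) ≤ Z → f n = f' n) (h2 : ∀ n : ℕ, (n:ℝ) ≤ Z → g n = g' n) :
    ∀ n : ℕ, (n:ℝ) ≤ Z → (f * g) n = (f' * g') n := by
  intro n hn
  rw [ArithmeticFunction.mul_apply, ArithmeticFunction.mul_apply]
  refine sum_congr rfl fun x hx => ?_
  rw [Nat.mem_divisorsAntidiagonal] at hx
  have hn0 : 0 < n := Nat.pos_of_ne_zero hx.2
  have a1 : x.1 ≤ n := Nat.le_of_dvd hn0 ⟨x.2, hx.1.symm⟩
  have a2 : x.2 ≤ n := Nat.le_of_dvd hn0 ⟨x.1, by rw [mul_comm]; exact hx.1.symm⟩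
  rw [h1 _ (le_trans (by exact_mod_cast a1) hn), h2 _ (le_trans (by exact_mod_cast a2) hn)]

lemma cA_pow_le (P : ℕ) (N : ℝ) {α : ℝ} (hα : 0 ≤ α) (k : ℕ) (n : ℕ) :
    0 ≤ (cA P N α ^ k) n ∧ (cA P N α ^ k) n ≤ xA P (k * α) n := by
  rw [← xA_pow]
  induction k generalizing n with
  | zero =>
    rw [pow_zero, pow_zero, ArithmeticFunction.one_apply]
    split_ifs <;> simp
  | succ k ih =>
    rw [pow_succ, pow_succ]
    exact mul_mono_le n (fun m _ => ih m) (fun m _ => ⟨cA_nonneg P N hα m, cA_le P N hα m⟩) n le_rfl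

lemma cA_pow_eq (P : ℕ) {N : ℝ} (α : ℝ) (k : ℕ) (n : ℕ) (hn : (n:ℝ) ≤ N) :
    (cA P N α ^ k) n = xA P (k * α) n := by
  rw [← xA_pow]
  induction k generalizing n with
  | zero => rw [pow_zero, pow_zero]
  | succ k ih =>
    rw [pow_succ, pow_succ]
    exact mul_congr_le N (fun m hm => ih m hm) (fun m hm => cA_eq P α hm) n hn

/-- Möbius function on the divisors of `P` -/
def muP (P : ℕ) : ArithmeticFunction ℝ :=
  ⟨fun n => if n ∣ P ∧ n ≠ 0 then (ArithmeticFunction.moebius n : ℝ) else 0, by simp⟩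

lemma muP_apply (P n : ℕ) : muP P n = if n ∣ P ∧ n ≠ 0 then (ArithmeticFunction.moebius n : ℝ) else 0 := rfl

/-- the truncated series of `ζ(s) ∏_{p ∣ P} (1 - p^{-s})` -/
def zP (P : ℕ) (X : ℝ) : ArithmeticFunction ℝ := muP P * cA 1 X 1

lemma dv_one_left {n : ℕ} (hn : n ≠ 0) : dv 1 n = 1 := by
  rw [← dA_apply, dA_one]
  simp [zR, ArithmeticFunction.natCoe_apply, ArithmeticFunction.zeta_apply, hn]

lemma zP_eq (P : ℕ) (X : ℝ) (n : ℕ) (hn : (n:ℝ) ≤ X) : zP P X n = xA P 1 n := by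
  rcases Nat.eq_zero_or_pos n with h0 | h0
  · subst h0; simp
  unfold zP
  rw [ArithmeticFunction.mul_apply, xA_apply, dv_one_left h0.ne']
  have h1 : ∑ x ∈ n.divisorsAntidiagonal, muP P x.1 * cA 1 X 1 x.2 =
      ∑ x ∈ n.divisorsAntidiagonal, muP P x.1 := by
    refine sum_congr rfl fun x hx => ?_
    rw [Nat.mem_divisorsAntidiagonal] at hx
    have a2 : x.2 ≤ n := Nat.le_of_dvd h0 ⟨x.1, by rw [mul_comm]; exact hx.1.symm⟩
    have a3 : x.2 ≠ 0 := by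
      intro h
      rw [h, mul_zero] at hx
      exact hx.2 hx.1.symm
    rw [cA_apply, if_pos ⟨le_trans (by exact_mod_cast a2) hn, Nat.coprime_one_right _⟩,
      dv_one_left a3, mul_one]
  rw [h1, Nat.sum_divisorsAntidiagonal (fun i _ => muP P i)]
  have h2 : ∑ i ∈ n.divisors, muP P i =
      ∑ i ∈ (Nat.gcd n P).divisors, (ArithmeticFunction.moebius i : ℝ) := by
    have hg : Nat.gcd n P ≠ 0 := (Nat.gcd_pos_of_pos_left _ h0).ne'
    have e : (Nat.gcd n P).divisors = n.divisors.filter (fun i => i ∣ P) := by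
      ext i
      rw [mem_filter, Nat.mem_divisors, Nat.mem_divisors, Nat.dvd_gcd_iff]
      constructor
      · rintro ⟨⟨a, b⟩, _⟩; exact ⟨⟨a, h0.ne'⟩, b⟩
      · rintro ⟨⟨a, _⟩, b⟩; exact ⟨⟨a, b⟩, hg⟩
    rw [e, sum_filter]
    refine sum_congr rfl fun i hi => ?_
    rw [Nat.mem_divisors] at hi
    have hi0 : i ≠ 0 := by
      rintro rfl
      exact hi.2 (Nat.eq_zero_of_zero_dvd hi.1)
    rw [muP_apply]
    by_cases h : i ∣ P
    · rw [if_pos h, if_pos ⟨h, hi0⟩]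
    · rw [if_neg h, if_neg fun h' => h h'.1]
  rw [h2]
  have h3 := congrArg (fun f : ArithmeticFunction ℤ => f (Nat.gcd n P)) ArithmeticFunction.moebius_mul_coe_zeta
  simp only [ArithmeticFunction.coe_mul_zeta_apply, ArithmeticFunction.one_apply] at h3
  have h4 : ∑ i ∈ (Nat.gcd n P).divisors, (ArithmeticFunction.moebius i : ℝ) =
      ((∑ i ∈ (Nat.gcd n P).divisors, ArithmeticFunction.moebius i : ℤ) : ℝ) := by push_cast; rfl
  rw [h4, h3]
  by_cases h : n.Coprime P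
  · rw [if_pos h, if_pos (by exact h)]; simp
  · rw [if_neg h, if_neg (by exact h)]; simp

end

end Pool.Agent.R311.BS
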