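import Pool.Agent.R311.BS.MV

set_option autoImplicit false

/-! Resonant primes and near coincidences of frequencies with logarithms of rationals. -/

namespace Pool.Agent.R311.BS

open Finset MeasureTheory Filter Topology
open Pool.Agent.H306R2

noncomputable section

variable {r : ℕ}

lemma th_add (β : Fin r → ℝ) (m n : Fin r → ℤ) : th β (m + n) = th β m + th β n := by
  unfold th
  rw [← mul_add, ← sum_add_distrib]
  congr 1
  refine sum_congr rfl fun j _ => ?_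
  rw [Pi.add_apply]
  push_cast
  ring

lemma th_neg (β : Fin r → ℝ) (m : Fin r → ℤ) : th β (-m) = -th β m := by
  unfold th
  rw [← mul_neg, ← sum_neg_distrib]
  congr 1
  refine sum_congr rfl fun j _ => ?_
  rw [Pi.neg_apply]
  push_cast
  ring

/-- frequencies in the logarithms of `s`-smooth rationals -/
def Rs (β : Fin r → ℝ) (s : Set ℕ) : AddSubgroup (Fin r → ℤ) where
  carrier := {m | ∃ a b : ℕ, 1 ≤ a ∧ 1 ≤ b ∧ (∀ p : ℕ, p.Prime → p ∣ a * b → p ∈ s) ∧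
    th β m = Real.log a - Real.log b}
  zero_mem' := ⟨1, 1, le_refl _, le_refl _, fun p hp h => by
    rw [mul_one, Nat.dvd_one] at h
    exact absurd h hp.ne_one, by rw [th_zero]; simp⟩
  add_mem' := by
    rintro m n ⟨a, b, ha, hb, hs, h⟩ ⟨a', b', ha', hb', hs', h'⟩
    refine ⟨a * a', b * b', Nat.mul_pos ha ha', Nat.mul_pos hb hb', fun p hp hpd => ?_, ?_⟩
    · have : p ∣ (a * b) * (a' * b') := by
        have e : a * a' * (b * b') = (a * b) * (a' * b') := by ring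
        rwa [e] at hpd
      rcases (Nat.Prime.dvd_mul hp).mp this with h1 | h1
      · exact hs p hp h1
      · exact hs' p hp h1
    · rw [th_add, h, h']
      have c1 : (a:ℝ) ≠ 0 := by exact_mod_cast (by omega : a ≠ 0)
      have c2 : (a':ℝ) ≠ 0 := by exact_mod_cast (by omega : a' ≠ 0)
      have c3 : (b:ℝ) ≠ 0 := by exact_mod_cast (by omega : b ≠ 0)
      have c4 : (b':ℝ) ≠ 0 := by exact_mod_cast (by omega : b' ≠ 0)
      push_cast
      rw [Real.log_mul c1 c2, Real.log_mul c3 c4]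
      ring
  neg_mem' := by
    rintro m ⟨a, b, ha, hb, hs, h⟩
    refine ⟨b, a, hb, ha, fun p hp hpd => hs p hp (by rwa [mul_comm]), ?_⟩
    rw [th_neg, h]
    ring

theorem bad_primes (β : Fin r → ℝ) : ∃ s : Finset ℕ, (∀ p ∈ s, p.Prime) ∧
    ∀ (m : Fin r → ℤ) (a b : ℕ), 1 ≤ a → 1 ≤ b → a.Coprime b → a.Coprime (∏ p ∈ s, p) →
      b.Coprime (∏ p ∈ s, p) → th β m - Real.log a + Real.log b = 0 → a = 1 ∧ b = 1 := by
  classical
  have hfg : (Rs β Set.univ).FG := by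
    have h1 : (AddSubgroup.toIntSubmodule (Rs β Set.univ)).FG := IsNoetherian.noetherian _
    rw [Submodule.fg_iff_addSubgroup_fg] at h1
    exact h1
  obtain ⟨G, hG⟩ := hfg
  have hGm : ∀ g ∈ G, ∃ a b : ℕ, 1 ≤ a ∧ 1 ≤ b ∧ th β g = Real.log a - Real.log b := by
    intro g hg
    have : g ∈ Rs β Set.univ := by
      rw [← hG]
      exact AddSubgroup.subset_closure hg
    obtain ⟨a, b, ha, hb, _, h⟩ := this
    exact ⟨a, b, ha, hb, h⟩
  choose! A B hA hB hAB using hGm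
  set s : Finset ℕ := G.biUnion (fun g => (A g * B g).primeFactors) with hs
  have hsp : ∀ p ∈ s, p.Prime := by
    intro p hp
    rw [hs, mem_biUnion] at hp
    obtain ⟨g, _, h⟩ := hp
    exact Nat.prime_of_mem_primeFactors h
  have hle : Rs β Set.univ ≤ Rs β (s : Set ℕ) := by
    rw [← hG, AddSubgroup.closure_le]
    intro g hg
    refine ⟨A g, B g, hA g hg, hB g hg, fun p hp hpd => ?_, hAB g hg⟩
    rw [mem_coe, hs, mem_biUnion]
    refine ⟨g, hg, ?_⟩
    rw [Nat.mem_primeFactors]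
    exact ⟨hp, hpd, (Nat.mul_pos (hA g hg) (hB g hg)).ne'⟩
  refine ⟨s, hsp, fun m a b ha hb hab haP hbP h => ?_⟩
  have hm : m ∈ Rs β Set.univ := ⟨a, b, ha, hb, fun _ _ _ => Set.mem_univ _, by linarith⟩
  obtain ⟨a', b', ha', hb', hs', h'⟩ := hle hm
  have c1 : (0:ℝ) < a := by exact_mod_cast ha
  have c2 : (0:ℝ) < a' := by exact_mod_cast ha'
  have c3 : (0:ℝ) < b := by exact_mod_cast hb
  have c4 : (0:ℝ) < b' := by exact_mod_cast hb'
  have heq : a * b' = a' * b := by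
    have h1 : Real.log a + Real.log b' = Real.log a' + Real.log b := by linarith
    rw [← Real.log_mul c1.ne' c4.ne', ← Real.log_mul c2.ne' c3.ne'] at h1
    have h2 := Real.log_injOn_pos (Set.mem_Ioi.mpr (by positivity : (0:ℝ) < a * b'))
      (Set.mem_Ioi.mpr (by positivity : (0:ℝ) < a' * b)) h1
    exact_mod_cast h2
  have hcop : ∀ c d : ℕ, 1 ≤ d → c.Coprime (∏ p ∈ s, p) → (∀ p : ℕ, p.Prime → p ∣ d → p ∈ s) →
      c.Coprime d := by
    intro c d hd hc hds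
    apply Nat.Coprime.symm
    apply Nat.coprime_of_dvd
    intro p hp hpd hpc
    have h1 : p ∣ ∏ p ∈ s, p := dvd_prod_of_mem _ (hds p hp hpd)
    exact Nat.not_coprime_of_dvd_of_dvd hp.one_lt hpc h1 hc
  constructor
  · have h1 : a ∣ a' * b := ⟨b', heq.symm⟩
    have h2 : a ∣ a' := hab.dvd_of_dvd_mul_right h1
    have h3 : a.Coprime a' := hcop a a' ha' haP fun p hp hpd => hs' p hp (hpd.mul_right _)
    exact Nat.Coprime.eq_one_of_dvd h3 h2
  · have h1 : b ∣ a * b' := ⟨a', by rw [heq]; ring⟩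
    have h2 : b ∣ b' := hab.symm.dvd_of_dvd_mul_left h1
    have h3 : b.Coprime b' := hcop b b' hb' hbP fun p hp hpd => hs' p hp (hpd.mul_left _)
    exact Nat.Coprime.eq_one_of_dvd h3 h2

/-- near coincidences have large height -/
theorem near_small {κ : ℝ} (hκ : 0 ≤ κ) (β : Fin r → ℝ) (hβ : ∀ m : Fin r → ℤ, th β m = 0 → m = 0)
    (P : ℕ) (hP : ∀ (m : Fin r → ℤ) (a b : ℕ), 1 ≤ a → 1 ≤ b → a.Coprime b → a.Coprime P →
      b.Coprime P → th β m - Real.log a + Real.log b = 0 → a = 1 ∧ b = 1)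
    (K : ℝ) (hK : 1 ≤ K) (hK1 : ∀ n : ℕ, dv κ n * (Real.sqrt n)⁻¹ ≤ K)
    (hK2 : ∀ ε : ℝ, 0 < ε → ∃ B : ℕ, ∀ n : ℕ, B ≤ n → dv κ n * (Real.sqrt n)⁻¹ ≤ ε)
    (M₀ : ℕ) (ε : ℝ) (hε : 0 < ε) :
    ∀ᶠ ρ : ℝ in 𝓝[>] 0, ∀ m ∈ bx r M₀, m ≠ 0 → ∀ a b : ℕ, 1 ≤ a → 1 ≤ b → a.Coprime b →
      a.Coprime P → b.Coprime P → |th β m - Real.log a + Real.log b| < ρ →
      dv κ a * dv κ b * (Real.sqrt a)⁻¹ * (Real.sqrt b)⁻¹ ≤ ε := by
  obtain ⟨B, hB⟩ := hK2 (ε / K) (by positivity)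
  have key : ∀ m ∈ bx r M₀, m ≠ 0 → ∀ a ∈ range B, ∀ b ∈ range B, ∀ᶠ ρ : ℝ in 𝓝[>] 0,
      1 ≤ a → 1 ≤ b → a.Coprime b → a.Coprime P → b.Coprime P →
      ρ ≤ |th β m - Real.log a + Real.log b| := by
    intro m _ hm0 a _ b _
    by_cases h : 1 ≤ a ∧ 1 ≤ b ∧ a.Coprime b ∧ a.Coprime P ∧ b.Coprime P
    · have hpos : 0 < |th β m - Real.log a + Real.log b| := by
        rw [abs_pos]
        intro h0
        obtain ⟨h1, h2, h3, h4, h5⟩ := h
        obtain ⟨ha, hb⟩ := hP m a b h1 h2 h3 h4 h5 h0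
        rw [ha, hb] at h0
        apply hm0
        apply hβ
        simpa using h0
      have := Ioo_mem_nhdsGT hpos
      filter_upwards [this] with ρ hρ _ _ _ _ _
      exact hρ.2.le
    · refine Eventually.of_forall fun ρ h1 h2 h3 h4 h5 => absurd ⟨h1, h2, h3, h4, h5⟩ h
  have key2 : ∀ᶠ ρ : ℝ in 𝓝[>] 0, ∀ m ∈ (bx r M₀).erase 0, ∀ a ∈ range B, ∀ b ∈ range B,
      1 ≤ a → 1 ≤ b → a.Coprime b → a.Coprime P → b.Coprime P →
      ρ ≤ |th β m - Real.log a + Real.log b| := by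
    rw [eventually_all_finset]
    intro m hm
    rw [mem_erase] at hm
    rw [eventually_all_finset]
    intro a ha
    rw [eventually_all_finset]
    intro b hb
    exact key m hm.2 hm.1 a ha b hb
  filter_upwards [key2] with ρ hρ m hm hm0 a b ha hb hab haP hbP hlt
  have hnn : ∀ n : ℕ, 0 ≤ dv κ n * (Real.sqrt n)⁻¹ := fun n => mul_nonneg (dv_nonneg hκ n) (by positivity)
  have e1 : dv κ a * dv κ b * (Real.sqrt a)⁻¹ * (Real.sqrt b)⁻¹ =
      (dv κ a * (Real.sqrt a)⁻¹) * (dv κ b * (Real.sqrt b)⁻¹) := by ring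
  rw [e1]
  have hK0 : 0 < K := by linarith
  by_cases haB : B ≤ a
  · calc _ ≤ (ε / K) * K := mul_le_mul (hB a haB) (hK1 b) (hnn b) (by positivity)
      _ = ε := by field_simp
  · by_cases hbB : B ≤ b
    · calc _ ≤ K * (ε / K) := mul_le_mul (hK1 a) (hB b hbB) (hnn b) (by positivity)
        _ = ε := by field_simp
    · exfalso
      have := hρ m (mem_erase.mpr ⟨hm0, hm⟩) a (mem_range.mpr (by omega)) b
        (mem_range.mpr (by omega)) ha hb hab haP hbP
      linarith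

end

end Pool.Agent.R311.BS
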