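import Mathlib

set_option autoImplicit false

/-! Trigonometric kernels concentrated near the integers. -/

namespace Pool.Agent.R311.BS

open Finset MeasureTheory Filter Topology

noncomputable section

/-- `e(x) = exp(2πix)`. -/
def ee (x : ℝ) : ℂ := Complex.exp (((2 * Real.pi * x : ℝ) : ℂ) * Complex.I)

lemma ee_norm (x : ℝ) : ‖ee x‖ = 1 := by
  unfold ee
  exact Complex.norm_exp_ofReal_mul_I _

lemma ee_add (x y : ℝ) : ee (x + y) = ee x * ee y := by
  unfold ee
  rw [← Complex.exp_add]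
  congr 1
  push_cast
  ring

lemma ee_neg (x : ℝ) : ee (-x) = (starRingEnd ℂ) (ee x) := by
  unfold ee
  rw [← Complex.exp_conj, map_mul, Complex.conj_ofReal, Complex.conj_I]
  congr 1
  push_cast
  ring

lemma ee_cont : Continuous ee := by
  unfold ee
  fun_prop

/-- the integral of `e(mu)` over `[0, δ]` -/
def EI (δ : ℝ) (m : ℤ) : ℂ := ∫ u in (0:ℝ)..δ, ee (m * u)

/-- dominating sequence -/
def lam (m : ℤ) : ℝ := if m = 0 then 1 else 1 / (m : ℝ) ^ 2

lemma lam_nonneg (m : ℤ) : 0 ≤ lam m := by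
  unfold lam
  split_ifs <;> positivity

lemma EI_sq_le (δ : ℝ) (hδ : 0 ≤ δ) (hδ1 : δ ≤ 1) (m : ℤ) : ‖EI δ m‖ ^ 2 ≤ lam m := by
  unfold lam
  split_ifs with h
  · subst h
    have h1 : ‖EI δ 0‖ ≤ 1 * |δ - 0| := by
      unfold EI
      refine intervalIntegral.norm_integral_le_of_norm_le_const fun x _ => ?_
      rw [ee_norm]
    rw [sub_zero, abs_of_nonneg hδ, one_mul] at h1
    have := norm_nonneg (EI δ 0)
    nlinarith
  · have hm : (m : ℝ) ≠ 0 := by exact_mod_cast h
    have hm' : (m : ℂ) ≠ 0 := by exact_mod_cast h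
    have e1 : EI δ m = (ee (m * δ) - 1) / ((2 * Real.pi * m : ℝ) * Complex.I) := by
      unfold EI ee
      have h2 := integral_exp_mul_complex (a := 0) (b := δ)
        (c := ((2 * Real.pi * m : ℝ) : ℂ) * Complex.I) (by
          apply mul_ne_zero _ Complex.I_ne_zero
          exact_mod_cast mul_ne_zero (by positivity) hm)
      have e2 : ∀ u : ℝ, Complex.exp (((2 * Real.pi * m : ℝ) : ℂ) * Complex.I * (u : ℂ)) =
          Complex.exp (((2 * Real.pi * (m * u) : ℝ) : ℂ) * Complex.I) := by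
        intro u
        congr 1
        push_cast
        ring
      simp only [e2] at h2
      rw [h2]
      simp
    rw [e1, norm_div]
    have h3 : ‖ee (m * δ) - 1‖ ≤ 2 := by
      calc ‖ee (m * δ) - 1‖ ≤ ‖ee (m * δ)‖ + ‖(1:ℂ)‖ := norm_sub_le _ _
        _ = 2 := by rw [ee_norm, norm_one]; norm_num
    have h4 : ‖((2 * Real.pi * m : ℝ) : ℂ) * Complex.I‖ = 2 * Real.pi * |(m:ℝ)| := by
      rw [norm_mul, Complex.norm_I, mul_one, Complex.norm_real, Real.norm_eq_abs, abs_mul,
        abs_of_pos (by positivity : (0:ℝ) < 2 * Real.pi)]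
    rw [h4, div_pow, mul_pow, sq_abs, div_le_div_iff₀ (by positivity) (by positivity)]
    have h5 : ‖ee (m * δ) - 1‖ ^ 2 ≤ 4 := by
      have := norm_nonneg (ee (m * δ) - 1)
      nlinarith
    have h6 : 4 ≤ (2 * Real.pi) ^ 2 := by
      have := Real.pi_gt_three
      nlinarith
    have h7 : 0 < (m:ℝ) ^ 2 := by positivity
    nlinarith

lemma lam_summable : Summable lam := by
  have h1 : Summable (fun m : ℤ => 1 / (m : ℝ) ^ 2) := by
    have := (Real.summable_one_div_int_pow (p := 2)).mpr (by norm_num)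
    exact this
  have h2 : Summable (fun m : ℤ => if m = 0 then (1:ℝ) else 0) := by
    refine summable_of_ne_finset_zero (s := {0}) fun m hm => ?_
    rw [Finset.mem_singleton] at hm
    rw [if_neg hm]
  refine (h1.add h2).congr fun m => ?_
  unfold lam
  split_ifs with h
  · subst h; simp
  · simp

/-- normalised binomial coefficients -/
def bb (D : ℕ) (m : ℤ) : ℝ := (Nat.choose (2 * D) (D + m).toNat : ℝ) / (Nat.centralBinom D : ℝ)

lemma bb_nonneg (D : ℕ) (m : ℤ) : 0 ≤ bb D m := by unfold bb; positivity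

lemma bb_le_one (D : ℕ) (m : ℤ) : bb D m ≤ 1 := by
  unfold bb
  have h : (0:ℝ) < Nat.centralBinom D := by exact_mod_cast Nat.centralBinom_pos D
  rw [div_le_one h]
  have := Nat.choose_le_centralBinom (D + m).toNat D
  exact_mod_cast this

lemma bb_zero (D : ℕ) : bb D 0 = 1 := by
  unfold bb
  have h : (0:ℝ) < Nat.centralBinom D := by exact_mod_cast Nat.centralBinom_pos D
  simp only [add_zero, Int.toNat_natCast]
  rw [← Nat.centralBinom_eq_two_mul_choose, div_self h.ne']

/-- the kernel `(4^D / C(2D,D)) cos(πx)^(2D)` -/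
def KD (D : ℕ) (x : ℝ) : ℝ := (4 ^ D / (Nat.centralBinom D : ℝ)) * Real.cos (Real.pi * x) ^ (2 * D)

lemma KD_cont (D : ℕ) : Continuous (KD D) := by
  unfold KD
  fun_prop

lemma KD_nonneg (D : ℕ) (x : ℝ) : 0 ≤ KD D x := by
  unfold KD
  rw [pow_mul]
  positivity

lemma KD_eq (D : ℕ) (x : ℝ) : (KD D x : ℂ) = ∑ m ∈ Icc (-(D:ℤ)) D, (bb D m : ℂ) * ee (m * x) := by
  have h : (Nat.centralBinom D : ℂ) ≠ 0 := by exact_mod_cast (Nat.centralBinom_pos D).ne'
  have h1 : ((4:ℂ) ^ D) * (Complex.cos (Real.pi * x)) ^ (2 * D) =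
      ∑ j ∈ range (2 * D + 1), (Nat.choose (2 * D) j : ℂ) * ee (((j:ℤ) - D : ℤ) * x) := by
    have h2 : (2:ℂ) * Complex.cos (Real.pi * x) =
        Complex.exp (Real.pi * x * Complex.I) + Complex.exp (-(Real.pi * x) * Complex.I) := by
      rw [Complex.cos]
      ring
    have h3 : ((4:ℂ) ^ D) * (Complex.cos (Real.pi * x)) ^ (2 * D) =
        (2 * Complex.cos (Real.pi * x)) ^ (2 * D) := by
      rw [mul_pow, pow_mul 2 2 D]
      norm_num
    rw [h3, h2, add_pow]
    refine sum_congr rfl fun j hj => ?_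
    rw [mem_range] at hj
    rw [mul_comm _ (Nat.choose (2 * D) j : ℂ)]
    congr 1
    unfold ee
    rw [← Complex.exp_nat_mul, ← Complex.exp_nat_mul, ← Complex.exp_add]
    congr 1
    rw [Nat.cast_sub (by omega)]
    push_cast
    ring
  have h4 : ∑ m ∈ Icc (-(D:ℤ)) D, (bb D m : ℂ) * ee (m * x) =
      ∑ j ∈ range (2 * D + 1), (bb D ((j:ℤ) - D) : ℂ) * ee (((j:ℤ) - D : ℤ) * x) := by
    symm
    refine sum_bij (fun j _ => (j:ℤ) - D) ?_ ?_ ?_ ?_
    · intro j hj
      rw [mem_range] at hj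
      rw [mem_Icc]
      omega
    · intro a _ b _ hab
      omega
    · intro m hm
      rw [mem_Icc] at hm
      refine ⟨(m + D).toNat, ?_, ?_⟩
      · rw [mem_range]; omega
      · omega
    · intro j _
      rfl
  rw [h4]
  unfold KD bb
  push_cast
  rw [div_mul_eq_mul_div, h1, sum_div]
  refine sum_congr rfl fun j _ => ?_
  rw [show ((D:ℤ) + ((j:ℤ) - D)).toNat = j by omega]
  push_cast
  ring

/-- smoothed kernel -/
def FD (D : ℕ) (δ x : ℝ) : ℝ := ∫ u in (0:ℝ)..δ, ∫ v in (0:ℝ)..δ, KD D (x + u - v)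

/-- its Fourier coefficients -/
def cD (D : ℕ) (δ : ℝ) (m : ℤ) : ℝ := bb D m * ‖EI δ m‖ ^ 2

lemma cD_nonneg (D : ℕ) (δ : ℝ) (m : ℤ) : 0 ≤ cD D δ m :=
  mul_nonneg (bb_nonneg _ _) (by positivity)

lemma cD_le (D : ℕ) (δ : ℝ) (hδ : 0 ≤ δ) (hδ1 : δ ≤ 1) (m : ℤ) : cD D δ m ≤ lam m := by
  unfold cD
  have h1 := EI_sq_le δ hδ hδ1 m
  have h2 := bb_le_one D m
  have h3 := bb_nonneg D m
  have h4 : 0 ≤ ‖EI δ m‖ ^ 2 := by positivity
  nlinarith

lemma cD_zero (D : ℕ) (δ : ℝ) : cD D δ 0 = δ ^ 2 := by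
  unfold cD
  rw [bb_zero, one_mul]
  have : EI δ 0 = δ := by
    unfold EI ee
    simp
  rw [this, Complex.norm_real, Real.norm_eq_abs, sq_abs]

lemma FD_nonneg (D : ℕ) (δ x : ℝ) (hδ : 0 ≤ δ) : 0 ≤ FD D δ x := by
  unfold FD
  refine intervalIntegral.integral_nonneg hδ fun u _ => ?_
  exact intervalIntegral.integral_nonneg hδ fun v _ => KD_nonneg _ _

lemma FD_eq (D : ℕ) (δ x : ℝ) : (FD D δ x : ℂ) =
    ∑ m ∈ Icc (-(D:ℤ)) D, (cD D δ m : ℂ) * ee (m * x) := by
  unfold FD
  have hc : ∀ (m : ℤ) (y : ℝ), Continuous fun v : ℝ => ee (m * (y - v)) := fun m y =>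
    ee_cont.comp (by fun_prop)
  have h1 : ∀ u : ℝ, ((∫ v in (0:ℝ)..δ, KD D (x + u - v) : ℝ) : ℂ) =
      ∑ m ∈ Icc (-(D:ℤ)) D, (bb D m : ℂ) * (ee (m * x) * ee (m * u) * (starRingEnd ℂ) (EI δ m)) := by
    intro u
    rw [← intervalIntegral.integral_ofReal]
    simp only [KD_eq]
    rw [intervalIntegral.integral_finsetSum]
    · refine sum_congr rfl fun m _ => ?_
      rw [intervalIntegral.integral_const_mul]
      congr 1
      have e1 : ∀ v : ℝ, ee (m * (x + u - v)) = (ee (m * x) * ee (m * u)) * (starRingEnd ℂ) (ee (m * v)) := by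
        intro v
        rw [← ee_neg, ← ee_add, ← ee_add]
        congr 1
        ring
      simp only [e1]
      rw [intervalIntegral.integral_const_mul]
      congr 1
      unfold EI
      rw [intervalIntegral.intervalIntegral_eq_integral_uIoc, intervalIntegral.intervalIntegral_eq_integral_uIoc]
      rw [integral_conj]
      split_ifs <;> simp
    · intro m _
      exact ((hc m (x + u)).const_mul _ |>.intervalIntegrable _ _)
  rw [← intervalIntegral.integral_ofReal]
  simp only [h1]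
  rw [intervalIntegral.integral_finsetSum]
  · refine sum_congr rfl fun m _ => ?_
    unfold cD
    have e2 : ∀ u : ℝ, (bb D m : ℂ) * (ee (m * x) * ee (m * u) * (starRingEnd ℂ) (EI δ m)) =
        ((bb D m : ℂ) * ee (m * x) * (starRingEnd ℂ) (EI δ m)) * ee (m * u) := by intro u; ring
    simp only [e2]
    rw [intervalIntegral.integral_const_mul]
    have e3 : ((‖EI δ m‖ ^ 2 : ℝ) : ℂ) = EI δ m * (starRingEnd ℂ) (EI δ m) := by
      rw [Complex.mul_conj, Complex.normSq_eq_norm_sq]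
    push_cast at e3 ⊢
    rw [e3]
    change _ * EI δ m = _
    ring
  · intro m _
    have : Continuous fun u : ℝ => ee (m * u) := ee_cont.comp (by fun_prop)
    exact (Continuous.intervalIntegrable (by fun_prop) _ _)

lemma FD_cont (D : ℕ) (δ : ℝ) : Continuous (FD D δ) := by
  have h : Continuous (fun x => (FD D δ x : ℂ)) := by
    simp only [FD_eq]
    refine continuous_finsetSum _ fun m _ => ?_
    have : Continuous fun u : ℝ => ee (m * u) := ee_cont.comp (by fun_prop)
    fun_prop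
  have h2 := Complex.continuous_re.comp h
  simpa [Function.comp_def] using h2

/-- `Λ = Σ lam` -/
def Lam : ℝ := ∑' m : ℤ, lam m

lemma sum_lam_le (s : Finset ℤ) : ∑ m ∈ s, lam m ≤ Lam :=
  lam_summable.sum_le_tsum s (fun m _ => lam_nonneg m)

lemma Lam_ge_one : 1 ≤ Lam := by
  have := sum_lam_le {0}
  simpa [lam] using this

lemma FD_le (D : ℕ) (δ x : ℝ) (hδ : 0 ≤ δ) (hδ1 : δ ≤ 1) : FD D δ x ≤ Lam := by
  have h0 := FD_nonneg D δ x hδ
  have h1 : FD D δ x = ‖(FD D δ x : ℂ)‖ := by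
    rw [Complex.norm_real, Real.norm_of_nonneg h0]
  rw [h1, FD_eq]
  refine (norm_sum_le _ _).trans (le_trans (sum_le_sum fun m _ => ?_) (sum_lam_le (Icc (-(D:ℤ)) D)))
  rw [norm_mul, ee_norm, mul_one, Complex.norm_real, Real.norm_of_nonneg (cD_nonneg _ _ _)]
  exact cD_le D δ hδ hδ1 m

lemma cos_bound (δ y : ℝ) (hδ : 0 ≤ δ) (hy : ∀ n : ℤ, δ ≤ |y - n|) :
    |Real.cos (Real.pi * y)| ≤ Real.cos (Real.pi * δ) := by
  set n := round y with hn
  have h1 : |y - n| ≤ 1 / 2 := abs_sub_round y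
  have h2 := hy n
  have h3 : |Real.cos (Real.pi * y)| = Real.cos (Real.pi * |y - n|) := by
    have e1 : Real.pi * y = Real.pi * (y - n) + n * Real.pi := by ring
    rw [e1, Real.cos_add_int_mul_pi, abs_mul, abs_zpow, abs_neg, abs_one, one_zpow, one_mul]
    have e2 : Real.cos (Real.pi * (y - n)) = Real.cos (Real.pi * |y - n|) := by
      rcases abs_cases (y - n) with ⟨h, _⟩ | ⟨h, _⟩
      · rw [h]
      · rw [h, mul_neg, Real.cos_neg]
    rw [e2]
    apply abs_of_nonneg
    apply Real.cos_nonneg_of_mem_Icc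
    constructor
    · have := abs_nonneg (y - n)
      have := Real.pi_pos
      nlinarith [mul_nonneg Real.pi_pos.le (abs_nonneg (y - n))]
    · have := Real.pi_pos
      nlinarith
  rw [h3]
  apply Real.cos_le_cos_of_nonneg_of_le_pi
  · exact mul_nonneg Real.pi_pos.le hδ
  · have := Real.pi_pos
    nlinarith
  · exact mul_le_mul_of_nonneg_left h2 Real.pi_pos.le

lemma FD_tail (D : ℕ) (hD : 0 < D) (δ x : ℝ) (hδ : 0 ≤ δ) (hδ1 : δ ≤ 1 / 4)
    (hx : ∀ n : ℤ, 2 * δ ≤ |x - n|) : FD D δ x ≤ 2 * D * Real.cos (Real.pi * δ) ^ (2 * D) := by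
  set M : ℝ := 2 * D * Real.cos (Real.pi * δ) ^ (2 * D) with hM
  have hcos : 0 ≤ Real.cos (Real.pi * δ) := by
    apply Real.cos_nonneg_of_mem_Icc
    constructor <;> nlinarith [Real.pi_pos]
  have hM0 : 0 ≤ M := by positivity
  have hK : ∀ u ∈ Set.Icc 0 δ, ∀ v ∈ Set.Icc 0 δ, KD D (x + u - v) ≤ M := by
    intro u hu v hv
    unfold KD
    have h1 : |Real.cos (Real.pi * (x + u - v))| ≤ Real.cos (Real.pi * δ) := by
      apply cos_bound δ _ hδ
      intro n
      have h2 := hx n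
      have h3 : |x - n| ≤ |x + u - v - n| + |u - v| := by
        have : x - n = (x + u - v - n) - (u - v) := by ring
        rw [this]
        exact abs_sub _ _
      have h4 : |u - v| ≤ δ := by
        rw [abs_le]
        constructor <;> linarith [hu.1, hu.2, hv.1, hv.2]
      linarith
    have h5 : Real.cos (Real.pi * (x + u - v)) ^ (2 * D) ≤ Real.cos (Real.pi * δ) ^ (2 * D) := by
      rw [pow_mul, pow_mul]
      refine pow_le_pow_left₀ (by positivity) ?_ D
      rw [← sq_abs (Real.cos (Real.pi * (x + u - v)))]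
      exact pow_le_pow_left₀ (abs_nonneg _) h1 2
    have h6 : (4:ℝ) ^ D / (Nat.centralBinom D : ℝ) ≤ 2 * D := by
      have hc : (0:ℝ) < Nat.centralBinom D := by exact_mod_cast Nat.centralBinom_pos D
      rw [div_le_iff₀ hc]
      have := Nat.four_pow_le_two_mul_self_mul_centralBinom D hD
      exact_mod_cast this
    have h7 : 0 ≤ Real.cos (Real.pi * (x + u - v)) ^ (2 * D) := by
      rw [pow_mul]; positivity
    calc _ ≤ (2 * D) * Real.cos (Real.pi * δ) ^ (2 * D) := by
          refine mul_le_mul h6 h5 h7 (by positivity)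
      _ = M := rfl
  have hin : ∀ u ∈ Set.Icc 0 δ, ∫ v in (0:ℝ)..δ, KD D (x + u - v) ≤ M * 1 := by
    intro u hu
    have hcv : Continuous fun v : ℝ => KD D (x + u - v) := (KD_cont D).comp (by fun_prop)
    calc ∫ v in (0:ℝ)..δ, KD D (x + u - v) ≤ ∫ v in (0:ℝ)..δ, M :=
          intervalIntegral.integral_mono_on hδ (hcv.intervalIntegrable _ _)
            (continuous_const.intervalIntegrable _ _) fun v hv => hK u hu v hv
      _ = δ * M := by rw [intervalIntegral.integral_const, sub_zero, smul_eq_mul]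
      _ ≤ M * 1 := by nlinarith
  unfold FD
  have hcc : Continuous fun u : ℝ => ∫ v in (0:ℝ)..δ, KD D (x + u - v) := by
    apply intervalIntegral.continuous_parametric_intervalIntegral_of_continuous'
    exact (KD_cont D).comp (by fun_prop)
  calc ∫ u in (0:ℝ)..δ, ∫ v in (0:ℝ)..δ, KD D (x + u - v) ≤ ∫ u in (0:ℝ)..δ, M * 1 :=
        intervalIntegral.integral_mono_on hδ (hcc.intervalIntegrable _ _)
          (continuous_const.intervalIntegrable _ _) hin
    _ = δ * (M * 1) := by rw [intervalIntegral.integral_const, sub_zero, smul_eq_mul]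
    _ ≤ M := by nlinarith

end

end Pool.Agent.R311.BS
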