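import Pool.Agent.H306R2.Asy

set_option autoImplicit false

/-! Gaussian averages of products of Dirichlet polynomials and exponentials. -/

namespace Pool.Agent.R311.BS

open Finset MeasureTheory Filter Topology
open Pool.Agent.H306R2

noncomputable section

/-- `exp(ixt)` -/
def ex (x t : ℝ) : ℂ := Complex.exp (((x * t : ℝ) : ℂ) * Complex.I)

lemma ex_norm (x t : ℝ) : ‖ex x t‖ = 1 := by
  unfold ex
  exact Complex.norm_exp_ofReal_mul_I _

lemma ex_add (x y t : ℝ) : ex (x + y) t = ex x t * ex y t := by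
  unfold ex
  rw [← Complex.exp_add]
  congr 1
  push_cast
  ring

lemma ex_cont (x : ℝ) : Continuous (ex x) := by
  unfold ex
  fun_prop

lemma gex (τ H : ℝ) (hH : 0 < H) (x : ℝ) :
    ∫ t : ℝ, ex x t * (gw τ H t : ℂ) = ex x τ * (Real.exp (-(H ^ 2 * x ^ 2 / 4)) : ℝ) := by
  have h := gauss_exp τ H hH 0 x
  have e1 : ∀ y : ℝ, Complex.exp ((((1 / 2 + 0 : ℝ) : ℂ) + y * Complex.I) * x) *
      Wa τ H (((1 / 2 + 0 : ℝ) : ℂ) + y * Complex.I) =
      Complex.exp (x / 2) * (ex x y * (gw τ H y : ℂ)) := by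
    intro y
    have e2 : (((1 / 2 + 0 : ℝ) : ℂ) + y * Complex.I) = 1 / 2 + y * Complex.I := by
      push_cast; ring
    rw [e2, Wa_half, ← mul_assoc]
    congr 1
    unfold ex
    rw [← Complex.exp_add]
    congr 1
    push_cast
    ring
  simp only [e1] at h
  rw [integral_const_mul] at h
  have e3 : Complex.exp ((1 / 2 + τ * Complex.I) * x) = Complex.exp (x / 2) * ex x τ := by
    unfold ex
    rw [← Complex.exp_add]
    congr 1
    push_cast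
    ring
  rw [e3, mul_assoc] at h
  exact mul_left_cancel₀ (Complex.exp_ne_zero _) h

lemma gex_int (τ H : ℝ) (hH : 0 < H) (x : ℝ) (c : ℂ) :
    Integrable (fun t : ℝ => c * (ex x t * (gw τ H t : ℂ))) := by
  refine Integrable.const_mul ?_ c
  refine ((gw_integrable τ H hH).ofReal (𝕜 := ℂ)).bdd_mul (c := 1) (ex_cont x).aestronglyMeasurable ?_
  exact Eventually.of_forall fun t => (ex_norm x t).le

/-- terms of Dirichlet polynomials on the line -/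
lemma ncpow_line (n : ℕ) (hn : 1 ≤ n) (t : ℝ) :
    (n : ℂ) ^ (-(1 / 2 + t * Complex.I)) = ((Real.sqrt n)⁻¹ : ℝ) * ex (-Real.log n) t := by
  have hn0 : (0:ℝ) < n := by exact_mod_cast hn
  rw [ncpow_exp n hn]
  have e1 : ((Real.sqrt n)⁻¹ : ℝ) = Real.exp (-(Real.log n / 2)) := by
    rw [Real.exp_neg, Real.sqrt_eq_rpow, Real.rpow_def_of_pos hn0]
    congr 2
    ring
  rw [e1, Complex.ofReal_exp]
  unfold ex
  rw [← Complex.exp_add]
  congr 1
  push_cast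
  ring

lemma Dp_line (f : ℕ → ℝ) (X t : ℝ) : Dp f X (1 / 2 + t * Complex.I) =
    ∑ n ∈ Icc 1 ⌊X⌋₊, ((f n * (Real.sqrt n)⁻¹ : ℝ) : ℂ) * ex (-Real.log n) t := by
  unfold Dp
  refine sum_congr rfl fun n hn => ?_
  rw [mem_Icc] at hn
  rw [ncpow_line n hn.1]
  push_cast
  ring

lemma Dp_line_conj (f : ℕ → ℝ) (X t : ℝ) : (starRingEnd ℂ) (Dp f X (1 / 2 + t * Complex.I)) =
    ∑ n ∈ Icc 1 ⌊X⌋₊, ((f n * (Real.sqrt n)⁻¹ : ℝ) : ℂ) * ex (Real.log n) t := by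
  rw [Dp_line, map_sum]
  refine sum_congr rfl fun n _ => ?_
  rw [map_mul, Complex.conj_ofReal]
  congr 1
  unfold ex
  rw [← Complex.exp_conj, map_mul, Complex.conj_ofReal, Complex.conj_I]
  congr 1
  push_cast
  ring

lemma Dp_line_norm (f : ℕ → ℝ) (X t : ℝ) :
    ‖Dp f X (1 / 2 + t * Complex.I)‖ ≤ ∑ n ∈ Icc 1 ⌊X⌋₊, |f n| := by
  rw [Dp_line]
  refine norm_sum_le_of_le _ fun n hn => ?_
  rw [mem_Icc] at hn
  rw [norm_mul, ex_norm, mul_one, Complex.norm_real, Real.norm_eq_abs, abs_mul, abs_inv,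
    abs_of_nonneg (Real.sqrt_nonneg _)]
  have h1 : 1 ≤ Real.sqrt n := by
    rw [Real.one_le_sqrt]; exact_mod_cast hn.1
  have h2 : (Real.sqrt n)⁻¹ ≤ 1 := inv_le_one_of_one_le₀ h1
  have := abs_nonneg (f n)
  nlinarith

/-- weights of frequencies -/
def gq (H q : ℝ) : ℝ := Real.exp (-(H ^ 2 * q ^ 2 / 4))

lemma gq_nonneg (H q : ℝ) : 0 ≤ gq H q := (Real.exp_pos _).le

lemma gq_le_one (H q : ℝ) : gq H q ≤ 1 := by
  unfold gq
  rw [Real.exp_le_one_iff]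
  have : 0 ≤ H ^ 2 * q ^ 2 / 4 := by positivity
  linarith

/-- the expansion of a Gaussian average -/
theorem expansion {ι : Type*} (M : Finset ι) (c : ι → ℂ) (ω : ι → ℝ) (f g : ℕ → ℝ) (X Y : ℝ)
    (τ H : ℝ) (hH : 0 < H) :
    Integrable (fun t : ℝ => ((∑ i ∈ M, c i * ex (ω i) t) * Dp f X (1 / 2 + t * Complex.I) *
      (starRingEnd ℂ) (Dp g Y (1 / 2 + t * Complex.I))) * (gw τ H t : ℂ)) ∧
    ∫ t : ℝ, ((∑ i ∈ M, c i * ex (ω i) t) * Dp f X (1 / 2 + t * Complex.I) *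
      (starRingEnd ℂ) (Dp g Y (1 / 2 + t * Complex.I))) * (gw τ H t : ℂ) =
    ∑ i ∈ M, ∑ n ∈ Icc 1 ⌊X⌋₊, ∑ l ∈ Icc 1 ⌊Y⌋₊,
      (c i * ((f n * (Real.sqrt n)⁻¹ : ℝ) : ℂ) * ((g l * (Real.sqrt l)⁻¹ : ℝ) : ℂ)) *
        (ex (ω i - Real.log n + Real.log l) τ * (gq H (ω i - Real.log n + Real.log l) : ℝ)) := by
  have e : (fun t : ℝ => ((∑ i ∈ M, c i * ex (ω i) t) * Dp f X (1 / 2 + t * Complex.I) *
      (starRingEnd ℂ) (Dp g Y (1 / 2 + t * Complex.I))) * (gw τ H t : ℂ)) =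
      fun t : ℝ => ∑ i ∈ M, ∑ n ∈ Icc 1 ⌊X⌋₊, ∑ l ∈ Icc 1 ⌊Y⌋₊,
      (c i * ((f n * (Real.sqrt n)⁻¹ : ℝ) : ℂ) * ((g l * (Real.sqrt l)⁻¹ : ℝ) : ℂ)) *
        (ex (ω i - Real.log n + Real.log l) t * (gw τ H t : ℂ)) := by
    funext t
    rw [Dp_line, Dp_line_conj, sum_mul_sum, sum_mul, sum_mul]
    refine sum_congr rfl fun i _ => ?_
    rw [sum_mul, sum_mul]
    refine sum_congr rfl fun n _ => ?_
    rw [mul_sum, sum_mul]
    refine sum_congr rfl fun l _ => ?_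
    rw [show ω i - Real.log n + Real.log l = (ω i + -Real.log n) + Real.log l by ring, ex_add,
      ex_add]
    ring
  constructor
  · rw [e]
    exact integrable_finsetSum _ fun i _ => integrable_finsetSum _ fun n _ =>
      integrable_finsetSum _ fun l _ => gex_int τ H hH _ _
  · rw [e, integral_finsetSum _ fun i _ => integrable_finsetSum _ fun n _ =>
      integrable_finsetSum _ fun l _ => gex_int τ H hH _ _]
    refine sum_congr rfl fun i _ => ?_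
    rw [integral_finsetSum _ fun n _ => integrable_finsetSum _ fun l _ => gex_int τ H hH _ _]
    refine sum_congr rfl fun n _ => ?_
    rw [integral_finsetSum _ fun l _ => gex_int τ H hH _ _]
    refine sum_congr rfl fun l _ => ?_
    rw [integral_const_mul, gex τ H hH]
    rfl

/-- one frequency -/
def TT (f g : ℕ → ℝ) (X Y τ H ω : ℝ) : ℂ :=
  ∑ n ∈ Icc 1 ⌊X⌋₊, ∑ l ∈ Icc 1 ⌊Y⌋₊,
      (((f n * (Real.sqrt n)⁻¹ : ℝ) : ℂ) * ((g l * (Real.sqrt l)⁻¹ : ℝ) : ℂ)) *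
        (ex (ω - Real.log n + Real.log l) τ * (gq H (ω - Real.log n + Real.log l) : ℝ))

/-- the near part of one frequency -/
def NN (f g : ℕ → ℝ) (X Y ρ ω : ℝ) : ℝ :=
  ∑ n ∈ Icc 1 ⌊X⌋₊, ∑ l ∈ Icc 1 ⌊Y⌋₊,
    if |ω - Real.log n + Real.log l| < ρ then
      (|f n| * (Real.sqrt n)⁻¹) * (|g l| * (Real.sqrt l)⁻¹) else 0

/-- the `ℓ¹` norm -/
def l1 (f : ℕ → ℝ) (X : ℝ) : ℝ := ∑ n ∈ Icc 1 ⌊X⌋₊, |f n|

lemma l1_nonneg (f : ℕ → ℝ) (X : ℝ) : 0 ≤ l1 f X := sum_nonneg fun _ _ => abs_nonneg _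

lemma inv_sqrt_le_one {n : ℕ} (hn : 1 ≤ n) : (Real.sqrt n)⁻¹ ≤ 1 := by
  have h1 : 1 ≤ Real.sqrt n := by
    rw [Real.one_le_sqrt]; exact_mod_cast hn
  exact inv_le_one_of_one_le₀ h1

lemma gq_far (H q ρ : ℝ) (hρ : 0 ≤ ρ) (h : ρ ≤ |q|) : gq H q ≤ gq H ρ := by
  unfold gq
  apply Real.exp_le_exp.mpr
  have : ρ ^ 2 ≤ q ^ 2 := by
    rw [← sq_abs q]
    exact pow_le_pow_left₀ hρ h 2
  have : 0 ≤ H ^ 2 := by positivity
  nlinarith

lemma TT_le (f g : ℕ → ℝ) (X Y τ H ρ ω : ℝ) (hρ : 0 ≤ ρ) :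
    ‖TT f g X Y τ H ω‖ ≤ NN f g X Y ρ ω + l1 f X * l1 g Y * gq H ρ := by
  unfold TT NN l1
  rw [sum_mul_sum, sum_mul, ← sum_add_distrib]
  refine norm_sum_le_of_le _ fun n hn => ?_
  rw [sum_mul, ← sum_add_distrib]
  refine norm_sum_le_of_le _ fun l hl => ?_
  rw [mem_Icc] at hn hl
  set q := ω - Real.log n + Real.log l with hq
  have h1 : ‖(((f n * (Real.sqrt n)⁻¹ : ℝ) : ℂ) * ((g l * (Real.sqrt l)⁻¹ : ℝ) : ℂ)) *
        (ex q τ * (gq H q : ℝ))‖ = (|f n| * (Real.sqrt n)⁻¹) * (|g l| * (Real.sqrt l)⁻¹) * gq H q := by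
    rw [norm_mul, norm_mul, norm_mul, ex_norm, one_mul, Complex.norm_real, Complex.norm_real,
      Complex.norm_real, Real.norm_eq_abs, Real.norm_eq_abs, Real.norm_eq_abs, abs_mul, abs_mul,
      abs_inv, abs_inv, abs_of_nonneg (Real.sqrt_nonneg _), abs_of_nonneg (Real.sqrt_nonneg _),
      abs_of_nonneg (gq_nonneg _ _)]
  rw [h1]
  have h2 : 0 ≤ (|f n| * (Real.sqrt n)⁻¹) * (|g l| * (Real.sqrt l)⁻¹) := by positivity
  have h3 : (|f n| * (Real.sqrt n)⁻¹) * (|g l| * (Real.sqrt l)⁻¹) ≤ |f n| * |g l| := by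
    have a1 := inv_sqrt_le_one hn.1
    have a2 := inv_sqrt_le_one hl.1
    calc _ ≤ (|f n| * 1) * (|g l| * 1) := by gcongr
      _ = _ := by ring
  split_ifs with h
  · have h4 := gq_le_one H q
    have h5 := gq_nonneg H ρ
    have h6 : 0 ≤ |f n| * |g l| * gq H ρ := by positivity
    nlinarith
  · rw [zero_add]
    have h4 := gq_far H q ρ hρ (not_lt.mp h)
    have h5 := gq_nonneg H q
    calc _ ≤ |f n| * |g l| * gq H ρ := by gcongr

/-- distinct naturals have distinct logarithms -/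
lemma log_gap {u v : ℕ} (hu : 1 ≤ u) (hv : 1 ≤ v) (h : u ≠ v) (B : ℝ) (hB : (u:ℝ) ≤ B)
    (hB' : (v:ℝ) ≤ B) : 1 / B ≤ |Real.log u - Real.log v| := by
  have key : ∀ a b : ℕ, 1 ≤ a → a < b → (b:ℝ) ≤ B → 1 / B ≤ Real.log b - Real.log a := by
    intro a b ha hab hbB
    have ha0 : (0:ℝ) < a := by exact_mod_cast ha
    have hb0 : (0:ℝ) < b := by exact_mod_cast (by omega : 0 < b)
    have h1 : (a:ℝ) + 1 ≤ b := by exact_mod_cast hab
    have h2 : 1 - ((b:ℝ) / a)⁻¹ ≤ Real.log ((b:ℝ) / a) := Real.one_sub_inv_le_log_of_pos (by positivity)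
    rw [inv_div, Real.log_div hb0.ne' ha0.ne'] at h2
    have h3 : 1 / B ≤ 1 - (a:ℝ) / b := by
      have : 1 - (a:ℝ) / b = (b - a) / b := by field_simp
      rw [this]
      calc 1 / B ≤ 1 / b := one_div_le_one_div_of_le hb0 hbB
        _ ≤ (b - a) / b := by gcongr; linarith
    linarith
  rcases lt_or_gt_of_ne h with h1 | h1
  · have := key u v hu h1 hB'
    rw [abs_sub_comm]
    exact this.trans (le_abs_self _)
  · exact (key v u hv h1 hB).trans (le_abs_self _)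

/-- coincidences: all near pairs have the same ratio -/
theorem near_bound (κ : ℝ) (hκ : 0 ≤ κ) (hsub : ∀ a b : ℕ, dv κ (a * b) ≤ dv κ a * dv κ b)
    (P : ℕ) (f g : ℕ → ℝ) (X Y Z ρ ω Γ : ℝ) (hY : 1 ≤ Y) (hρ1 : ρ ≤ 1)
    (hZ : Y * Real.exp (|ω| + 1) ≤ Z) (hρ2 : 2 * ρ ≤ 1 / (Z * Y))
    (hf : ∀ n : ℕ, (n:ℝ) ≤ Z → |f n| ≤ dv κ n ∧ (f n ≠ 0 → n.Coprime P))
    (hg : ∀ l : ℕ, |g l| ≤ dv κ l ∧ (g l ≠ 0 → l.Coprime P))
    (hΓ0 : 0 ≤ Γ)
    (hΓ : ∀ a b : ℕ, 1 ≤ a → 1 ≤ b → a.Coprime b → a.Coprime P → b.Coprime P →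
      |ω - Real.log a + Real.log b| < ρ →
      dv κ a * dv κ b * (Real.sqrt a)⁻¹ * (Real.sqrt b)⁻¹ ≤ Γ) :
    NN f g X Y ρ ω ≤ Γ * ∑ v ∈ Icc 1 ⌊Y⌋₊, dv κ v ^ 2 / v := by
  have hU0 : 0 ≤ ∑ v ∈ Icc 1 ⌊Y⌋₊, dv κ v ^ 2 / v := sum_nonneg fun v _ => by positivity
  unfold NN
  rw [← sum_product']
  set S := ((Icc 1 ⌊X⌋₊) ×ˢ (Icc 1 ⌊Y⌋₊)).filter (fun p : ℕ × ℕ =>
    |ω - Real.log p.1 + Real.log p.2| < ρ ∧ f p.1 ≠ 0 ∧ g p.2 ≠ 0) with hS
  have hmemS : ∀ p ∈ S, 1 ≤ p.1 ∧ 1 ≤ p.2 ∧ (p.2:ℝ) ≤ Y ∧ |ω - Real.log p.1 + Real.log p.2| < ρ ∧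
      f p.1 ≠ 0 ∧ g p.2 ≠ 0 ∧ (p.1:ℝ) ≤ Z := by
    intro p hp
    rw [hS, mem_filter, mem_product, mem_Icc, mem_Icc] at hp
    obtain ⟨⟨h1, h2⟩, h3, h4, h5⟩ := hp
    have hpY : (p.2:ℝ) ≤ Y := (Nat.cast_le.mpr h2.2).trans (Nat.floor_le (by linarith))
    refine ⟨h1.1, h2.1, hpY, h3, h4, h5, ?_⟩
    have hp1 : (0:ℝ) < p.1 := by exact_mod_cast h1.1
    have hp2 : (0:ℝ) < p.2 := by exact_mod_cast h2.1
    rw [abs_lt] at h3
    have h6 : Real.log p.1 ≤ Real.log p.2 + (|ω| + 1) := by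
      have := le_abs_self ω
      linarith
    have h7 : (p.1:ℝ) ≤ p.2 * Real.exp (|ω| + 1) := by
      rw [← Real.log_le_log_iff hp1 (by positivity), Real.log_mul hp2.ne' (Real.exp_ne_zero _),
        Real.log_exp]
      exact h6
    calc (p.1:ℝ) ≤ p.2 * Real.exp (|ω| + 1) := h7
      _ ≤ Y * Real.exp (|ω| + 1) := by gcongr
      _ ≤ Z := hZ
  have e1 : ∑ p ∈ (Icc 1 ⌊X⌋₊) ×ˢ (Icc 1 ⌊Y⌋₊), (if |ω - Real.log p.1 + Real.log p.2| < ρ then
      (|f p.1| * (Real.sqrt p.1)⁻¹) * (|g p.2| * (Real.sqrt p.2)⁻¹) else 0) =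
      ∑ p ∈ S, (|f p.1| * (Real.sqrt p.1)⁻¹) * (|g p.2| * (Real.sqrt p.2)⁻¹) := by
    rw [hS, sum_filter]
    refine sum_congr rfl fun p _ => ?_
    by_cases h1 : |ω - Real.log p.1 + Real.log p.2| < ρ
    · by_cases h2 : f p.1 = 0
      · simp [h2]
      · by_cases h3 : g p.2 = 0
        · simp [h3]
        · rw [if_pos h1, if_pos ⟨h1, h2, h3⟩]
    · rw [if_neg h1, if_neg (fun h => h1 h.1)]
  rw [e1]
  rcases S.eq_empty_or_nonempty with h0 | ⟨p0, hp0⟩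
  · rw [h0, sum_empty]; positivity
  obtain ⟨a1, a2, a3, a4, a5, a6, a7⟩ := hmemS p0 hp0
  -- the reduced ratio
  set d := Nat.gcd p0.1 p0.2 with hd
  have hd0 : 0 < d := Nat.gcd_pos_of_pos_left _ (by omega)
  set a := p0.1 / d with ha
  set b := p0.2 / d with hb
  have hda : p0.1 = d * a := (Nat.mul_div_cancel' (Nat.gcd_dvd_left _ _)).symm
  have hdb : p0.2 = d * b := (Nat.mul_div_cancel' (Nat.gcd_dvd_right _ _)).symm
  have hab : a.Coprime b := Nat.coprime_div_gcd_div_gcd hd0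
  have ha0 : 1 ≤ a := by
    rcases Nat.eq_zero_or_pos a with h | h
    · rw [h] at hda; omega
    · exact h
  have hb0 : 1 ≤ b := by
    rcases Nat.eq_zero_or_pos b with h | h
    · rw [h] at hdb; omega
    · exact h
  have haP : a.Coprime P := by
    have := (hf p0.1 a7).2 a5
    rw [hda] at this
    exact Nat.Coprime.coprime_dvd_left (Dvd.intro_left d rfl) this
  have hbP : b.Coprime P := by
    have := (hg p0.2).2 a6
    rw [hdb] at this
    exact Nat.Coprime.coprime_dvd_left (Dvd.intro_left d rfl) this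
  have hnear : |ω - Real.log a + Real.log b| < ρ := by
    have e2 : ω - Real.log a + Real.log b = ω - Real.log p0.1 + Real.log p0.2 := by
      rw [hda, hdb]
      push_cast
      have hd' : (d:ℝ) ≠ 0 := by exact_mod_cast hd0.ne'
      have ha' : (a:ℝ) ≠ 0 := by exact_mod_cast (by omega : a ≠ 0)
      have hb' : (b:ℝ) ≠ 0 := by exact_mod_cast (by omega : b ≠ 0)
      rw [Real.log_mul hd' ha', Real.log_mul hd' hb']
      ring
    rw [e2]
    exact a4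
  have hG := hΓ a b ha0 hb0 hab haP hbP hnear
  -- every near pair is a multiple
  have hmult : ∀ p ∈ S, ∃ v : ℕ, 1 ≤ v ∧ p.1 = a * v ∧ p.2 = b * v := by
    intro p hp
    obtain ⟨b1, b2, b3, b4, b5, b6, b7⟩ := hmemS p hp
    have heq : p.1 * p0.2 = p0.1 * p.2 := by
      by_contra hne
      have hz0 : 0 < Z := by
        have : (0:ℝ) < p.1 := by exact_mod_cast b1
        linarith
      have g1 := log_gap (u := p.1 * p0.2) (v := p0.1 * p.2) (Nat.mul_pos b1 a2) (Nat.mul_pos a1 b2) hne (Z * Y)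
        (by push_cast; gcongr) (by push_cast; gcongr)
      have : (0:ℝ) < p.1 := by exact_mod_cast b1
      have : (0:ℝ) < p.2 := by exact_mod_cast b2
      have : (0:ℝ) < p0.1 := by exact_mod_cast a1
      have : (0:ℝ) < p0.2 := by exact_mod_cast a2
      push_cast at g1
      rw [Real.log_mul (by positivity) (by positivity), Real.log_mul (by positivity) (by positivity)] at g1
      have g2 : |Real.log p.1 + Real.log p0.2 - (Real.log p0.1 + Real.log p.2)| < 2 * ρ := by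
        rw [abs_lt] at a4 b4 ⊢
        constructor <;> linarith
      linarith
    have h1 : p.1 * b = a * p.2 := by
      rw [hda, hdb] at heq
      have : d * (p.1 * b) = d * (a * p.2) := by
        calc d * (p.1 * b) = p.1 * (d * b) := by ring
          _ = d * a * p.2 := heq
          _ = d * (a * p.2) := by ring
      exact Nat.eq_of_mul_eq_mul_left hd0 this
    have h2 : a ∣ p.1 := by
      have : a ∣ p.1 * b := ⟨p.2, h1⟩
      exact hab.dvd_of_dvd_mul_right this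
    obtain ⟨v, hv⟩ := h2
    refine ⟨v, ?_, hv, ?_⟩
    · rcases Nat.eq_zero_or_pos v with h | h
      · rw [h] at hv; omega
      · exact h
    · rw [hv] at h1
      have : a * p.2 = a * (b * v) := by rw [← h1]; ring
      exact Nat.eq_of_mul_eq_mul_left (by omega) this
  -- bound termwise
  have hterm : ∀ p ∈ S, (|f p.1| * (Real.sqrt p.1)⁻¹) * (|g p.2| * (Real.sqrt p.2)⁻¹) ≤
      Γ * (dv κ (p.2 / b) ^ 2 / ((p.2 / b : ℕ) : ℝ)) := by
    intro p hp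
    obtain ⟨b1, b2, b3, b4, b5, b6, b7⟩ := hmemS p hp
    obtain ⟨v, hv0, hv1, hv2⟩ := hmult p hp
    have e3 : p.2 / b = v := by
      rw [hv2]; exact Nat.mul_div_cancel_left v (by omega)
    rw [e3]
    have f1 : |f p.1| ≤ dv κ a * dv κ v := by
      refine ((hf p.1 b7).1).trans ?_
      rw [hv1]
      exact hsub a v
    have f2 : |g p.2| ≤ dv κ b * dv κ v := by
      refine ((hg p.2).1).trans ?_
      rw [hv2]
      exact hsub b v
    have hv' : (0:ℝ) < v := by exact_mod_cast hv0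
    have s1 : (Real.sqrt p.1)⁻¹ = (Real.sqrt a)⁻¹ * (Real.sqrt v)⁻¹ := by
      rw [hv1]; push_cast
      rw [Real.sqrt_mul (by positivity), mul_inv]
    have s2 : (Real.sqrt p.2)⁻¹ = (Real.sqrt b)⁻¹ * (Real.sqrt v)⁻¹ := by
      rw [hv2]; push_cast
      rw [Real.sqrt_mul (by positivity), mul_inv]
    have s3 : (Real.sqrt v)⁻¹ * (Real.sqrt v)⁻¹ = 1 / (v:ℝ) := by
      rw [← mul_inv, Real.mul_self_sqrt hv'.le, one_div]
    rw [s1, s2]
    have k1 := dv_nonneg hκ a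
    have k2 := dv_nonneg hκ b
    have k3 := dv_nonneg hκ v
    calc (|f p.1| * ((Real.sqrt a)⁻¹ * (Real.sqrt v)⁻¹)) * (|g p.2| * ((Real.sqrt b)⁻¹ * (Real.sqrt v)⁻¹))
        ≤ ((dv κ a * dv κ v) * ((Real.sqrt a)⁻¹ * (Real.sqrt v)⁻¹)) *
          ((dv κ b * dv κ v) * ((Real.sqrt b)⁻¹ * (Real.sqrt v)⁻¹)) := by gcongr
      _ = (dv κ a * dv κ b * (Real.sqrt a)⁻¹ * (Real.sqrt b)⁻¹) *
          (dv κ v ^ 2 * ((Real.sqrt v)⁻¹ * (Real.sqrt v)⁻¹)) := by ring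
      _ = (dv κ a * dv κ b * (Real.sqrt a)⁻¹ * (Real.sqrt b)⁻¹) * (dv κ v ^ 2 / v) := by
          rw [s3]; ring
      _ ≤ Γ * (dv κ v ^ 2 / v) := by gcongr
  refine (sum_le_sum hterm).trans ?_
  rw [← mul_sum]
  refine mul_le_mul_of_nonneg_left ?_ hΓ0
  have hinj : Set.InjOn (fun p : ℕ × ℕ => p.2 / b) (S : Set (ℕ × ℕ)) := by
    intro p hp q hq hpq
    obtain ⟨v, hv0, hv1, hv2⟩ := hmult p hp
    obtain ⟨w, hw0, hw1, hw2⟩ := hmult q hq
    have e3 : p.2 / b = v := by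
      rw [hv2]; exact Nat.mul_div_cancel_left v (by omega)
    have e4 : q.2 / b = w := by
      rw [hw2]; exact Nat.mul_div_cancel_left w (by omega)
    simp only [e3, e4] at hpq
    ext
    · rw [hv1, hw1, hpq]
    · rw [hv2, hw2, hpq]
  rw [← sum_image (f := fun v : ℕ => dv κ v ^ 2 / (v:ℝ)) hinj]
  refine sum_le_sum_of_subset_of_nonneg ?_ fun v _ _ => by positivity
  intro v hv
  rw [mem_image] at hv
  obtain ⟨p, hp, rfl⟩ := hv
  obtain ⟨v, hv0, hv1, hv2⟩ := hmult p hp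
  obtain ⟨b1, b2, b3, b4, b5, b6, b7⟩ := hmemS p hp
  have e3 : p.2 / b = v := by
    rw [hv2]; exact Nat.mul_div_cancel_left v (by omega)
  rw [e3, mem_Icc]
  refine ⟨hv0, ?_⟩
  apply Nat.le_floor
  refine le_trans ?_ b3
  have : v ≤ p.2 := by rw [hv2]; exact Nat.le_mul_of_pos_left v hb0
  exact_mod_cast this

/-- the frequency zero -/
theorem zero_freq (f g : ℕ → ℝ) (X Y Z ρ τ H : ℝ) (hY : 1 ≤ Y) (hYX : Y ≤ X) (hρ : 0 ≤ ρ)
    (hρ1 : ρ ≤ 1) (hZ : Y * Real.exp 1 ≤ Z) (hρ2 : ρ ≤ 1 / Z) :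
    ‖TT f g X Y τ H 0 - ((∑ n ∈ Icc 1 ⌊Y⌋₊, f n * g n / n : ℝ) : ℂ)‖ ≤
      l1 f X * l1 g Y * gq H ρ := by
  have e0 : ((∑ n ∈ Icc 1 ⌊Y⌋₊, f n * g n / n : ℝ) : ℂ) =
      ∑ n ∈ Icc 1 ⌊X⌋₊, ∑ l ∈ Icc 1 ⌊Y⌋₊, if n = l then ((f n * g n / n : ℝ) : ℂ) else 0 := by
    push_cast
    rw [sum_comm]
    refine sum_congr rfl fun l hl => ?_
    rw [sum_ite_eq' (Icc 1 ⌊X⌋₊) l (fun n => ((f n : ℂ) * (g n : ℂ) / (n : ℂ)))]
    rw [mem_Icc] at hl
    rw [if_pos (mem_Icc.mpr ⟨hl.1, hl.2.trans (Nat.floor_le_floor hYX)⟩)]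
  rw [e0]
  unfold TT
  rw [← sum_sub_distrib]
  simp only [← sum_sub_distrib]
  unfold l1
  rw [sum_mul_sum, sum_mul]
  refine norm_sum_le_of_le _ fun n hn => ?_
  rw [sum_mul]
  refine norm_sum_le_of_le _ fun l hl => ?_
  rw [mem_Icc] at hn hl
  have hn0 : (0:ℝ) < n := by exact_mod_cast hn.1
  have hl0 : (0:ℝ) < l := by exact_mod_cast hl.1
  by_cases h : n = l
  · subst h
    rw [if_pos rfl]
    have e1 : (0:ℝ) - Real.log n + Real.log n = 0 := by ring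
    rw [e1]
    have e2 : ex 0 τ = 1 := by unfold ex; simp
    have e3 : gq H 0 = 1 := by unfold gq; simp
    have e4 : ((f n * g n / n : ℝ) : ℂ) = (((f n * (Real.sqrt n)⁻¹ : ℝ) : ℂ) * ((g n * (Real.sqrt n)⁻¹ : ℝ) : ℂ)) := by
      rw [← Complex.ofReal_mul]
      congr 1
      have s3 : (Real.sqrt n)⁻¹ * (Real.sqrt n)⁻¹ = 1 / (n:ℝ) := by
        rw [← mul_inv, Real.mul_self_sqrt hn0.le, one_div]
      calc f n * g n / n = f n * g n * (1 / (n:ℝ)) := by ring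
        _ = f n * g n * ((Real.sqrt n)⁻¹ * (Real.sqrt n)⁻¹) := by rw [s3]
        _ = _ := by ring
    rw [e2, e3, e4]
    simp only [Complex.ofReal_one, mul_one, sub_self, norm_zero]
    have := gq_nonneg H ρ
    positivity
  · rw [if_neg h, sub_zero]
    have hlY : (l:ℝ) ≤ Y := (Nat.cast_le.mpr hl.2).trans (Nat.floor_le (by linarith))
    have hfar : ρ ≤ |0 - Real.log n + Real.log l| := by
      by_cases hnZ : (n:ℝ) ≤ Z
      · have hlZ : (l:ℝ) ≤ Z := by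
          refine hlY.trans (le_trans ?_ hZ)
          have : 1 ≤ Real.exp 1 := Real.one_le_exp (by norm_num)
          nlinarith
        have g1 := log_gap hl.1 hn.1 (Ne.symm h) Z hlZ hnZ
        rw [show (0:ℝ) - Real.log n + Real.log l = Real.log l - Real.log n by ring]
        exact hρ2.trans g1
      · rw [not_le] at hnZ
        have h3 : Real.log l + 1 ≤ Real.log n := by
          rw [← Real.log_exp 1, ← Real.log_mul hl0.ne' (Real.exp_ne_zero _)]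
          apply Real.log_le_log (by positivity)
          have : l * Real.exp 1 ≤ Y * Real.exp 1 := by gcongr
          linarith
        rw [abs_of_nonpos (by linarith)]
        linarith
    rw [norm_mul, norm_mul, norm_mul, ex_norm, one_mul, Complex.norm_real, Complex.norm_real,
      Complex.norm_real, Real.norm_eq_abs, Real.norm_eq_abs, Real.norm_eq_abs, abs_mul, abs_mul,
      abs_inv, abs_inv, abs_of_nonneg (Real.sqrt_nonneg _), abs_of_nonneg (Real.sqrt_nonneg _),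
      abs_of_nonneg (gq_nonneg _ _)]
    have a1 := inv_sqrt_le_one hn.1
    have a2 := inv_sqrt_le_one hl.1
    have h4 := gq_far H _ ρ hρ hfar
    have h5 := gq_nonneg H (0 - Real.log n + Real.log l)
    calc _ ≤ (|f n| * 1) * (|g l| * 1) * gq H ρ := by gcongr
      _ = _ := by ring

end

end Pool.Agent.R311.BS
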