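import Pool.Agent.R311.BS.K
import Pool.Agent.R311.BS.M
import Pool.Agent.R311.BS.A2

set_option autoImplicit false

/-! Mean values with Bohr weights. -/

namespace Pool.Agent.R311.BS

open Finset MeasureTheory Filter Topology
open Pool.Agent.H306R2

noncomputable section

variable {r : ℕ}

/-- the frequency `2π m·β` -/
def th (β : Fin r → ℝ) (m : Fin r → ℤ) : ℝ := 2 * Real.pi * ∑ j, m j * β j

/-- box of frequencies -/
def bx (r D : ℕ) : Finset (Fin r → ℤ) := Fintype.piFinset fun _ => Icc (-(D:ℤ)) D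

/-- the Bohr weight -/
def Wf (β φ : Fin r → ℝ) (D : ℕ) (δ t : ℝ) : ℝ := ∏ j, FD D δ (β j * t - φ j)

/-- its coefficients -/
def Cm (D : ℕ) (δ : ℝ) (m : Fin r → ℤ) : ℝ := ∏ j, cD D δ (m j)

/-- coefficients with phases -/
def Cp (φ : Fin r → ℝ) (D : ℕ) (δ : ℝ) (m : Fin r → ℤ) : ℂ := (Cm D δ m : ℂ) * ee (-∑ j, m j * φ j)

lemma ee_sum {ι : Type*} (s : Finset ι) (x : ι → ℝ) : ee (∑ j ∈ s, x j) = ∏ j ∈ s, ee (x j) := by
  classical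
  induction s using Finset.induction_on with
  | empty => simp [ee]
  | insert a s ha ih => rw [sum_insert ha, prod_insert ha, ee_add, ih]

lemma Wf_eq (β φ : Fin r → ℝ) (D : ℕ) (δ t : ℝ) :
    (Wf β φ D δ t : ℂ) = ∑ m ∈ bx r D, Cp φ D δ m * ex (th β m) t := by
  unfold Wf
  push_cast
  simp only [FD_eq]
  rw [prod_univ_sum]
  unfold bx
  refine sum_congr rfl fun m _ => ?_
  rw [prod_mul_distrib, ← ee_sum]
  unfold Cp Cm
  rw [mul_assoc]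
  push_cast
  congr 1
  have : ex (th β m) t = ee (∑ j, m j * (β j * t)) := by
    unfold ex th ee
    congr 2
    rw [mul_sum, mul_sum, sum_mul]
    push_cast
    refine sum_congr rfl fun j _ => ?_
    ring
  rw [this, ← ee_add, neg_add_eq_sub, ← sum_sub_distrib]
  congr 1
  refine sum_congr rfl fun j _ => ?_
  ring

lemma Wf_cont (β φ : Fin r → ℝ) (D : ℕ) (δ : ℝ) : Continuous (Wf β φ D δ) := by
  unfold Wf
  exact continuous_finsetProd _ fun j _ => (FD_cont D δ).comp (by fun_prop)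

lemma Wf_nonneg (β φ : Fin r → ℝ) (D : ℕ) {δ : ℝ} (hδ : 0 ≤ δ) (t : ℝ) : 0 ≤ Wf β φ D δ t :=
  prod_nonneg fun j _ => FD_nonneg _ _ _ hδ

lemma Wf_le (β φ : Fin r → ℝ) (D : ℕ) {δ : ℝ} (hδ : 0 ≤ δ) (hδ1 : δ ≤ 1) (t : ℝ) :
    Wf β φ D δ t ≤ Lam ^ r := by
  unfold Wf
  calc ∏ j, FD D δ (β j * t - φ j) ≤ ∏ _j : Fin r, Lam :=
        prod_le_prod (fun j _ => FD_nonneg _ _ _ hδ) fun j _ => FD_le _ _ _ hδ hδ1
    _ = Lam ^ r := by simp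

/-- the Bohr weight is tiny outside the Bohr set -/
lemma Wf_tail (β φ : Fin r → ℝ) (D : ℕ) (hD : 0 < D) {δ : ℝ} (hδ : 0 ≤ δ) (hδ1 : δ ≤ 1 / 4) (t : ℝ)
    (ht : ∃ j, ∀ n : ℤ, 2 * δ ≤ |β j * t - φ j - n|) :
    Wf β φ D δ t ≤ Lam ^ r * (2 * D * Real.cos (Real.pi * δ) ^ (2 * D)) := by
  obtain ⟨j, hj⟩ := ht
  unfold Wf
  have hL := Lam_ge_one
  have h1 : ∏ i ∈ univ.erase j, FD D δ (β i * t - φ i) ≤ Lam ^ r := by
    calc ∏ i ∈ univ.erase j, FD D δ (β i * t - φ i) ≤ ∏ _i ∈ univ.erase j, Lam :=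
          prod_le_prod (fun i _ => FD_nonneg _ _ _ hδ) fun i _ => FD_le _ _ _ hδ (by linarith)
      _ = Lam ^ (univ.erase j).card := by rw [prod_const]
      _ ≤ Lam ^ r := by
          refine pow_le_pow_right₀ hL ?_
          have := card_le_univ (univ.erase j)
          simpa using this
  rw [← prod_erase_mul univ _ (mem_univ j)]
  have h2 := FD_tail D hD δ (β j * t - φ j) hδ hδ1 hj
  have h3 := FD_nonneg D δ (β j * t - φ j) hδ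
  exact mul_le_mul h1 h2 h3 (by positivity)

lemma Cm_nonneg (D : ℕ) (δ : ℝ) (m : Fin r → ℤ) : 0 ≤ Cm D δ m := prod_nonneg fun j _ => cD_nonneg _ _ _

lemma Cm_le (D : ℕ) {δ : ℝ} (hδ : 0 ≤ δ) (hδ1 : δ ≤ 1) (m : Fin r → ℤ) :
    Cm D δ m ≤ ∏ j, lam (m j) :=
  prod_le_prod (fun j _ => cD_nonneg _ _ _) fun j _ => cD_le D δ hδ hδ1 _

lemma Cm_zero (D : ℕ) (δ : ℝ) : Cm D δ (0 : Fin r → ℤ) = (δ ^ 2) ^ r := by
  unfold Cm
  simp [cD_zero]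

lemma Cp_norm (φ : Fin r → ℝ) (D : ℕ) (δ : ℝ) (m : Fin r → ℤ) : ‖Cp φ D δ m‖ = Cm D δ m := by
  unfold Cp
  rw [norm_mul, ee_norm, mul_one, Complex.norm_real, Real.norm_of_nonneg (Cm_nonneg _ _ _)]

lemma sum_box_lam (D : ℕ) : ∑ m ∈ bx r D, ∏ j, lam (m j) = (∑ m ∈ Icc (-(D:ℤ)) D, lam m) ^ r := by
  unfold bx
  rw [← prod_univ_sum]
  simp

lemma sum_box_le (D : ℕ) : ∑ m ∈ bx r D, ∏ j, lam (m j) ≤ Lam ^ r := by
  rw [sum_box_lam]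
  exact pow_le_pow_left₀ (sum_nonneg fun m _ => lam_nonneg m) (sum_lam_le _) r

lemma sum_Cm_le (D : ℕ) {δ : ℝ} (hδ : 0 ≤ δ) (hδ1 : δ ≤ 1) : ∑ m ∈ bx r D, Cm D δ m ≤ Lam ^ r :=
  (sum_le_sum fun m _ => Cm_le D hδ hδ1 m).trans (sum_box_le D)

lemma zero_mem_bx (D : ℕ) : (0 : Fin r → ℤ) ∈ bx r D := by
  unfold bx
  rw [Fintype.mem_piFinset]
  intro j
  rw [mem_Icc]
  simp

lemma th_zero (β : Fin r → ℝ) : th β 0 = 0 := by
  unfold th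
  simp

lemma th_bound (β : Fin r → ℝ) (D : ℕ) (m : Fin r → ℤ) (hm : m ∈ bx r D) :
    |th β m| ≤ D * (2 * Real.pi * ∑ j, |β j|) := by
  unfold th
  unfold bx at hm
  rw [Fintype.mem_piFinset] at hm
  rw [abs_mul, abs_of_pos (by positivity : (0:ℝ) < 2 * Real.pi)]
  have h1 : |∑ j, (m j : ℝ) * β j| ≤ ∑ j, (D:ℝ) * |β j| := by
    refine (abs_sum_le_sum_abs _ _).trans (sum_le_sum fun j _ => ?_)
    rw [abs_mul]
    have := hm j
    rw [mem_Icc] at this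
    have h2 : |(m j : ℝ)| ≤ D := by
      rw [abs_le]
      constructor
      · exact_mod_cast this.1
      · exact_mod_cast this.2
    gcongr
  rw [← mul_sum] at h1
  calc 2 * Real.pi * |∑ j, (m j : ℝ) * β j| ≤ 2 * Real.pi * (D * ∑ j, |β j|) := by gcongr
    _ = _ := by ring

/-- mean value with Bohr weight -/
theorem bohr_mean (β φ : Fin r → ℝ) (D : ℕ) {δ : ℝ} (hδ : 0 ≤ δ) (hδ1 : δ ≤ 1)
    {κ : ℝ} (hκ : 1 ≤ κ) (P : ℕ) (f g : ℕ → ℝ) (X Y Z ρ τ H : ℝ) (hH : 0 < H) (hY : 1 ≤ Y)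
    (hYX : Y ≤ X) (hρ : 0 ≤ ρ) (hρ1 : ρ ≤ 1)
    (hZ : Y * Real.exp (D * (2 * Real.pi * ∑ j, |β j|) + 1) ≤ Z) (hρ2 : 2 * ρ ≤ 1 / (Z * Y))
    (hf : ∀ n : ℕ, (n:ℝ) ≤ Z → |f n| ≤ dv κ n ∧ (f n ≠ 0 → n.Coprime P))
    (hg : ∀ l : ℕ, |g l| ≤ dv κ l ∧ (g l ≠ 0 → l.Coprime P))
    (Γ : (Fin r → ℤ) → ℝ) (hΓ0 : ∀ m, 0 ≤ Γ m)
    (hΓ : ∀ m ∈ bx r D, m ≠ 0 → ∀ a b : ℕ, 1 ≤ a → 1 ≤ b → a.Coprime b → a.Coprime P → b.Coprime P →
      |th β m - Real.log a + Real.log b| < ρ →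
      dv κ a * dv κ b * (Real.sqrt a)⁻¹ * (Real.sqrt b)⁻¹ ≤ Γ m) :
    ‖(∫ t : ℝ, (((Wf β φ D δ t : ℝ) : ℂ) * Dp f X (1 / 2 + t * Complex.I) *
      (starRingEnd ℂ) (Dp g Y (1 / 2 + t * Complex.I))) * (gw τ H t : ℂ)) -
      (((δ ^ 2) ^ r * ∑ n ∈ Icc 1 ⌊Y⌋₊, f n * g n / n : ℝ) : ℂ)‖ ≤
      (∑ m ∈ (bx r D).erase 0, Cm D δ m * Γ m) * (∑ v ∈ Icc 1 ⌊Y⌋₊, dv κ v ^ 2 / v) +
        Lam ^ r * (l1 f X * l1 g Y * gq H ρ) := by
  have hκ0 : 0 ≤ κ := by linarith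
  have hS0 : 0 ≤ ∑ j, |β j| := sum_nonneg fun j _ => abs_nonneg _
  have hZpos : 0 < Z := lt_of_lt_of_le (by positivity) hZ
  have hE := (expansion (bx r D) (Cp φ D δ) (th β) f g X Y τ H hH).2
  simp only [← Wf_eq] at hE
  rw [hE]
  have e1 : ∑ m ∈ bx r D, ∑ n ∈ Icc 1 ⌊X⌋₊, ∑ l ∈ Icc 1 ⌊Y⌋₊,
      (Cp φ D δ m * ((f n * (Real.sqrt n)⁻¹ : ℝ) : ℂ) * ((g l * (Real.sqrt l)⁻¹ : ℝ) : ℂ)) *
        (ex (th β m - Real.log n + Real.log l) τ * (gq H (th β m - Real.log n + Real.log l) : ℝ)) =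
      ∑ m ∈ bx r D, Cp φ D δ m * TT f g X Y τ H (th β m) := by
    refine sum_congr rfl fun m _ => ?_
    unfold TT
    rw [mul_sum]
    refine sum_congr rfl fun n _ => ?_
    rw [mul_sum]
    refine sum_congr rfl fun l _ => ?_
    ring
  rw [e1, ← add_sum_erase _ _ (zero_mem_bx D)]
  have hC0 : Cp φ D δ (0 : Fin r → ℤ) = (((δ ^ 2) ^ r : ℝ) : ℂ) := by
    unfold Cp
    rw [Cm_zero]
    simp [ee]
  rw [hC0, th_zero]
  have hA : 0 ≤ l1 f X * l1 g Y * gq H ρ :=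
    mul_nonneg (mul_nonneg (l1_nonneg _ _) (l1_nonneg _ _)) (gq_nonneg _ _)
  have hY1 : 1 ≤ Z := by
    have h2 : 1 ≤ Real.exp (D * (2 * Real.pi * ∑ j, |β j|) + 1) := Real.one_le_exp (by positivity)
    nlinarith
  have hz := zero_freq f g X Y Z ρ τ H hY hYX hρ hρ1 (by
    refine le_trans ?_ hZ
    gcongr
    have : (0:ℝ) ≤ D * (2 * Real.pi * ∑ j, |β j|) := by positivity
    linarith) (by
    have h1 : 1 / (Z * Y) ≤ 1 / Z := one_div_le_one_div_of_le hZpos (by nlinarith)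
    linarith)
  have hrest : ‖∑ m ∈ (bx r D).erase 0, Cp φ D δ m * TT f g X Y τ H (th β m)‖ ≤
      ∑ m ∈ (bx r D).erase 0, (Cm D δ m * Γ m * (∑ v ∈ Icc 1 ⌊Y⌋₊, dv κ v ^ 2 / v) +
        Cm D δ m * (l1 f X * l1 g Y * gq H ρ)) := by
    refine norm_sum_le_of_le _ fun m hm => ?_
    rw [mem_erase] at hm
    rw [norm_mul, Cp_norm]
    have h1 := TT_le f g X Y τ H ρ (th β m) hρ
    have h2 := near_bound κ hκ0 (dv_submul hκ) P f g X Y Z ρ (th β m) (Γ m) hY hρ1 (by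
      refine le_trans ?_ hZ
      gcongr
      exact th_bound β D m hm.2) hρ2 hf hg (hΓ0 m) (hΓ m hm.2 hm.1)
    have h3 := Cm_nonneg D δ m
    calc Cm D δ m * ‖TT f g X Y τ H (th β m)‖ ≤
        Cm D δ m * (Γ m * (∑ v ∈ Icc 1 ⌊Y⌋₊, dv κ v ^ 2 / v) + l1 f X * l1 g Y * gq H ρ) := by
          gcongr
          linarith
      _ = _ := by ring
  rw [sum_add_distrib, ← sum_mul, ← sum_mul] at hrest
  have hCsum : (δ ^ 2) ^ r + ∑ m ∈ (bx r D).erase 0, Cm D δ m ≤ Lam ^ r := by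
    have h1 := sum_Cm_le (r := r) D hδ hδ1
    rw [← add_sum_erase _ _ (zero_mem_bx D), Cm_zero] at h1
    exact h1
  have e2 : (((δ ^ 2) ^ r : ℝ) : ℂ) * TT f g X Y τ H 0 +
      ∑ m ∈ (bx r D).erase 0, Cp φ D δ m * TT f g X Y τ H (th β m) -
      (((δ ^ 2) ^ r * ∑ n ∈ Icc 1 ⌊Y⌋₊, f n * g n / n : ℝ) : ℂ) =
      (((δ ^ 2) ^ r : ℝ) : ℂ) * (TT f g X Y τ H 0 - ((∑ n ∈ Icc 1 ⌊Y⌋₊, f n * g n / n : ℝ) : ℂ)) +
      ∑ m ∈ (bx r D).erase 0, Cp φ D δ m * TT f g X Y τ H (th β m) := by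
    push_cast
    ring
  rw [e2]
  refine (norm_add_le _ _).trans ?_
  rw [norm_mul, Complex.norm_real, Real.norm_of_nonneg (by positivity)]
  have h5 : (δ ^ 2) ^ r * ‖TT f g X Y τ H 0 - ((∑ n ∈ Icc 1 ⌊Y⌋₊, f n * g n / n : ℝ) : ℂ)‖ ≤
      (δ ^ 2) ^ r * (l1 f X * l1 g Y * gq H ρ) := by gcongr
  have h6 : ((δ ^ 2) ^ r + ∑ m ∈ (bx r D).erase 0, Cm D δ m) * (l1 f X * l1 g Y * gq H ρ) ≤
      Lam ^ r * (l1 f X * l1 g Y * gq H ρ) := mul_le_mul_of_nonneg_right hCsum hA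
  linarith

/-- the weights outside a large box are small -/
theorem tail_small (r : ℕ) (K : ℝ) (hK : 0 ≤ K) (ε : ℝ) (hε : 0 < ε) : ∃ M₀ : ℕ, ∃ ε₁ : ℝ, 0 < ε₁ ∧
    ∀ (D : ℕ) (δ : ℝ), 0 ≤ δ → δ ≤ 1 →
      ∑ m ∈ (bx r D).erase 0, Cm D δ m * (if m ∈ bx r M₀ then ε₁ else K) ≤ ε := by
  have hlim : Tendsto (fun M : ℕ => (∑ m ∈ Icc (-(M:ℤ)) M, lam m) ^ r) atTop (𝓝 (Lam ^ r)) := by
    refine Tendsto.pow ?_ r
    have hmono : Monotone (fun M : ℕ => Icc (-(M:ℤ)) (M:ℤ)) := by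
      intro a b hab
      apply Icc_subset_Icc <;> omega
    have htop : Tendsto (fun M : ℕ => Icc (-(M:ℤ)) (M:ℤ)) atTop atTop :=
      tendsto_atTop_finset_of_monotone hmono fun x => ⟨x.natAbs, by rw [mem_Icc]; omega⟩
    exact lam_summable.hasSum.comp htop
  have hL := Lam_ge_one
  have h1 : ∀ᶠ M : ℕ in atTop, K * (Lam ^ r - (∑ m ∈ Icc (-(M:ℤ)) M, lam m) ^ r) < ε / 2 := by
    have h2 : Tendsto (fun M : ℕ => K * (Lam ^ r - (∑ m ∈ Icc (-(M:ℤ)) M, lam m) ^ r)) atTop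
        (𝓝 (K * (Lam ^ r - Lam ^ r))) := (tendsto_const_nhds.sub hlim).const_mul K
    rw [sub_self, mul_zero] at h2
    exact h2.eventually (gt_mem_nhds (by linarith))
  obtain ⟨M₀, hM₀⟩ := h1.exists
  refine ⟨M₀, ε / (2 * Lam ^ r), by positivity, fun D δ hδ hδ1 => ?_⟩
  have h3 : ∑ m ∈ (bx r D).erase 0, Cm D δ m * (if m ∈ bx r M₀ then ε / (2 * Lam ^ r) else K) ≤
      ∑ m ∈ bx r D, (∏ j, lam (m j)) * (if m ∈ bx r M₀ then ε / (2 * Lam ^ r) else K) := by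
    have h4 : ∀ m : Fin r → ℤ, 0 ≤ (if m ∈ bx r M₀ then ε / (2 * Lam ^ r) else K) := by
      intro m
      split_ifs <;> positivity
    refine (sum_le_sum fun m _ => mul_le_mul_of_nonneg_right (Cm_le D hδ hδ1 m) (h4 m)).trans ?_
    refine sum_le_sum_of_subset_of_nonneg (erase_subset _ _) fun m _ _ => ?_
    exact mul_nonneg (prod_nonneg fun j _ => lam_nonneg _) (h4 m)
  refine h3.trans ?_
  have h5 : ∀ m : Fin r → ℤ, (∏ j, lam (m j)) * (if m ∈ bx r M₀ then ε / (2 * Lam ^ r) else K) ≤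
      (∏ j, lam (m j)) * (ε / (2 * Lam ^ r)) + (if m ∈ bx r M₀ then 0 else (∏ j, lam (m j)) * K) := by
    intro m
    have : 0 ≤ ∏ j, lam (m j) := prod_nonneg fun j _ => lam_nonneg _
    split_ifs
    · linarith
    · have : 0 ≤ (∏ j, lam (m j)) * (ε / (2 * Lam ^ r)) := by positivity
      linarith
  refine (sum_le_sum fun m _ => h5 m).trans ?_
  rw [sum_add_distrib, ← sum_mul]
  have h6 : (∑ m ∈ bx r D, ∏ j, lam (m j)) * (ε / (2 * Lam ^ r)) ≤ ε / 2 := by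
    calc _ ≤ Lam ^ r * (ε / (2 * Lam ^ r)) := by
          gcongr
          exact sum_box_le D
      _ = ε / 2 := by field_simp
  have h7 : ∑ m ∈ bx r D, (if m ∈ bx r M₀ then 0 else (∏ j, lam (m j)) * K) ≤
      K * (Lam ^ r - (∑ m ∈ Icc (-(M₀:ℤ)) M₀, lam m) ^ r) := by
    set D' := max D M₀ with hD'
    have hsub : ∀ a b : ℕ, a ≤ b → bx r a ⊆ bx r b := by
      intro a b hab
      unfold bx
      apply Fintype.piFinset_subset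
      intro j
      apply Icc_subset_Icc <;> omega
    have h8 : ∀ m : Fin r → ℤ, 0 ≤ (if m ∈ bx r M₀ then 0 else (∏ j, lam (m j)) * K) := by
      intro m
      have : 0 ≤ ∏ j, lam (m j) := prod_nonneg fun j _ => lam_nonneg _
      split_ifs <;> positivity
    refine (sum_le_sum_of_subset_of_nonneg (hsub D D' (le_max_left _ _)) fun m _ _ => h8 m).trans ?_
    rw [← sum_sdiff (hsub M₀ D' (le_max_right _ _))]
    have h9 : ∑ m ∈ bx r M₀, (if m ∈ bx r M₀ then 0 else (∏ j, lam (m j)) * K) = 0 :=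
      sum_eq_zero fun m hm => if_pos hm
    have h10 : ∑ m ∈ bx r D' \ bx r M₀, (if m ∈ bx r M₀ then 0 else (∏ j, lam (m j)) * K) =
        (∑ m ∈ bx r D' \ bx r M₀, ∏ j, lam (m j)) * K := by
      rw [sum_mul]
      refine sum_congr rfl fun m hm => ?_
      rw [Finset.mem_sdiff] at hm
      rw [if_neg hm.2]
    rw [h9, add_zero, h10]
    have h11 := sum_sdiff (f := fun m : Fin r → ℤ => ∏ j, lam (m j)) (hsub M₀ D' (le_max_right _ _))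
    rw [sum_box_lam M₀] at h11
    have h12 := sum_box_le (r := r) D'
    rw [mul_comm]
    gcongr
    linarith
  linarith

end

end Pool.Agent.R311.BS
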