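import Pool.Agent.R311.BS.BP
import Pool.Agent.Y210.R9.Zap0

set_option autoImplicit false

/-! Auxiliary bounds for one window. -/

namespace Pool.Agent.R311.BS

open Finset MeasureTheory Filter Topology
open Pool.Agent.H306R2

noncomputable section

/-- truncated zeta -/
def zX (X : ℝ) (t : ℝ) : ℂ := Dp (cA 1 X 1) X (1 / 2 + t * Complex.I)

lemma cA_one_apply {X : ℝ} {n : ℕ} (hn : 1 ≤ n) (hX : (n:ℝ) ≤ X) : cA 1 X 1 n = 1 := by
  rw [cA_apply, if_pos ⟨hX, Nat.coprime_one_right n⟩, dv_one_left (by omega)]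

lemma zX_eq (N : ℕ) (t : ℝ) : zX N t = ∑ n ∈ Icc 1 N, (n : ℂ) ^ (-(1 / 2 + t * Complex.I)) := by
  unfold zX Dp
  rw [Nat.floor_natCast]
  refine sum_congr rfl fun n hn => ?_
  rw [mem_Icc] at hn
  rw [cA_one_apply hn.1 (by exact_mod_cast hn.2)]
  simp

lemma gq_le_lam (H : ℝ) (hH : 0 < H) (X : ℝ) {n l : ℕ} (hn : 1 ≤ n) (hl : 1 ≤ l) (hnX : (n:ℝ) ≤ X)
    (hlX : (l:ℝ) ≤ X) : gq H (0 - Real.log n + Real.log l) ≤ (1 + 4 * X ^ 2 / H ^ 2) * lam ((l:ℤ) - n) := by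
  have hX0 : 0 < X := lt_of_lt_of_le (by exact_mod_cast hn) hnX
  have hpos : 0 ≤ 4 * X ^ 2 / H ^ 2 := by positivity
  by_cases h : l = n
  · subst h
    have e1 : lam ((l:ℤ) - l) = 1 := by unfold lam; simp
    rw [e1, mul_one]
    have := gq_le_one H (0 - Real.log l + Real.log l)
    linarith
  · have h' : (l:ℤ) - n ≠ 0 := by omega
    have hn0 : (0:ℝ) < n := by exact_mod_cast hn
    have hl0 : (0:ℝ) < l := by exact_mod_cast hl
    have key : ∀ a b : ℕ, 1 ≤ a → a < b → (b:ℝ) ≤ X → ((b:ℝ) - a) / X ≤ Real.log b - Real.log a := by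
      intro a b ha hab hbX
      have ha0 : (0:ℝ) < a := by exact_mod_cast ha
      have hb0 : (0:ℝ) < b := by exact_mod_cast (by omega : 0 < b)
      have h1 : (a:ℝ) < b := by exact_mod_cast hab
      have h2 : 1 - ((b:ℝ) / a)⁻¹ ≤ Real.log ((b:ℝ) / a) := Real.one_sub_inv_le_log_of_pos (by positivity)
      rw [inv_div, Real.log_div hb0.ne' ha0.ne'] at h2
      have h3 : ((b:ℝ) - a) / X ≤ 1 - (a:ℝ) / b := by
        have : 1 - (a:ℝ) / b = (b - a) / b := by field_simp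
        rw [this]
        exact div_le_div_of_nonneg_left (by linarith) hb0 hbX
      linarith
    have hq : |(l:ℝ) - n| / X ≤ |0 - Real.log n + Real.log l| := by
      rcases lt_or_gt_of_ne h with h1 | h1
      · have h2 := key l n hl h1 hnX
        have h3 : (l:ℝ) < n := by exact_mod_cast h1
        rw [abs_of_neg (by linarith)]
        have h4 : (-((l:ℝ) - n)) / X = ((n:ℝ) - l) / X := by ring
        rw [h4]
        refine h2.trans ?_
        have := neg_abs_le (0 - Real.log n + Real.log l)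
        linarith
      · have h2 := key n l hn h1 hlX
        have h3 : (n:ℝ) < l := by exact_mod_cast h1
        rw [abs_of_pos (by linarith)]
        refine h2.trans ?_
        have := le_abs_self (0 - Real.log n + Real.log l)
        linarith
    have hd : (0:ℝ) < |(l:ℝ) - n| := by
      rw [abs_pos, sub_ne_zero]
      exact_mod_cast h
    have hq2 : ((l:ℝ) - n) ^ 2 / X ^ 2 ≤ (0 - Real.log n + Real.log l) ^ 2 := by
      rw [← div_pow, ← sq_abs (((l:ℝ) - n) / X), ← sq_abs (0 - Real.log n + Real.log l)]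
      refine pow_le_pow_left₀ (abs_nonneg _) ?_ 2
      rw [abs_div, abs_of_pos hX0]
      exact hq
    have hl2 : lam ((l:ℤ) - n) = 1 / ((l:ℝ) - n) ^ 2 := by
      unfold lam
      rw [if_neg h']
      push_cast
      rfl
    rw [hl2]
    have hd2 : 0 < ((l:ℝ) - n) ^ 2 := by
      rw [← sq_abs]; positivity
    unfold gq
    set y := H ^ 2 * (0 - Real.log n + Real.log l) ^ 2 / 4 with hy
    have hy1 : H ^ 2 * (((l:ℝ) - n) ^ 2 / X ^ 2) / 4 ≤ y := by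
      rw [hy]; gcongr
    have hy0 : 0 < H ^ 2 * (((l:ℝ) - n) ^ 2 / X ^ 2) / 4 := by positivity
    have hexp : Real.exp (-y) ≤ 1 / y := by
      rw [Real.exp_neg, ← one_div]
      exact one_div_le_one_div_of_le (by linarith) (by linarith [Real.add_one_le_exp y])
    have h5 : 1 / y ≤ 1 / (H ^ 2 * (((l:ℝ) - n) ^ 2 / X ^ 2) / 4) := one_div_le_one_div_of_le hy0 hy1
    have h6 : 1 / (H ^ 2 * (((l:ℝ) - n) ^ 2 / X ^ 2) / 4) = 4 * X ^ 2 / H ^ 2 * (1 / ((l:ℝ) - n) ^ 2) := by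
      field_simp
    rw [h6] at h5
    have h7 : 0 ≤ 1 / ((l:ℝ) - n) ^ 2 := by positivity
    nlinarith

lemma sum_lam_shift (s : Finset ℕ) (n : ℤ) : ∑ l ∈ s, lam ((l:ℤ) - n) ≤ Lam := by
  classical
  have hinj : Set.InjOn (fun l : ℕ => (l:ℤ) - n) (s : Set ℕ) := by
    intro a _ b _ h
    simp only at h
    omega
  rw [← sum_image (f := lam) hinj]
  exact sum_lam_le _

/-- crude mean square of the truncated zeta function -/
theorem zX_sq (X : ℝ) (hX : 1 ≤ X) (τ H : ℝ) (hH : 0 < H) :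
    Integrable (fun t : ℝ => ‖zX X t‖ ^ 2 * gw τ H t) ∧
    ∫ t : ℝ, ‖zX X t‖ ^ 2 * gw τ H t ≤ (1 + Real.log X) * ((1 + 4 * X ^ 2 / H ^ 2) * Lam) := by
  obtain ⟨hI, hE⟩ := expansion ({()} : Finset Unit) (fun _ => (1:ℂ)) (fun _ => (0:ℝ)) (cA 1 X 1) (cA 1 X 1) X X τ H hH
  have e0 : ∀ t : ℝ, ((∑ i ∈ ({()} : Finset Unit), (1:ℂ) * ex 0 t) * Dp (cA 1 X 1) X (1 / 2 + t * Complex.I) *
      (starRingEnd ℂ) (Dp (cA 1 X 1) X (1 / 2 + t * Complex.I))) * (gw τ H t : ℂ) =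
      ((‖zX X t‖ ^ 2 * gw τ H t : ℝ) : ℂ) := by
    intro t
    have e1 : ex 0 t = 1 := by unfold ex; simp
    rw [sum_singleton, e1, one_mul, one_mul]
    unfold zX
    rw [Complex.mul_conj, Complex.normSq_eq_norm_sq]
    push_cast
    rfl
  simp only [e0] at hI hE
  have hI' : Integrable (fun t : ℝ => ‖zX X t‖ ^ 2 * gw τ H t) := by
    refine hI.re.congr (Eventually.of_forall fun t => ?_)
    exact Complex.ofReal_re _
  refine ⟨hI', ?_⟩
  rw [integral_complex_ofReal] at hE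
  have hnn : 0 ≤ ∫ t : ℝ, ‖zX X t‖ ^ 2 * gw τ H t :=
    integral_nonneg fun t => mul_nonneg (by positivity) (gw_nonneg τ H t hH)
  have h1 : ∫ t : ℝ, ‖zX X t‖ ^ 2 * gw τ H t = ‖((∫ t : ℝ, ‖zX X t‖ ^ 2 * gw τ H t : ℝ) : ℂ)‖ := by
    rw [Complex.norm_real, Real.norm_of_nonneg hnn]
  have hLam := Lam_ge_one
  rw [h1]
  rw [show ((∫ t : ℝ, ‖zX X t‖ ^ 2 * gw τ H t : ℝ) : ℂ) = _ from hE]
  rw [sum_singleton]
  have hK : 0 ≤ 1 + 4 * X ^ 2 / H ^ 2 := by positivity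
  have hbd : ∀ n ∈ Icc 1 ⌊X⌋₊, ∀ l ∈ Icc 1 ⌊X⌋₊,
      ‖((1:ℂ) * ((cA 1 X 1 n * (Real.sqrt n)⁻¹ : ℝ) : ℂ) * ((cA 1 X 1 l * (Real.sqrt l)⁻¹ : ℝ) : ℂ)) *
        (ex (0 - Real.log n + Real.log l) τ * (gq H (0 - Real.log n + Real.log l) : ℝ))‖ ≤
      (1 / 2) * ((1 / (n:ℝ)) * ((1 + 4 * X ^ 2 / H ^ 2) * lam ((l:ℤ) - n))) +
      (1 / 2) * ((1 / (l:ℝ)) * ((1 + 4 * X ^ 2 / H ^ 2) * lam ((n:ℤ) - l))) := by
    intro n hn l hl
    rw [mem_Icc] at hn hl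
    have hnX : (n:ℝ) ≤ X := (Nat.cast_le.mpr hn.2).trans (Nat.floor_le (by linarith))
    have hlX : (l:ℝ) ≤ X := (Nat.cast_le.mpr hl.2).trans (Nat.floor_le (by linarith))
    have hn0 : (0:ℝ) < n := by exact_mod_cast hn.1
    have hl0 : (0:ℝ) < l := by exact_mod_cast hl.1
    rw [cA_one_apply hn.1 hnX, cA_one_apply hl.1 hlX, one_mul, one_mul, one_mul, norm_mul, norm_mul,
      norm_mul, ex_norm, one_mul, Complex.norm_real, Complex.norm_real, Complex.norm_real,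
      Real.norm_of_nonneg (by positivity), Real.norm_of_nonneg (by positivity),
      Real.norm_of_nonneg (gq_nonneg _ _)]
    have hg := gq_le_lam H hH X hn.1 hl.1 hnX hlX
    have hsym : lam ((n:ℤ) - l) = lam ((l:ℤ) - n) := by
      unfold lam
      by_cases h : (n:ℤ) - l = 0
      · rw [if_pos h, if_pos (by omega)]
      · rw [if_neg h, if_neg (by omega)]
        push_cast
        congr 1
        ring
    rw [hsym]
    have hamgm : (Real.sqrt n)⁻¹ * (Real.sqrt l)⁻¹ ≤ (1 / 2) * (1 / (n:ℝ)) + (1 / 2) * (1 / (l:ℝ)) := by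
      have s1 : ((Real.sqrt n)⁻¹) ^ 2 = 1 / (n:ℝ) := by
        rw [inv_pow, Real.sq_sqrt hn0.le, one_div]
      have s2 : ((Real.sqrt l)⁻¹) ^ 2 = 1 / (l:ℝ) := by
        rw [inv_pow, Real.sq_sqrt hl0.le, one_div]
      rw [← s1, ← s2]
      nlinarith [sq_nonneg ((Real.sqrt n)⁻¹ - (Real.sqrt l)⁻¹)]
    have hlam := lam_nonneg ((l:ℤ) - n)
    have hgn := gq_nonneg H (0 - Real.log n + Real.log l)
    calc (Real.sqrt n)⁻¹ * (Real.sqrt l)⁻¹ * gq H (0 - Real.log n + Real.log l) ≤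
        ((1 / 2) * (1 / (n:ℝ)) + (1 / 2) * (1 / (l:ℝ))) * ((1 + 4 * X ^ 2 / H ^ 2) * lam ((l:ℤ) - n)) := by
          gcongr
      _ = _ := by ring
  have hone : ∀ n ∈ Icc 1 ⌊X⌋₊, ∑ l ∈ Icc 1 ⌊X⌋₊, (1 / (n:ℝ)) * ((1 + 4 * X ^ 2 / H ^ 2) * lam ((l:ℤ) - n)) ≤
      (1 / (n:ℝ)) * ((1 + 4 * X ^ 2 / H ^ 2) * Lam) := by
    intro n _
    rw [← mul_sum, ← mul_sum]
    have := sum_lam_shift (Icc 1 ⌊X⌋₊) n
    gcongr
  have hharm : ∑ n ∈ Icc 1 ⌊X⌋₊, (1 / (n:ℝ)) ≤ 1 + Real.log X := by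
    have h := harmonic_le_one_add_log ⌊X⌋₊
    rw [harmonic_eq_sum_Icc] at h
    push_cast at h
    simp only [one_div]
    have hf1 : 1 ≤ ⌊X⌋₊ := Nat.le_floor (by simpa using hX)
    have h2 : Real.log (⌊X⌋₊ : ℝ) ≤ Real.log X :=
      Real.log_le_log (by exact_mod_cast hf1) (Nat.floor_le (by linarith))
    linarith
  have htot : ∑ n ∈ Icc 1 ⌊X⌋₊, ∑ l ∈ Icc 1 ⌊X⌋₊, (1 / (n:ℝ)) * ((1 + 4 * X ^ 2 / H ^ 2) * lam ((l:ℤ) - n)) ≤
      (1 + Real.log X) * ((1 + 4 * X ^ 2 / H ^ 2) * Lam) := by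
    refine (sum_le_sum hone).trans ?_
    rw [← sum_mul]
    gcongr
  refine (norm_sum_le_of_le _ fun n hn => norm_sum_le_of_le _ fun l hl => hbd n hn l hl).trans ?_
  simp only [sum_add_distrib, ← mul_sum]
  have hsw : ∑ n ∈ Icc 1 ⌊X⌋₊, ∑ l ∈ Icc 1 ⌊X⌋₊, (1 / (l:ℝ)) * ((1 + 4 * X ^ 2 / H ^ 2) * lam ((n:ℤ) - l)) =
      ∑ n ∈ Icc 1 ⌊X⌋₊, ∑ l ∈ Icc 1 ⌊X⌋₊, (1 / (n:ℝ)) * ((1 + 4 * X ^ 2 / H ^ 2) * lam ((l:ℤ) - n)) := sum_comm
  simp only [← mul_sum] at hsw htot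
  rw [hsw]
  linarith

/-- the elementary inequality replacing Hölder's inequality -/
lemma young (q : ℕ) (hq : 2 ≤ q) (x y z μ : ℝ) (hx : 0 ≤ x) (hy : 0 ≤ y) (hz : 0 ≤ z) (hμ : 0 < μ) :
    x * y ^ (q - 2) * z ≤ μ * (y ^ (2 * q) + z ^ 2) + (μ⁻¹) ^ (q - 1) * x ^ q := by
  set V := y ^ (2 * q) + z ^ 2 with hV
  have hV0 : 0 ≤ V := by positivity
  have hq0 : (0:ℝ) < q := by exact_mod_cast (by omega : 0 < q)
  set u := V ^ (1 / (2 * (q:ℝ))) with hu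
  have hu0 : 0 ≤ u := Real.rpow_nonneg hV0 _
  have hu2 : u ^ (2 * q) = V := by
    rw [hu, ← Real.rpow_natCast, ← Real.rpow_mul hV0]
    push_cast
    rw [one_div, inv_mul_cancel₀ (by positivity), Real.rpow_one]
  have hyu : y ≤ u := by
    have : y ^ (2 * q) ≤ u ^ (2 * q) := by rw [hu2]; nlinarith
    exact le_of_pow_le_pow_left₀ (by omega) hu0 this
  have hzu : z ≤ u ^ q := by
    have : z ^ 2 ≤ (u ^ q) ^ 2 := by
      rw [← pow_mul, mul_comm q 2, hu2]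
      have : 0 ≤ y ^ (2 * q) := by positivity
      linarith
    exact le_of_pow_le_pow_left₀ (by norm_num) (by positivity) this
  have h1 : x * y ^ (q - 2) * z ≤ x * (u ^ 2) ^ (q - 1) := by
    have e : (u ^ 2) ^ (q - 1) = u ^ (q - 2) * u ^ q := by
      rw [← pow_mul, ← pow_add]
      congr 1
      omega
    rw [e, mul_assoc]
    gcongr
  refine h1.trans ?_
  have hw : (u ^ 2) ^ q = V := by rw [← pow_mul, hu2]
  rw [← hw]
  set w := u ^ 2 with hwdef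
  have hw0 : 0 ≤ w := by positivity
  rcases le_or_gt x (μ * w) with h | h
  · have h2 : x * w ^ (q - 1) ≤ μ * w ^ q := by
      calc x * w ^ (q - 1) ≤ (μ * w) * w ^ (q - 1) := by gcongr
        _ = μ * w ^ q := by
            rw [mul_assoc, ← pow_succ', show q - 1 + 1 = q by omega]
    have : 0 ≤ (μ⁻¹) ^ (q - 1) * x ^ q := by positivity
    linarith
  · have h2 : w ≤ μ⁻¹ * x := by
      rw [inv_mul_eq_div, le_div_iff₀ hμ]
      linarith
    have h3 : x * w ^ (q - 1) ≤ (μ⁻¹) ^ (q - 1) * x ^ q := by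
      calc x * w ^ (q - 1) ≤ x * (μ⁻¹ * x) ^ (q - 1) := by gcongr
        _ = (μ⁻¹) ^ (q - 1) * x ^ q := by
            rw [mul_pow]
            calc x * ((μ⁻¹) ^ (q - 1) * x ^ (q - 1)) = (μ⁻¹) ^ (q - 1) * (x * x ^ (q - 1)) := by ring
              _ = _ := by rw [← pow_succ', show q - 1 + 1 = q by omega]
    have : 0 ≤ μ * w ^ q := by positivity
    linarith

/-- the Bohr set -/
def BSet {r : ℕ} (β φ : Fin r → ℝ) (δ : ℝ) : Set ℝ := {t | ∀ j, ∃ n : ℤ, |β j * t - φ j - n| < 2 * δ}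

lemma BSet_meas {r : ℕ} (β φ : Fin r → ℝ) (δ : ℝ) : MeasurableSet (BSet β φ δ) := by
  have : BSet β φ δ = ⋂ j, ⋃ n : ℤ, {t | |β j * t - φ j - n| < 2 * δ} := by
    ext t
    simp [BSet]
  rw [this]
  refine MeasurableSet.iInter fun j => MeasurableSet.iUnion fun n => ?_
  apply IsOpen.measurableSet
  exact isOpen_lt (by fun_prop) continuous_const

end

end Pool.Agent.R311.BS
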