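import Pool.Agent.R311.BS.W

set_option autoImplicit false

/-! The lower bound in one Gaussian window. -/

namespace Pool.Agent.R311.BS

open Finset MeasureTheory Filter Topology
open Pool.Agent.H306R2

noncomputable section

/-! ### the polynomials -/

lemma PB_cA (P : ℕ) (N : ℝ) {α : ℝ} (hα : 0 ≤ α) {J : ℕ} (hJ : α ≤ J) : PB (cA P N α) J := by
  intro n
  rw [abs_of_nonneg (cA_nonneg P N hα n)]
  refine (cA_le P N hα n).trans ((xA_le P hα n).trans ?_)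
  exact (le_abs_self _).trans (PB_dA hα hJ n)

lemma PB_cA_one (P : ℕ) (N : ℝ) {α : ℝ} (hα : 0 ≤ α) (hα1 : α ≤ 1) : PB (cA P N α) 0 := by
  intro n
  rw [abs_of_nonneg (cA_nonneg P N hα n), pow_zero]
  refine (cA_le P N hα n).trans ((xA_le P hα n).trans ?_)
  refine (dv_mono hα hα1 n).trans ?_
  rcases Nat.eq_zero_or_pos n with h | h
  · subst h; simp [dv]
  · rw [dv_one_left (by omega)]

lemma PB_muP (P : ℕ) : PB (muP P) 0 := by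
  intro n
  rw [muP_apply, pow_zero]
  split_ifs
  · have := ArithmeticFunction.abs_moebius_le_one (n := n)
    exact_mod_cast this
  · simp

lemma l1_PB {f : ArithmeticFunction ℝ} {c : ℕ} (hf : PB f c) {X : ℝ} (hX : 1 ≤ X) :
    l1 f X ≤ X ^ (c + 1) := by
  unfold l1
  have h1 : ∀ n ∈ Icc 1 ⌊X⌋₊, |f n| ≤ X ^ c := by
    intro n hn
    rw [mem_Icc] at hn
    have hnX : (n:ℝ) ≤ X := (Nat.cast_le.mpr hn.2).trans (Nat.floor_le (by linarith))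
    exact (hf n).trans (pow_le_pow_left₀ (Nat.cast_nonneg n) hnX c)
  calc ∑ n ∈ Icc 1 ⌊X⌋₊, |f n| ≤ ∑ _n ∈ Icc 1 ⌊X⌋₊, X ^ c := sum_le_sum h1
    _ = ⌊X⌋₊ * X ^ c := by simp
    _ ≤ X * X ^ c := by
        gcongr
        exact Nat.floor_le (by linarith)
    _ = X ^ (c + 1) := by rw [pow_succ]; ring

lemma xA_coprime {P : ℕ} {α : ℝ} {n : ℕ} (h : xA P α n ≠ 0) : n.Coprime P := by
  by_contra h'
  rw [xA_apply, if_neg h'] at h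
  exact h rfl

/-- the polynomial standing for `ζ^{1/2}` to the power `q - 2` times `ζ` -/
def Bf (q P : ℕ) (N X : ℝ) : ArithmeticFunction ℝ := cA P N (1 / 2) ^ (q - 2) * zP P X

lemma Bf_le (q : ℕ) (hq : 2 ≤ q) (P : ℕ) (N X : ℝ) (n : ℕ) (hn : (n:ℝ) ≤ X) :
    |Bf q P N X n| ≤ dv (q / 2) n ∧ (Bf q P N X n ≠ 0 → n.Coprime P) := by
  have h1 := mul_mono_le X (f := cA P N (1 / 2) ^ (q - 2)) (f' := xA P (((q - 2 : ℕ) : ℝ) * (1 / 2)))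
    (g := zP P X) (g' := xA P 1) (fun m _ => cA_pow_le P N (by norm_num) (q - 2) m)
    (fun m hm => by
      rw [zP_eq P X m hm]
      exact ⟨xA_nonneg P zero_le_one m, le_refl _⟩) n hn
  rw [xA_mul] at h1
  have e : ((q - 2 : ℕ) : ℝ) * (1 / 2) + 1 = (q:ℝ) / 2 := by
    rw [Nat.cast_sub hq]; push_cast; ring
  rw [e] at h1
  have h2 : Bf q P N X n = (cA P N (1 / 2) ^ (q - 2) * zP P X) n := rfl
  rw [← h2] at h1
  have hq0 : (0:ℝ) ≤ (q:ℝ) / 2 := by positivity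
  constructor
  · rw [abs_of_nonneg h1.1]
    exact h1.2.trans (xA_le P hq0 n)
  · intro hne
    apply xA_coprime (P := P) (α := (q:ℝ) / 2)
    intro h0
    rw [h0] at h1
    exact hne (le_antisymm h1.2 h1.1)

lemma Bf_eq (q : ℕ) (hq : 2 ≤ q) (P : ℕ) (N X : ℝ) (hNX : N ≤ X) (n : ℕ) (hn : (n:ℝ) ≤ N) :
    Bf q P N X n = xA P (q / 2) n := by
  have h1 := mul_congr_le N (f := cA P N (1 / 2) ^ (q - 2)) (f' := xA P (((q - 2 : ℕ) : ℝ) * (1 / 2)))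
    (g := zP P X) (g' := xA P 1) (fun m hm => cA_pow_eq P (1 / 2) (q - 2) m hm)
    (fun m hm => zP_eq P X m (hm.trans hNX)) n hn
  rw [xA_mul] at h1
  have e : ((q - 2 : ℕ) : ℝ) * (1 / 2) + 1 = (q:ℝ) / 2 := by
    rw [Nat.cast_sub hq]; push_cast; ring
  rw [e] at h1
  exact h1

lemma muP_supp (P : ℕ) (hP : 1 ≤ P) (n : ℕ) (hn : (P:ℝ) < n) : muP P n = 0 := by
  rw [muP_apply, if_neg]
  rintro ⟨h, _⟩
  have := Nat.le_of_dvd hP h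
  have h2 : P < n := by exact_mod_cast hn
  omega

lemma Bf_Dp (q P : ℕ) (hP : 1 ≤ P) (N X : ℝ) (hN : 1 ≤ N) (hX : 0 ≤ X) (s : ℂ) :
    Dp (Bf q P N X) (N ^ (q - 2) * (P * X)) s =
      Dp (cA P N (1 / 2)) N s ^ (q - 2) * (Dp (muP P) P s * Dp (cA 1 X 1) X s) := by
  have h1 := Dp_pow (cA P N (1 / 2)) N hN (cA_supp P N (1 / 2)) s (q - 2)
  have h2 := Dp_mul (muP P) (cA 1 X 1) P X (Nat.cast_nonneg P) hX (muP_supp P hP) (cA_supp 1 X 1) s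
  have h3 := Dp_mul (cA P N (1 / 2) ^ (q - 2)) (muP P * cA 1 X 1) (N ^ (q - 2)) (P * X)
    (by positivity) (by positivity) h1.1 h2.1 s
  rw [h1.2, h2.2] at h3
  exact h3.2

lemma PB_Bf (q P : ℕ) (N X : ℝ) : PB (Bf q P N X) (q + 2) := by
  unfold Bf zP
  have h1 := (PB_cA_one P N (α := 1 / 2) (by norm_num) (by norm_num)).pow (q - 2)
  have h2 := (PB_muP P).mul (PB_cA_one 1 X (α := 1) (by norm_num) (by norm_num))
  exact (h1.mul h2).mono (by simp)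

lemma BC_sum (q : ℕ) (hq : 2 ≤ q) (P : ℕ) (N X Y : ℝ) (hN : 1 ≤ N) (hNX : N ≤ X) (hNY : N ≤ Y) :
    ∑ n ∈ Icc 1 ⌊Y⌋₊, Bf q P N X n * cA P N (q / 2) n / n = SP (q / 2) P ⌊N⌋₊ := by
  unfold SP
  rw [sum_filter]
  have hsub : Icc 1 ⌊N⌋₊ ⊆ Icc 1 ⌊Y⌋₊ := Icc_subset_Icc_right (Nat.floor_le_floor hNY)
  symm
  rw [← sum_subset hsub]
  · refine sum_congr rfl fun n hn => ?_
    rw [mem_Icc] at hn
    have hnN : (n:ℝ) ≤ N := (Nat.cast_le.mpr hn.2).trans (Nat.floor_le (by linarith))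
    rw [Bf_eq q hq P N X hNX n hnN, cA_eq P _ hnN, xA_apply]
    split_ifs
    · ring
    · simp
  · intro n hn hn'
    rw [mem_Icc] at hn hn'
    have : ⌊N⌋₊ < n := by
      by_contra h
      exact hn' ⟨hn.1, by omega⟩
    have : N < n := Nat.lt_of_floor_lt this
    rw [cA_supp P N _ n this]
    simp

/-! ### mean squares -/

theorem bohr_sq {r : ℕ} (β φ : Fin r → ℝ) (D : ℕ) {δ : ℝ} (hδ : 0 ≤ δ) (hδ1 : δ ≤ 1)
    {κ : ℝ} (hκ : 1 ≤ κ) (P : ℕ) (f : ℕ → ℝ) (Y Z ρ τ H : ℝ) (hH : 0 < H) (hY : 1 ≤ Y)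
    (hρ : 0 ≤ ρ) (hρ1 : ρ ≤ 1)
    (hZ : Y * Real.exp (D * (2 * Real.pi * ∑ j, |β j|) + 1) ≤ Z) (hρ2 : 2 * ρ ≤ 1 / (Z * Y))
    (hf : ∀ n : ℕ, |f n| ≤ dv κ n ∧ (f n ≠ 0 → n.Coprime P))
    (Γ : (Fin r → ℤ) → ℝ) (hΓ0 : ∀ m, 0 ≤ Γ m)
    (hΓ : ∀ m ∈ bx r D, m ≠ 0 → ∀ a b : ℕ, 1 ≤ a → 1 ≤ b → a.Coprime b → a.Coprime P → b.Coprime P →
      |th β m - Real.log a + Real.log b| < ρ →
      dv κ a * dv κ b * (Real.sqrt a)⁻¹ * (Real.sqrt b)⁻¹ ≤ Γ m) :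
    Integrable (fun t : ℝ => Wf β φ D δ t * ‖Dp f Y (1 / 2 + t * Complex.I)‖ ^ 2 * gw τ H t) ∧
    ∫ t : ℝ, Wf β φ D δ t * ‖Dp f Y (1 / 2 + t * Complex.I)‖ ^ 2 * gw τ H t ≤
      (1 + ∑ m ∈ (bx r D).erase 0, Cm D δ m * Γ m) * (∑ v ∈ Icc 1 ⌊Y⌋₊, dv κ v ^ 2 / v) +
        Lam ^ r * (l1 f Y * l1 f Y * gq H ρ) := by
  have h := bohr_mean β φ D hδ hδ1 hκ P f f Y Y Z ρ τ H hH hY le_rfl hρ hρ1 hZ hρ2
    (fun n _ => hf n) hf Γ hΓ0 hΓ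
  have hI := (expansion (bx r D) (Cp φ D δ) (th β) f f Y Y τ H hH).1
  simp only [← Wf_eq] at hI
  have e0 : ∀ t : ℝ, (((Wf β φ D δ t : ℝ) : ℂ) * Dp f Y (1 / 2 + t * Complex.I) *
      (starRingEnd ℂ) (Dp f Y (1 / 2 + t * Complex.I))) * (gw τ H t : ℂ) =
      ((Wf β φ D δ t * ‖Dp f Y (1 / 2 + t * Complex.I)‖ ^ 2 * gw τ H t : ℝ) : ℂ) := by
    intro t
    rw [mul_assoc ((Wf β φ D δ t : ℝ) : ℂ), Complex.mul_conj, Complex.normSq_eq_norm_sq]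
    push_cast
    rfl
  simp only [e0] at h hI
  have hI' : Integrable (fun t : ℝ => Wf β φ D δ t * ‖Dp f Y (1 / 2 + t * Complex.I)‖ ^ 2 * gw τ H t) := by
    refine hI.re.congr (Eventually.of_forall fun t => ?_)
    exact Complex.ofReal_re _
  refine ⟨hI', ?_⟩
  rw [integral_complex_ofReal, ← Complex.ofReal_sub, Complex.norm_real, Real.norm_eq_abs] at h
  have h2 := (abs_le.mp h).2
  have h3 : ∑ n ∈ Icc 1 ⌊Y⌋₊, f n * f n / n ≤ ∑ v ∈ Icc 1 ⌊Y⌋₊, dv κ v ^ 2 / v := by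
    refine sum_le_sum fun n _ => ?_
    have h4 := (hf n).1
    have h5 : f n * f n ≤ dv κ n ^ 2 := by
      rw [← abs_mul_abs_self (f n), sq]
      exact mul_le_mul h4 h4 (abs_nonneg _) ((abs_nonneg _).trans h4)
    gcongr
  have h6 : (δ ^ 2) ^ r ≤ 1 := pow_le_one₀ (by positivity) (pow_le_one₀ hδ hδ1)
  have h7 : 0 ≤ ∑ v ∈ Icc 1 ⌊Y⌋₊, dv κ v ^ 2 / v := sum_nonneg fun v _ => by positivity
  have h8 : (δ ^ 2) ^ r * ∑ n ∈ Icc 1 ⌊Y⌋₊, f n * f n / n ≤ 1 * ∑ v ∈ Icc 1 ⌊Y⌋₊, dv κ v ^ 2 / v := by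
    refine mul_le_mul h6 h3 ?_ (by norm_num)
    exact sum_nonneg fun n _ => div_nonneg (mul_self_nonneg _) (Nat.cast_nonneg _)
  linarith

end

end Pool.Agent.R311.BS
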