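import Pool.Agent.R311.BS.WC
import Pool.Agent.H306R2.Window

set_option autoImplicit false

/-! The lower bound in one Gaussian window: the core inequality. -/

namespace Pool.Agent.R311.BS

open Finset MeasureTheory Filter Topology
open Pool.Agent.H306R2

noncomputable section

/-- zeta on the critical line -/
def zl (t : ℝ) : ℂ := riemannZeta (1 / 2 + t * Complex.I)

lemma zl_cont : Continuous zl := zeta_line_continuous

lemma Dp_cont (f : ℕ → ℝ) (X : ℝ) : Continuous fun t : ℝ => Dp f X (1 / 2 + t * Complex.I) :=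
  Dp_line_continuous f X

theorem window_core (q : ℕ) (hq : 2 ≤ q) (J : ℕ) (hJ : (q:ℝ) / 2 ≤ J) {r : ℕ} (β φ : Fin r → ℝ)
    (D : ℕ) (hD : 0 < D) {δ : ℝ} (hδ : 0 ≤ δ) (hδ1 : δ ≤ 1 / 4) (P : ℕ) (hP : 1 ≤ P)
    (N X Z ρ τ H R ε e₁ μ : ℝ) (hN : 1 ≤ N) (hNX : N ^ q ≤ X) (hZX : Z ≤ X)
    (hρ : 0 ≤ ρ) (hρ1 : ρ ≤ 1) (hH : 0 < H) (hR : 0 ≤ R) (he₁ : 0 ≤ e₁) (hμ : 0 < μ)
    (hZ : N ^ q * Real.exp (D * (2 * Real.pi * ∑ j, |β j|) + 1) ≤ Z) (hρ2 : 2 * ρ ≤ 1 / (Z * N ^ q))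
    (Γ : (Fin r → ℤ) → ℝ) (hΓ0 : ∀ m, 0 ≤ Γ m)
    (hΓ : ∀ m ∈ bx r D, m ≠ 0 → ∀ a b : ℕ, 1 ≤ a → 1 ≤ b → a.Coprime b → a.Coprime P → b.Coprime P →
      |th β m - Real.log a + Real.log b| < ρ →
      dv (q / 2) a * dv (q / 2) b * (Real.sqrt a)⁻¹ * (Real.sqrt b)⁻¹ ≤ Γ m)
    (hε : ∑ m ∈ (bx r D).erase 0, Cm D δ m * Γ m ≤ ε)
    (happ : ∀ t ∈ Set.Ioc (τ - R) (τ + R), ‖zl t - zX X t‖ ≤ e₁) :
    (δ ^ 2) ^ r * SP (q / 2) P ⌊N⌋₊ - ε * (∑ v ∈ Icc 1 ⌊N ^ q⌋₊, dv (q / 2) v ^ 2 / v) -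
      Lam ^ r * ((N ^ (q - 2) * (P * X)) ^ (q + 3) * N ^ (J + 1) * gq H ρ) -
      Lam ^ r * ((N ^ (q - 2) * (P * X)) ^ (q + 3) * N ^ (J + 1)) * (2 * Real.exp (-(R ^ 2 / (2 * H ^ 2)))) -
      Lam ^ r * (2 * D * Real.cos (Real.pi * δ) ^ (2 * D)) * (P * N ^ (q - 2) * N ^ (J + 1)) *
        (1 + (1 + Real.log X) * ((1 + 4 * X ^ 2 / H ^ 2) * Lam)) -
      Lam ^ r * (e₁ * (P * N ^ (q - 2) * N ^ (J + 1))) ≤
    μ * (2 * (1 + ε) * (∑ v ∈ Icc 1 ⌊N ^ q⌋₊, dv (q / 2) v ^ 2 / v) +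
        2 * (Lam ^ r * ((N ^ q) ^ (2 * (q + J + 1)) * gq H ρ))) +
      (μ⁻¹) ^ (q - 1) * (Lam ^ r * P ^ q) *
        ∫ t in Set.Ioc (τ - R) (τ + R) ∩ BSet β φ δ, ‖zl t‖ ^ q * gw τ H t := by
  set κ : ℝ := (q:ℝ) / 2 with hκdef
  have hqr : (2:ℝ) ≤ q := by exact_mod_cast hq
  have hκ : 1 ≤ κ := by rw [hκdef]; linarith
  have hκ0 : 0 ≤ κ := by linarith
  have hLam := Lam_ge_one
  have hLam0 : 0 < Lam ^ r := by positivity
  have hNN : N ≤ N ^ q := by
    calc N = N ^ 1 := (pow_one N).symm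
      _ ≤ N ^ q := pow_le_pow_right₀ hN (by omega)
  have hX1 : 1 ≤ X := hN.trans (hNN.trans hNX)
  have hNX' : N ≤ X := hNN.trans hNX
  have hY1 : 1 ≤ N ^ q := one_le_pow₀ hN
  have hPr : (1:ℝ) ≤ P := by exact_mod_cast hP
  set Y := N ^ q with hY
  set Xf := N ^ (q - 2) * (P * X) with hXf
  have hXf1 : 1 ≤ Xf := by
    rw [hXf]
    have h1 : 1 ≤ N ^ (q - 2) := one_le_pow₀ hN
    have h2 : 1 ≤ (P:ℝ) * X := one_le_mul_of_one_le_of_one_le hPr hX1
    exact one_le_mul_of_one_le_of_one_le h1 h2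
  have hXXf : X ≤ Xf := by
    rw [hXf]
    have h1 : 1 ≤ N ^ (q - 2) := one_le_pow₀ hN
    have h2 : X ≤ (P:ℝ) * X := by nlinarith
    calc X ≤ (P:ℝ) * X := h2
      _ ≤ N ^ (q - 2) * (P * X) := by
          have : 0 ≤ (P:ℝ) * X := by positivity
          nlinarith
  have hYXf : Y ≤ Xf := hNX.trans hXXf
  -- the three functions
  set B := Bf q P N X with hB
  set C := cA P N κ with hC
  set A := cA P N (1 / 2) with hA
  have hBle : ∀ n : ℕ, (n:ℝ) ≤ Z → |B n| ≤ dv κ n ∧ (B n ≠ 0 → n.Coprime P) := fun n hn =>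
    Bf_le q hq P N X n (hn.trans hZX)
  have hCle : ∀ n : ℕ, |C n| ≤ dv κ n ∧ (C n ≠ 0 → n.Coprime P) := by
    intro n
    have h1 := cA_nonneg P N hκ0 n
    have h2 := cA_le P N hκ0 n
    refine ⟨?_, fun h => ?_⟩
    · rw [abs_of_nonneg h1]
      exact h2.trans (xA_le P hκ0 n)
    · apply xA_coprime (P := P) (α := κ)
      intro h0
      rw [h0] at h2
      exact h (le_antisymm h2 h1)
  have hAle : ∀ n : ℕ, |(A ^ q : ArithmeticFunction ℝ) n| ≤ dv κ n ∧
      ((A ^ q : ArithmeticFunction ℝ) n ≠ 0 → n.Coprime P) := by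
    intro n
    have h1 := cA_pow_le P N (α := 1 / 2) (by norm_num) q n
    have e : (q:ℝ) * (1 / 2) = κ := by rw [hκdef]; ring
    rw [e] at h1
    refine ⟨?_, fun h => ?_⟩
    · rw [abs_of_nonneg h1.1]
      exact h1.2.trans (xA_le P hκ0 n)
    · apply xA_coprime (P := P) (α := κ)
      intro h0
      rw [h0] at h1
      exact h (le_antisymm h1.2 h1.1)
  -- l1 bounds
  have hlB : l1 B Xf ≤ Xf ^ (q + 3) := l1_PB (PB_Bf q P N X) hXf1
  have hDC : ∀ t : ℝ, Dp C Y (1 / 2 + t * Complex.I) = Dp C N (1 / 2 + t * Complex.I) := fun t =>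
    Dp_mono C N Y hNN (cA_supp P N κ) _
  have hlC : l1 C N ≤ N ^ (J + 1) := l1_PB (PB_cA P N hκ0 hJ) hN
  have hlCY : l1 C Y = l1 C N := by
    unfold l1
    have hsub : Icc 1 ⌊N⌋₊ ⊆ Icc 1 ⌊Y⌋₊ := Icc_subset_Icc_right (Nat.floor_le_floor hNN)
    symm
    refine sum_subset hsub fun n hn hn' => ?_
    rw [mem_Icc] at hn hn'
    have : ⌊N⌋₊ < n := by
      by_contra h
      exact hn' ⟨hn.1, by omega⟩
    rw [hC, cA_supp P N _ n (Nat.lt_of_floor_lt this), abs_zero]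
  have hlA : l1 A N ≤ N := by
    have := l1_PB (PB_cA_one P N (α := 1 / 2) (by norm_num) (by norm_num)) hN
    rw [zero_add, pow_one] at this
    exact this
  have hlM : l1 (muP P) P ≤ P := by
    have := l1_PB (PB_muP P) hPr
    rw [zero_add, pow_one] at this
    exact this
  have hlAq : l1 (A ^ q : ArithmeticFunction ℝ) Y ≤ Y ^ (q + J + 1) := by
    have h1 := l1_PB ((PB_cA_one P N (α := 1 / 2) (by norm_num) (by norm_num)).pow q) hY1
    refine h1.trans (pow_le_pow_right₀ hY1 (by simp))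
  have hlCY2 : l1 C Y ≤ Y ^ (q + J + 1) := by
    have h1 := l1_PB (PB_cA P N hκ0 hJ) hY1
    exact h1.trans (pow_le_pow_right₀ hY1 (by omega))
  set U := ∑ v ∈ Icc 1 ⌊Y⌋₊, dv κ v ^ 2 / v with hU
  have hU0 : 0 ≤ U := sum_nonneg fun v _ => by positivity
  -- main term
  set G : ℝ → ℂ := fun t => (((Wf β φ D δ t : ℝ) : ℂ) * Dp B Xf (1 / 2 + t * Complex.I) *
      (starRingEnd ℂ) (Dp C Y (1 / 2 + t * Complex.I))) * (gw τ H t : ℂ) with hG
  have hGint : Integrable G := by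
    have hI := (expansion (bx r D) (Cp φ D δ) (th β) B C Xf Y τ H hH).1
    simp only [← Wf_eq] at hI
    exact hI
  have hδ1' : δ ≤ 1 := by linarith
  have hmain : (δ ^ 2) ^ r * SP κ P ⌊N⌋₊ - ε * U -
      Lam ^ r * (Xf ^ (q + 3) * N ^ (J + 1) * gq H ρ) ≤ ‖∫ t, G t‖ := by
    have h1 := bohr_mean β φ D hδ hδ1' hκ P B C Xf Y Z ρ τ H hH hY1 hYXf hρ hρ1 hZ hρ2 hBle hCle
      Γ hΓ0 hΓ
    rw [BC_sum q hq P N X Y hN hNX' hNN] at h1
    have h2 : ‖(((δ ^ 2) ^ r * SP κ P ⌊N⌋₊ : ℝ) : ℂ)‖ = (δ ^ 2) ^ r * SP κ P ⌊N⌋₊ := by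
      rw [Complex.norm_real, Real.norm_of_nonneg (mul_nonneg (by positivity) (SP_nonneg _ _ _))]
    have h3 := norm_sub_norm_le (((δ ^ 2) ^ r * SP κ P ⌊N⌋₊ : ℝ) : ℂ) (∫ t, G t)
    rw [h2, norm_sub_rev] at h3
    have h4 : (∑ m ∈ (bx r D).erase 0, Cm D δ m * Γ m) * U ≤ ε * U := by gcongr
    have h5 : Lam ^ r * (l1 B Xf * l1 C Y * gq H ρ) ≤ Lam ^ r * (Xf ^ (q + 3) * N ^ (J + 1) * gq H ρ) := by
      have := gq_nonneg H ρ
      have := l1_nonneg B Xf
      have := l1_nonneg C Y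
      rw [hlCY]
      rw [hlCY] at this
      gcongr
    have h6 : ‖(∫ t, G t) - (((δ ^ 2) ^ r * SP κ P ⌊N⌋₊ : ℝ) : ℂ)‖ ≤
      (∑ m ∈ (bx r D).erase 0, Cm D δ m * Γ m) * U + Lam ^ r * (l1 B Xf * l1 C Y * gq H ρ) := h1
    linarith
  -- splitting
  set I := Set.Ioc (τ - R) (τ + R) with hI
  have hImeas : MeasurableSet I := measurableSet_Ioc
  have hBmeas := BSet_meas β φ δ
  have hsplit : ∫ t, G t = (∫ t in I ∩ BSet β φ δ, G t) + (∫ t in I \ BSet β φ δ, G t) + ∫ t in Iᶜ, G t := by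
    rw [integral_inter_add_sdiff hBmeas hGint.integrableOn, integral_add_compl hImeas hGint]
  have hW0 := Wf_nonneg β φ D hδ
  have hW1 := Wf_le β φ D hδ hδ1'
  have hDB : ∀ t : ℝ, ‖Dp B Xf (1 / 2 + t * Complex.I)‖ ≤ Xf ^ (q + 3) := fun t =>
    (Dp_line_norm _ _ _).trans hlB
  have hDCn : ∀ t : ℝ, ‖Dp C Y (1 / 2 + t * Complex.I)‖ ≤ N ^ (J + 1) := fun t => by
    rw [hDC]; exact (Dp_line_norm _ _ _).trans hlC
  have hDAn : ∀ t : ℝ, ‖Dp A N (1 / 2 + t * Complex.I)‖ ≤ N := fun t =>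
    (Dp_line_norm _ _ _).trans hlA
  have hDMn : ∀ t : ℝ, ‖Dp (muP P) P (1 / 2 + t * Complex.I)‖ ≤ P := fun t =>
    (Dp_line_norm _ _ _).trans hlM
  have hGn : ∀ t, ‖G t‖ = Wf β φ D δ t * ‖Dp B Xf (1 / 2 + t * Complex.I)‖ *
      ‖Dp C Y (1 / 2 + t * Complex.I)‖ * gw τ H t := by
    intro t
    rw [hG]
    simp only
    rw [norm_mul, norm_mul, norm_mul, RCLike.norm_conj, Complex.norm_real, Complex.norm_real,
      Real.norm_of_nonneg (hW0 t), Real.norm_of_nonneg (gw_nonneg τ H t hH)]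
  have hgwI := gw_integrable τ H hH
  -- outside the window
  have hout : ‖∫ t in Iᶜ, G t‖ ≤ Lam ^ r * (Xf ^ (q + 3) * N ^ (J + 1)) *
      (2 * Real.exp (-(R ^ 2 / (2 * H ^ 2)))) := by
    calc ‖∫ t in Iᶜ, G t‖ ≤ ∫ t in Iᶜ, ‖G t‖ := norm_integral_le_integral_norm _
      _ ≤ ∫ t in Iᶜ, Lam ^ r * (Xf ^ (q + 3) * N ^ (J + 1)) * gw τ H t := by
          refine setIntegral_mono_on hGint.norm.integrableOn (hgwI.const_mul _).integrableOn
            hImeas.compl fun t _ => ?_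
          rw [hGn]
          have := gw_nonneg τ H t hH
          have a1 := hW0 t
          have a2 := hW1 t
          have a3 := hDB t
          have a4 := hDCn t
          calc _ ≤ Lam ^ r * Xf ^ (q + 3) * N ^ (J + 1) * gw τ H t := by gcongr
            _ = _ := by ring
      _ = Lam ^ r * (Xf ^ (q + 3) * N ^ (J + 1)) * ∫ t in Iᶜ, gw τ H t := integral_const_mul _ _
      _ ≤ _ := by
          gcongr
          exact gw_tail τ H R hH hR
  -- outside the Bohr set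
  have hDBe : ∀ t : ℝ, Dp B Xf (1 / 2 + t * Complex.I) =
      Dp A N (1 / 2 + t * Complex.I) ^ (q - 2) * (Dp (muP P) P (1 / 2 + t * Complex.I) * zX X t) := fun t =>
    Bf_Dp q P hP N X hN (by linarith) _
  set TL := Lam ^ r * (2 * D * Real.cos (Real.pi * δ) ^ (2 * D)) with hTL
  have hcos : 0 ≤ Real.cos (Real.pi * δ) := by
    apply Real.cos_nonneg_of_mem_Icc
    constructor <;> nlinarith [Real.pi_pos]
  have hTL0 : 0 ≤ TL := by positivity
  obtain ⟨hz1, hz2⟩ := zX_sq X hX1 τ H hH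
  have htail : ‖∫ t in I \ BSet β φ δ, G t‖ ≤ TL * (P * N ^ (q - 2) * N ^ (J + 1)) *
        (1 + (1 + Real.log X) * ((1 + 4 * X ^ 2 / H ^ 2) * Lam)) := by
    have hint2 : Integrable fun t => TL * (P * N ^ (q - 2) * N ^ (J + 1)) *
        (gw τ H t + ‖zX X t‖ ^ 2 * gw τ H t) := (hgwI.add hz1).const_mul _
    calc ‖∫ t in I \ BSet β φ δ, G t‖ ≤ ∫ t in I \ BSet β φ δ, ‖G t‖ := norm_integral_le_integral_norm _
      _ ≤ ∫ t in I \ BSet β φ δ, TL * (P * N ^ (q - 2) * N ^ (J + 1)) *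
          (gw τ H t + ‖zX X t‖ ^ 2 * gw τ H t) := by
          refine setIntegral_mono_on hGint.norm.integrableOn hint2.integrableOn
            (hImeas.diff hBmeas) fun t ht => ?_
          have htB := ht.2
          unfold BSet at htB
          rw [Set.mem_ofPred_eq] at htB
          push Not at htB
          have a2 := Wf_tail β φ D hD hδ hδ1 t htB
          rw [hGn, hDBe, norm_mul, norm_mul, norm_pow]
          have := gw_nonneg τ H t hH
          have a1 := hW0 t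
          have a3 := hDAn t
          have a4 := hDCn t
          have a5 := hDMn t
          have a6 : ‖zX X t‖ ≤ 1 + ‖zX X t‖ ^ 2 := by nlinarith [sq_nonneg (‖zX X t‖ - 1), norm_nonneg (zX X t)]
          calc _ ≤ TL * (N ^ (q - 2) * (P * (1 + ‖zX X t‖ ^ 2))) * N ^ (J + 1) * gw τ H t := by gcongr
            _ = _ := by ring
      _ ≤ ∫ t, TL * (P * N ^ (q - 2) * N ^ (J + 1)) * (gw τ H t + ‖zX X t‖ ^ 2 * gw τ H t) := by
          refine setIntegral_le_integral hint2 (Eventually.of_forall fun t => ?_)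
          have := gw_nonneg τ H t hH
          simp only [Pi.zero_apply]
          positivity
      _ = TL * (P * N ^ (q - 2) * N ^ (J + 1)) * (1 + ∫ t, ‖zX X t‖ ^ 2 * gw τ H t) := by
          rw [integral_const_mul, integral_add hgwI hz1, gw_integral τ H hH]
      _ ≤ _ := by gcongr
  -- replacing the truncated zeta function
  set G' : ℝ → ℂ := fun t => (((Wf β φ D δ t : ℝ) : ℂ) * (Dp A N (1 / 2 + t * Complex.I) ^ (q - 2) *
      (Dp (muP P) P (1 / 2 + t * Complex.I) * zl t)) *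
      (starRingEnd ℂ) (Dp C Y (1 / 2 + t * Complex.I))) * (gw τ H t : ℂ) with hG'
  have hWc := Wf_cont β φ D δ
  have hgwc := gw_continuous τ H
  have hG'c : Continuous G' := by
    rw [hG']
    have c1 := Dp_cont A N
    have c2 := Dp_cont (muP P) P
    have c3 := Dp_cont C Y
    have c4 := zl_cont
    have c5 : Continuous fun t : ℝ => (starRingEnd ℂ) (Dp C Y (1 / 2 + t * Complex.I)) :=
      Complex.continuous_conj.comp c3
    have c6 : Continuous fun t : ℝ => ((Wf β φ D δ t : ℝ) : ℂ) := Complex.continuous_ofReal.comp hWc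
    have c7 : Continuous fun t : ℝ => (gw τ H t : ℂ) := Complex.continuous_ofReal.comp hgwc
    fun_prop
  have hIB : MeasurableSet (I ∩ BSet β φ δ) := hImeas.inter hBmeas
  have hcI : ∀ F : ℝ → ℂ, Continuous F → IntegrableOn F (I ∩ BSet β φ δ) := fun F hF =>
    ((hF.integrableOn_Icc (a := τ - R) (b := τ + R)).mono_set Set.Ioc_subset_Icc_self).mono_set
      Set.inter_subset_left
  have hcIr : ∀ F : ℝ → ℝ, Continuous F → IntegrableOn F (I ∩ BSet β φ δ) := fun F hF =>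
    ((hF.integrableOn_Icc (a := τ - R) (b := τ + R)).mono_set Set.Ioc_subset_Icc_self).mono_set
      Set.inter_subset_left
  have happx : ‖(∫ t in I ∩ BSet β φ δ, G t) - ∫ t in I ∩ BSet β φ δ, G' t‖ ≤
      Lam ^ r * (e₁ * (P * N ^ (q - 2) * N ^ (J + 1))) := by
    rw [← integral_sub hGint.integrableOn (hcI G' hG'c)]
    calc ‖∫ t in I ∩ BSet β φ δ, (G t - G' t)‖ ≤ ∫ t in I ∩ BSet β φ δ, ‖G t - G' t‖ :=
          norm_integral_le_integral_norm _
      _ ≤ ∫ t in I ∩ BSet β φ δ, Lam ^ r * (e₁ * (P * N ^ (q - 2) * N ^ (J + 1))) * gw τ H t := by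
          refine setIntegral_mono_on (hGint.integrableOn.sub (hcI G' hG'c)).norm
            (hgwI.const_mul _).integrableOn hIB fun t ht => ?_
          have e1 : G t - G' t = (((Wf β φ D δ t : ℝ) : ℂ) * (Dp A N (1 / 2 + t * Complex.I) ^ (q - 2) *
              (Dp (muP P) P (1 / 2 + t * Complex.I) * (zX X t - zl t))) *
              (starRingEnd ℂ) (Dp C Y (1 / 2 + t * Complex.I))) * (gw τ H t : ℂ) := by
            rw [hG, hG']
            simp only
            rw [hDBe]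
            ring
          rw [e1, norm_mul, norm_mul, norm_mul, norm_mul, norm_mul, RCLike.norm_conj, norm_pow,
            Complex.norm_real, Complex.norm_real, Real.norm_of_nonneg (hW0 t),
            Real.norm_of_nonneg (gw_nonneg τ H t hH)]
          have b1 := happ t ht.1
          rw [norm_sub_rev] at b1
          have := gw_nonneg τ H t hH
          have a1 := hW0 t
          have a2 := hW1 t
          have a3 := hDAn t
          have a4 := hDCn t
          have a5 := hDMn t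
          calc _ ≤ Lam ^ r * (N ^ (q - 2) * (P * e₁)) * N ^ (J + 1) * gw τ H t := by gcongr
            _ = _ := by ring
      _ ≤ ∫ t, Lam ^ r * (e₁ * (P * N ^ (q - 2) * N ^ (J + 1))) * gw τ H t := by
          refine setIntegral_le_integral (hgwI.const_mul _) (Eventually.of_forall fun t => ?_)
          have := gw_nonneg τ H t hH
          simp only [Pi.zero_apply]
          positivity
      _ = Lam ^ r * (e₁ * (P * N ^ (q - 2) * N ^ (J + 1))) := by
          rw [integral_const_mul, gw_integral τ H hH, mul_one]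
  -- Young
  set VA : ℝ → ℝ := fun t => Wf β φ D δ t * ‖Dp (A ^ q : ArithmeticFunction ℝ) Y (1 / 2 + t * Complex.I)‖ ^ 2 *
    gw τ H t with hVA
  set VC : ℝ → ℝ := fun t => Wf β φ D δ t * ‖Dp C Y (1 / 2 + t * Complex.I)‖ ^ 2 * gw τ H t with hVC
  obtain ⟨hA1, hA2⟩ := bohr_sq β φ D hδ hδ1' hκ P (A ^ q : ArithmeticFunction ℝ) Y Z ρ τ H hH hY1 hρ hρ1
    hZ hρ2 hAle Γ hΓ0 hΓ
  obtain ⟨hC1, hC2⟩ := bohr_sq β φ D hδ hδ1' hκ P C Y Z ρ τ H hH hY1 hρ hρ1 hZ hρ2 hCle Γ hΓ0 hΓ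
  have hDAq : ∀ t : ℝ, Dp (A ^ q : ArithmeticFunction ℝ) Y (1 / 2 + t * Complex.I) =
      Dp A N (1 / 2 + t * Complex.I) ^ q := fun t =>
    (Dp_pow A N hN (cA_supp P N (1 / 2)) (1 / 2 + t * Complex.I) q).2
  have hint3 : IntegrableOn (fun t => ‖zl t‖ ^ q * gw τ H t) (I ∩ BSet β φ δ) :=
    hcIr _ ((zl_cont.norm.pow q).mul hgwc)
  have hG'b : ‖∫ t in I ∩ BSet β φ δ, G' t‖ ≤
      μ * ((∫ t, VA t) + ∫ t, VC t) + (μ⁻¹) ^ (q - 1) * (Lam ^ r * P ^ q) *
        ∫ t in I ∩ BSet β φ δ, ‖zl t‖ ^ q * gw τ H t := by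
    have hAC : Integrable (fun t => VA t + VC t) := hA1.add hC1
    have hACμ : Integrable (fun t => μ * (VA t + VC t)) := hAC.const_mul μ
    have hsum : IntegrableOn (fun t => μ * (VA t + VC t) + (μ⁻¹) ^ (q - 1) * (Lam ^ r * P ^ q) *
        (‖zl t‖ ^ q * gw τ H t)) (I ∩ BSet β φ δ) :=
      hACμ.integrableOn.add (hint3.const_mul _)
    calc ‖∫ t in I ∩ BSet β φ δ, G' t‖ ≤ ∫ t in I ∩ BSet β φ δ, ‖G' t‖ := norm_integral_le_integral_norm _
      _ ≤ ∫ t in I ∩ BSet β φ δ, (μ * (VA t + VC t) + (μ⁻¹) ^ (q - 1) * (Lam ^ r * P ^ q) *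
          (‖zl t‖ ^ q * gw τ H t)) := by
          refine setIntegral_mono_on (hcI G' hG'c).norm hsum hIB fun t ht => ?_
          rw [hG']
          simp only
          rw [norm_mul, norm_mul, norm_mul, norm_mul, norm_mul, RCLike.norm_conj, norm_pow,
            Complex.norm_real, Complex.norm_real, Real.norm_of_nonneg (hW0 t),
            Real.norm_of_nonneg (gw_nonneg τ H t hH)]
          rw [hVA, hVC]
          simp only
          rw [hDAq, norm_pow]
          have hg := gw_nonneg τ H t hH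
          have a1 := hW0 t
          have a2 := hW1 t
          have a5 := hDMn t
          set x := ‖zl t‖ with hx
          set y := ‖Dp A N (1 / 2 + t * Complex.I)‖ with hy
          set z := ‖Dp C Y (1 / 2 + t * Complex.I)‖ with hz
          set w := ‖Dp (muP P) P (1 / 2 + t * Complex.I)‖ with hw
          have hw0 : 0 ≤ w := norm_nonneg _
          have hx0 : 0 ≤ x := norm_nonneg _
          have hyo := young q hq (w * x) y z μ (by positivity) (norm_nonneg _) (norm_nonneg _) hμ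
          have hpow : (w * x) ^ q ≤ P ^ q * x ^ q := by
            rw [mul_pow]
            gcongr
          calc Wf β φ D δ t * (y ^ (q - 2) * (w * x)) * z * gw τ H t =
              Wf β φ D δ t * ((w * x) * y ^ (q - 2) * z) * gw τ H t := by ring
            _ ≤ Wf β φ D δ t * (μ * (y ^ (2 * q) + z ^ 2) + (μ⁻¹) ^ (q - 1) * (w * x) ^ q) * gw τ H t := by
                gcongr
            _ = μ * (Wf β φ D δ t * y ^ (2 * q) * gw τ H t + Wf β φ D δ t * z ^ 2 * gw τ H t) +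
                (μ⁻¹) ^ (q - 1) * (Wf β φ D δ t * (w * x) ^ q * gw τ H t) := by ring
            _ ≤ μ * (Wf β φ D δ t * y ^ (2 * q) * gw τ H t + Wf β φ D δ t * z ^ 2 * gw τ H t) +
                (μ⁻¹) ^ (q - 1) * (Lam ^ r * (P ^ q * x ^ q) * gw τ H t) := by gcongr
            _ = _ := by
                rw [← pow_mul, mul_comm q 2]
                ring
      _ = μ * (∫ t in I ∩ BSet β φ δ, (VA t + VC t)) + (μ⁻¹) ^ (q - 1) * (Lam ^ r * P ^ q) *
          ∫ t in I ∩ BSet β φ δ, ‖zl t‖ ^ q * gw τ H t := by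
          rw [integral_add hACμ.integrableOn (hint3.const_mul _),
            integral_const_mul, integral_const_mul]
      _ ≤ μ * (∫ t, (VA t + VC t)) + (μ⁻¹) ^ (q - 1) * (Lam ^ r * P ^ q) *
          ∫ t in I ∩ BSet β φ δ, ‖zl t‖ ^ q * gw τ H t := by
          have hle : ∫ t in I ∩ BSet β φ δ, (VA t + VC t) ≤ ∫ t, (VA t + VC t) := by
            refine setIntegral_le_integral hAC (Eventually.of_forall fun t => ?_)
            have hg := gw_nonneg τ H t hH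
            have a1 := hW0 t
            simp only [Pi.zero_apply, hVA, hVC]
            positivity
          have := mul_le_mul_of_nonneg_left hle hμ.le
          linarith
      _ = _ := by rw [integral_add hA1 hC1]
  -- conclusion
  have hgq := gq_nonneg H ρ
  have hAb : ∫ t, VA t ≤ (1 + ε) * U + Lam ^ r * (Y ^ (2 * (q + J + 1)) * gq H ρ) := by
    refine hA2.trans (add_le_add (by gcongr) ?_)
    have h1 : l1 (A ^ q : ArithmeticFunction ℝ) Y * l1 (A ^ q : ArithmeticFunction ℝ) Y ≤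
        Y ^ (2 * (q + J + 1)) := by
      rw [two_mul, pow_add]
      exact mul_le_mul hlAq hlAq (l1_nonneg _ _) (by positivity)
    gcongr
  have hCb : ∫ t, VC t ≤ (1 + ε) * U + Lam ^ r * (Y ^ (2 * (q + J + 1)) * gq H ρ) := by
    refine hC2.trans (add_le_add (by gcongr) ?_)
    have h1 : l1 C Y * l1 C Y ≤ Y ^ (2 * (q + J + 1)) := by
      rw [two_mul, pow_add]
      exact mul_le_mul hlCY2 hlCY2 (l1_nonneg _ _) (by positivity)
    gcongr
  have hfin1 : μ * ((∫ t, VA t) + ∫ t, VC t) ≤ μ * (2 * (1 + ε) * U +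
        2 * (Lam ^ r * (Y ^ (2 * (q + J + 1)) * gq H ρ))) := by
    refine mul_le_mul_of_nonneg_left ?_ hμ.le
    linarith
  have htri : ‖∫ t, G t‖ ≤ ‖∫ t in I ∩ BSet β φ δ, G' t‖ +
      ‖(∫ t in I ∩ BSet β φ δ, G t) - ∫ t in I ∩ BSet β φ δ, G' t‖ +
      ‖∫ t in I \ BSet β φ δ, G t‖ + ‖∫ t in Iᶜ, G t‖ := by
    rw [hsplit]
    have e1 : (∫ t in I ∩ BSet β φ δ, G t) + (∫ t in I \ BSet β φ δ, G t) + (∫ t in Iᶜ, G t) =
      (∫ t in I ∩ BSet β φ δ, G' t) + ((∫ t in I ∩ BSet β φ δ, G t) - ∫ t in I ∩ BSet β φ δ, G' t) +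
      (∫ t in I \ BSet β φ δ, G t) + (∫ t in Iᶜ, G t) := by ring
    rw [e1]
    refine (norm_add_le _ _).trans (add_le_add ?_ le_rfl)
    refine (norm_add_le _ _).trans (add_le_add ?_ le_rfl)
    exact norm_add_le _ _
  linarith

end

end Pool.Agent.R311.BS
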