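import Pool.Agent.R311.BS.WD

set_option autoImplicit false

/-! Choice of the parameters. -/

namespace Pool.Agent.R311.BS

open Finset MeasureTheory Filter Topology
open Pool.Agent.H306R2

noncomputable section

lemma ev_small (M : ℕ) (k b K : ℝ) (hk : 0 < k) (hb : 0 < b) :
    ∀ᶠ T : ℝ in atTop, K * (T ^ M * Real.exp (-(k * T ^ b))) ≤ 1 := by
  have := small_ev M k (b / 2) K hk (by linarith)
  rw [show 2 * (b / 2) = b by ring] at this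
  exact this

lemma ev_pow (K b : ℝ) (hb : 0 < b) : ∀ᶠ T : ℝ in atTop, K * T ^ (-b) ≤ 1 := by
  have h1 := (tendsto_rpow_neg_atTop hb).const_mul K
  rw [mul_zero] at h1
  filter_upwards [h1.eventually (gt_mem_nhds one_pos)] with T hT using hT.le

lemma ev_rpow_ge (K b : ℝ) (hb : 0 < b) : ∀ᶠ T : ℝ in atTop, K ≤ T ^ b :=
  (tendsto_rpow_atTop hb).eventually (eventually_ge_atTop K)

lemma ev_log_rpow_ge (K k b : ℝ) (hk : 0 < k) (hb : 0 < b) :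
    ∀ᶠ T : ℝ in atTop, K ≤ k * Real.log T ^ b := by
  have h1 : Tendsto (fun T : ℝ => k * Real.log T ^ b) atTop atTop :=
    ((tendsto_rpow_atTop hb).comp Real.tendsto_log_atTop).const_mul_atTop hk
  exact h1.eventually (eventually_ge_atTop K)

lemma g6_aux {a u lx w L : ℝ} (ha : 0 < a) (hu : 1 ≤ u) (hlx0 : 0 ≤ lx) (hlx : lx ≤ (10 / a) * u)
    (hw0 : 0 ≤ w) (hw : w ≤ 400 * u ^ 2) (hL : 1 ≤ L) :
    1 + (1 + lx) * ((1 + w) * L) ≤ (1 + (1 + 10 / a) * ((1 + 400) * L)) * u ^ 3 := by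
  have hu0 : 0 < u := by linarith
  have k1 : 1 + lx ≤ (1 + 10 / a) * u := by
    rw [add_mul, one_mul]
    linarith
  have hu2 : 1 ≤ u ^ 2 := one_le_pow₀ hu
  have k2 : 1 + w ≤ (1 + 400) * u ^ 2 := by
    rw [add_mul, one_mul]
    linarith
  have k3 : (1 + lx) * ((1 + w) * L) ≤ ((1 + 10 / a) * u) * (((1 + 400) * u ^ 2) * L) := by gcongr
  have k4 : 1 ≤ u ^ 3 := one_le_pow₀ hu
  calc 1 + (1 + lx) * ((1 + w) * L) ≤ u ^ 3 + ((1 + 10 / a) * u) * (((1 + 400) * u ^ 2) * L) := by linarith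
    _ = _ := by ring

lemma E3_bound {a c₁ γ T Lr L P M X H : ℝ} (D : ℕ) (ha : 0 < a) (ha1 : a ≤ 1) (hT : 1 ≤ T) (hγ0 : 0 < γ)
    (hlogγ : Real.log γ < 0) (haσ : 16 * a ≤ -(2 * c₁ * Real.log γ)) (hc₁ : 0 < c₁)
    (hDle : (D:ℝ) ≤ c₁ * Real.log T) (hDge : c₁ * Real.log T - 1 ≤ D) (hM0 : 0 ≤ M)
    (hM : M ≤ P * T ^ a) (hX1 : 1 ≤ X) (hXT : X ≤ 10 * T) (hHdef : H = T ^ (1 - a)) (hL : 1 ≤ L)
    (hLr : 0 ≤ Lr) (hP : 0 ≤ P) :
    Lr * (2 * D * γ ^ (2 * D)) * M * (1 + (1 + Real.log X) * ((1 + 4 * X ^ 2 / H ^ 2) * L)) ≤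
      (Lr * (2 * (c₁ / a) * (γ ^ 2)⁻¹) * P * (1 + (1 + 10 / a) * ((1 + 400) * L))) * T ^ (-(11 * a)) := by
  have hT0 : 0 < T := by linarith
  have hlog : 0 ≤ Real.log T := Real.log_nonneg hT
  have hlogT : Real.log T ≤ T ^ a / a := Real.log_le_rpow_div hT0.le ha
  have hTa1 : 1 ≤ T ^ a := Real.one_le_rpow hT ha.le
  have hH : 0 < H := by rw [hHdef]; positivity
  have g1 : γ ^ (2 * D) ≤ (γ ^ 2)⁻¹ * T ^ (-(16 * a)) := by
    have e1 : γ ^ (2 * D) = Real.exp (2 * D * Real.log γ) := by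
      rw [← Real.rpow_natCast, Real.rpow_def_of_pos hγ0]
      congr 1; push_cast; ring
    have e2 : (γ ^ 2)⁻¹ = Real.exp (-(2 * Real.log γ)) := by
      rw [Real.exp_neg]
      congr 1
      rw [← Real.rpow_natCast, Real.rpow_def_of_pos hγ0]
      congr 1; push_cast; ring
    rw [e1, e2, Real.rpow_def_of_pos hT0, ← Real.exp_add]
    apply Real.exp_le_exp.mpr
    have e3 : 2 * (D:ℝ) * Real.log γ ≤ 2 * (c₁ * Real.log T - 1) * Real.log γ := by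
      have : 2 * (c₁ * Real.log T - 1) ≤ 2 * (D:ℝ) := by linarith
      exact mul_le_mul_of_nonpos_right this hlogγ.le
    have e4 : Real.log T * (16 * a) ≤ Real.log T * (-(2 * c₁ * Real.log γ)) := by gcongr
    have e5 : 2 * (c₁ * Real.log T - 1) * Real.log γ =
      -(Real.log T * (-(2 * c₁ * Real.log γ))) - 2 * Real.log γ := by ring
    have e6 : Real.log T * (-(16 * a)) = -(Real.log T * (16 * a)) := by ring
    linarith
  have g2 : (D:ℝ) ≤ (c₁ / a) * T ^ a := by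
    calc (D:ℝ) ≤ c₁ * Real.log T := hDle
      _ ≤ c₁ * (T ^ a / a) := by gcongr
      _ = _ := by ring
  have g4 : Real.log X ≤ (10 / a) * T ^ a := by
    have e1 : Real.log X ≤ X ^ a / a := Real.log_le_rpow_div (by linarith) ha
    have e2 : X ^ a ≤ 10 * T ^ a := by
      calc X ^ a ≤ (10 * T) ^ a := Real.rpow_le_rpow (by linarith) hXT ha.le
        _ = 10 ^ a * T ^ a := Real.mul_rpow (by norm_num) hT0.le
        _ ≤ 10 ^ (1:ℝ) * T ^ a := by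
            refine mul_le_mul_of_nonneg_right ?_ (by positivity)
            exact Real.rpow_le_rpow_of_exponent_le (by norm_num) ha1
        _ = 10 * T ^ a := by rw [Real.rpow_one]
    calc Real.log X ≤ X ^ a / a := e1
      _ ≤ (10 * T ^ a) / a := by gcongr
      _ = _ := by ring
  have g5 : 4 * X ^ 2 / H ^ 2 ≤ 400 * (T ^ a) ^ 2 := by
    have e1 : H ^ 2 * (T ^ a) ^ 2 = T ^ 2 := by
      rw [← mul_pow, hHdef, ← Real.rpow_add hT0]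
      norm_num
    rw [div_le_iff₀ (by positivity)]
    calc 4 * X ^ 2 ≤ 4 * (10 * T) ^ 2 := by gcongr
      _ = 400 * T ^ 2 := by ring
      _ = 400 * (H ^ 2 * (T ^ a) ^ 2) := by rw [e1]
      _ = _ := by ring
  have hlogX : 0 ≤ Real.log X := Real.log_nonneg hX1
  obtain ⟨u, hu⟩ : ∃ u : ℝ, u = T ^ a := ⟨_, rfl⟩
  rw [← hu] at g2 hM g4 g5 hTa1
  have hu0 : 0 < u := by linarith
  have g6 := g6_aux ha hTa1 hlogX g4 (by positivity) g5 hL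
  have k5 : T ^ (-(16 * a)) * u ^ 5 = T ^ (-(11 * a)) := by
    rw [hu, ← Real.rpow_natCast, ← Real.rpow_mul hT0.le, ← Real.rpow_add hT0]
    congr 1
    push_cast
    ring
  calc Lr * (2 * D * γ ^ (2 * D)) * M * (1 + (1 + Real.log X) * ((1 + 4 * X ^ 2 / H ^ 2) * L)) ≤
      Lr * (2 * ((c₁ / a) * u) * ((γ ^ 2)⁻¹ * T ^ (-(16 * a)))) * (P * u) *
      ((1 + (1 + 10 / a) * ((1 + 400) * L)) * u ^ 3) := by gcongr
    _ = Lr * (2 * (c₁ / a) * (γ ^ 2)⁻¹) * P *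
      (1 + (1 + 10 / a) * ((1 + 400) * L)) * (T ^ (-(16 * a)) * u ^ 5) := by ring
    _ = _ := by rw [k5]

lemma fin_arith {A B e1 e2 e3 e4 m e6 G : ℝ} (h : A - B - e1 - e2 - e3 - e4 ≤ m + e6 + G)
    (hB : B ≤ A / 4) (h1 : e1 ≤ 1) (h2 : e2 ≤ 1) (h3 : e3 ≤ 1) (h4 : e4 ≤ 1) (h6 : e6 ≤ 1)
    (hm : m ≤ A / 4) (hA : 20 ≤ A) : A / 4 ≤ G := by linarith

set_option maxHeartbeats 4000000 in
theorem window_bound (q : ℕ) (hq : 2 ≤ q) {r : ℕ} (β : Fin r → ℝ)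
    (hβ : ∀ m : Fin r → ℤ, th β m = 0 → m = 0) {δ : ℝ} (hδ : 0 < δ) (hδ1 : δ ≤ 1 / 4) :
    ∃ c : ℝ, 0 < c ∧ ∃ η : ℝ, 0 < η ∧ η ≤ 1 / 16 ∧ ∀ᶠ T : ℝ in atTop, ∀ τ : ℝ, T ≤ τ → τ ≤ 3 * T →
      ∀ φ : Fin r → ℝ, c * Real.log T ^ (((q:ℝ) / 2) ^ 2) ≤
        ∫ t in Set.Ioc (τ - T ^ (1 - η / 2)) (τ + T ^ (1 - η / 2)) ∩ BSet β φ δ,
          ‖zl t‖ ^ q * gw τ (T ^ (1 - η)) t := by
  obtain ⟨κ, hκdef⟩ : ∃ κ : ℝ, κ = (q:ℝ) / 2 := ⟨_, rfl⟩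
  have hqr : (2:ℝ) ≤ q := by exact_mod_cast hq
  have hκ : 1 ≤ κ := by rw [hκdef]; linarith
  have hκ0 : 0 ≤ κ := by linarith
  obtain ⟨J, hJ⟩ := exists_nat_ge κ
  obtain ⟨s, hs, hbad⟩ := bad_primes β
  obtain ⟨P, hPdef⟩ : ∃ P : ℕ, P = ∏ p ∈ s, p := ⟨_, rfl⟩
  rw [← hPdef] at hbad
  have hP : 1 ≤ P := by
    rw [hPdef]
    exact Nat.pos_of_ne_zero (prod_ne_zero_iff.mpr fun p hp => (hs p hp).ne_zero)
  have hPr : (1:ℝ) ≤ P := by exact_mod_cast hP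
  obtain ⟨K, hK, hK1, hK2⟩ := dv_decay (κ := κ) hκ0
  obtain ⟨cS, hcS, hSev⟩ := SP_lower hκ s hs
  rw [← hPdef] at hSev
  obtain ⟨CU, hCU, hUev⟩ := U_upper (κ := κ) (by linarith)
  have hLam := Lam_ge_one
  obtain ⟨d0, hd0⟩ : ∃ d0 : ℝ, d0 = (δ ^ 2) ^ r := ⟨_, rfl⟩
  have hd0pos : 0 < d0 := by rw [hd0]; positivity
  obtain ⟨c₂, hc₂⟩ : ∃ c₂ : ℝ, c₂ = cS / (CU * (q:ℝ) ^ (κ ^ 2)) := ⟨_, rfl⟩
  have hqpos : (0:ℝ) < (q:ℝ) ^ (κ ^ 2) := by positivity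
  have hc₂pos : 0 < c₂ := by rw [hc₂]; positivity
  obtain ⟨ε, hεdef⟩ : ∃ ε : ℝ, ε = d0 * c₂ / 4 := ⟨_, rfl⟩
  have hεpos : 0 < ε := by rw [hεdef]; positivity
  obtain ⟨μ, hμdef⟩ : ∃ μ : ℝ, μ = d0 * c₂ / (8 * (1 + ε)) := ⟨_, rfl⟩
  have hμpos : 0 < μ := by rw [hμdef]; positivity
  obtain ⟨M₀, ε₁, hε₁, htail⟩ := tail_small r (K ^ 2) (by positivity) ε hεpos
  have hnear := near_small hκ0 β hβ P hbad K hK hK1 hK2 M₀ ε₁ hε₁
  -- the exponents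
  obtain ⟨θ, hθdef⟩ : ∃ θ : ℝ, θ = 2 * Real.pi * ∑ j, |β j| := ⟨_, rfl⟩
  have hθ0 : 0 ≤ θ := by
    rw [hθdef]
    have : 0 ≤ ∑ j, |β j| := sum_nonneg fun j _ => abs_nonneg _
    positivity
  obtain ⟨c₁, hc₁⟩ : ∃ c₁ : ℝ, c₁ = 1 / (8 * (θ + 1)) := ⟨_, rfl⟩
  have hc₁pos : 0 < c₁ := by rw [hc₁]; positivity
  obtain ⟨γ, hγ⟩ : ∃ γ : ℝ, γ = Real.cos (Real.pi * δ) := ⟨_, rfl⟩
  have hγ0 : 0 < γ := by
    rw [hγ]
    apply Real.cos_pos_of_mem_Ioo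
    constructor <;> nlinarith [Real.pi_pos]
  have hγ1 : γ < 1 := by
    rw [hγ]
    have h1 : Real.cos (Real.pi * δ) < Real.cos 0 := by
      apply Real.cos_lt_cos_of_nonneg_of_le_pi_div_two le_rfl
      · nlinarith [Real.pi_pos]
      · nlinarith [Real.pi_pos]
    rwa [Real.cos_zero] at h1
  have hlogγ : Real.log γ < 0 := Real.log_neg hγ0 hγ1
  obtain ⟨a, ha⟩ : ∃ a : ℝ, a = min 1 (-(2 * c₁ * Real.log γ)) / 16 := ⟨_, rfl⟩
  have hσpos : 0 < -(2 * c₁ * Real.log γ) := by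
    have := mul_pos hc₁pos (neg_pos.mpr hlogγ)
    nlinarith
  have hapos : 0 < a := by
    rw [ha]
    have := lt_min one_pos hσpos
    positivity
  have ha16 : a ≤ 1 / 16 := by
    rw [ha]
    have := min_le_left 1 (-(2 * c₁ * Real.log γ))
    linarith
  have haσ : 16 * a ≤ -(2 * c₁ * Real.log γ) := by
    rw [ha]
    have := min_le_right 1 (-(2 * c₁ * Real.log γ))
    linarith
  obtain ⟨ν, hν⟩ : ∃ ν : ℝ, ν = a / (q + J + 2) := ⟨_, rfl⟩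
  have hJ0 : (0:ℝ) ≤ J := Nat.cast_nonneg J
  have hνpos : 0 < ν := by rw [hν]; positivity
  have hνsum : ν * (q + J + 2) = a := by
    rw [hν]; field_simp
  -- constants for the errors
  obtain ⟨C3, hC3⟩ : ∃ C3 : ℝ, C3 = Lam ^ r * (2 * (c₁ / a) * (γ ^ 2)⁻¹) * P *
    (1 + (1 + 10 / a) * ((1 + 400) * Lam)) := ⟨_, rfl⟩
  have hconst : 0 < (1 / 4) * d0 * cS * ν ^ (κ ^ 2) / ((μ⁻¹) ^ (q - 1) * (Lam ^ r * P ^ q)) := by
    positivity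
  refine ⟨(1 / 4) * d0 * cS * ν ^ (κ ^ 2) / ((μ⁻¹) ^ (q - 1) * (Lam ^ r * P ^ q)), hconst, a, hapos, ha16, ?_⟩
  -- eventual facts
  have ev1 : ∀ᶠ T : ℝ in atTop, cS * (ν * Real.log T) ^ (κ ^ 2) ≤ SP κ P ⌊T ^ ν⌋₊ := by
    have h1 : Tendsto (fun T : ℝ => ν * Real.log T) atTop atTop :=
      Real.tendsto_log_atTop.const_mul_atTop hνpos
    filter_upwards [h1.eventually hSev, eventually_gt_atTop 0] with T hT hT0
    rw [Real.rpow_def_of_pos hT0, mul_comm (Real.log T)]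
    exact hT
  have ev2 : ∀ᶠ T : ℝ in atTop, ∑ v ∈ Icc 1 ⌊(T ^ ν) ^ q⌋₊, dv κ v ^ 2 / v ≤
      CU * ((q:ℝ) ^ (κ ^ 2) * (ν * Real.log T) ^ (κ ^ 2)) := by
    have h1 : Tendsto (fun T : ℝ => (q * ν) * Real.log T) atTop atTop :=
      Real.tendsto_log_atTop.const_mul_atTop (by positivity)
    filter_upwards [h1.eventually hUev, eventually_gt_atTop 1] with T hT hT1
    have hT0 : 0 < T := by linarith
    have hlog : 0 < Real.log T := Real.log_pos hT1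
    have e1 : (T ^ ν) ^ q = Real.exp ((q * ν) * Real.log T) := by
      rw [← Real.rpow_natCast, ← Real.rpow_mul hT0.le, Real.rpow_def_of_pos hT0]
      congr 1; ring
    rw [e1, ← Real.mul_rpow (by positivity) (by positivity), ← mul_assoc (q:ℝ)]
    exact hT
  have ev3 : ∀ᶠ T : ℝ in atTop, ∀ m ∈ bx r M₀, m ≠ 0 → ∀ a b : ℕ, 1 ≤ a → 1 ≤ b → a.Coprime b →
      a.Coprime P → b.Coprime P → |th β m - Real.log a + Real.log b| < T ^ (-(1 / 2) : ℝ) →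
      dv κ a * dv κ b * (Real.sqrt a)⁻¹ * (Real.sqrt b)⁻¹ ≤ ε₁ := by
    have h1 : Tendsto (fun T : ℝ => T ^ (-(1 / 2) : ℝ)) atTop (𝓝[>] 0) := by
      rw [tendsto_nhdsWithin_iff]
      refine ⟨tendsto_rpow_neg_atTop (by norm_num), ?_⟩
      filter_upwards [eventually_gt_atTop 0] with T hT
      exact Real.rpow_pos_of_pos hT _
    exact h1.eventually hnear
  have ev4 := ev_small ((q - 1) * (q + 3) + (J + 1)) (1 / 4) (1 - 2 * a) (Lam ^ r * (10 * P) ^ (q + 3))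
    (by norm_num) (by linarith)
  have ev5 := ev_small ((q - 1) * (q + 3) + (J + 1)) (1 / 2) a (2 * (Lam ^ r * (10 * P) ^ (q + 3)))
    (by norm_num) hapos
  have ev6 := ev_small (q * (2 * (q + J + 1))) (1 / 4) (1 - 2 * a) (2 * Lam ^ r * μ)
    (by norm_num) (by linarith)
  have ev7 := ev_pow C3 (11 * a) (by positivity)
  have ev8 := ev_pow (Lam ^ r * (1575 * Real.sqrt 2) * P) (1 / 2 - a) (by linarith)
  have ev9 := ev_rpow_ge 6 (1 / 4) (by norm_num)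
  have ev10 := ev_rpow_ge 4 (a / 2) (by positivity)
  have ev11 : ∀ᶠ T : ℝ in atTop, 1 ≤ c₁ * Real.log T :=
    (Real.tendsto_log_atTop.const_mul_atTop hc₁pos).eventually (eventually_ge_atTop 1)
  have ev12 := ev_log_rpow_ge 20 (d0 * cS * ν ^ (κ ^ 2)) (κ ^ 2) (by positivity) (by positivity)
  filter_upwards [ev1, ev2, ev3, ev4, ev5, ev6, ev7, ev8, ev9, ev10, ev11, ev12,
    eventually_ge_atTop 10] with T h1 h2 h3 h4 h5 h6 h7 h8 h9 h10 h11 h12 hT τ hτ1 hτ2 φ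
  have hT0 : 0 < T := by linarith
  have hT1 : 1 ≤ T := by linarith
  have hlog : 0 < Real.log T := Real.log_pos (by linarith)
  obtain ⟨N, hNdef⟩ : ∃ N : ℝ, N = T ^ ν := ⟨_, rfl⟩
  have hN1 : 1 ≤ N := by rw [hNdef]; exact Real.one_le_rpow hT1 hνpos.le
  obtain ⟨D, hDdef⟩ : ∃ D : ℕ, D = ⌊c₁ * Real.log T⌋₊ := ⟨_, rfl⟩
  have hD : 0 < D := by
    rw [hDdef, Nat.floor_pos]
    exact h11
  have hDle : (D:ℝ) ≤ c₁ * Real.log T := by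
    rw [hDdef]; exact Nat.floor_le (by positivity)
  have hDge : c₁ * Real.log T - 1 ≤ D := by
    rw [hDdef]
    have := Nat.lt_floor_add_one (c₁ * Real.log T)
    linarith
  obtain ⟨X₀, hX₀⟩ : ∃ X₀ : ℕ, X₀ = ⌈3 * τ⌉₊ := ⟨_, rfl⟩
  have hX3 : 3 * τ ≤ X₀ := by rw [hX₀]; exact Nat.le_ceil _
  have hX4 : (X₀:ℝ) ≤ 3 * τ + 1 := by
    rw [hX₀]
    exact (Nat.ceil_lt_add_one (by linarith)).le
  have hXT : (X₀:ℝ) ≤ 10 * T := by linarith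
  have hX1 : (1:ℝ) ≤ X₀ := by linarith
  have hTa1 : 1 ≤ T ^ a := Real.one_le_rpow hT1 hapos.le
  have hpowN : ∀ k : ℕ, (k:ℝ) ≤ q + J + 2 → N ^ k ≤ T ^ a := by
    intro k hk
    rw [hNdef, ← Real.rpow_natCast, ← Real.rpow_mul hT0.le, ← hνsum]
    apply Real.rpow_le_rpow_of_exponent_le hT1
    gcongr
  have hNq : N ^ q ≤ T ^ a := hpowN q (by linarith)
  have hNT : N ≤ T := by
    have h := hpowN 1 (by push_cast; linarith)
    rw [pow_one] at h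
    refine h.trans ?_
    calc T ^ a ≤ T ^ (1:ℝ) := Real.rpow_le_rpow_of_exponent_le hT1 (by linarith)
      _ = T := Real.rpow_one T
  have hNJ : N ^ (q - 2) * N ^ (J + 1) ≤ T ^ a := by
    rw [← pow_add]
    apply hpowN
    push_cast [Nat.cast_sub hq]
    linarith
  obtain ⟨H, hHdef⟩ : ∃ H : ℝ, H = T ^ (1 - a) := ⟨_, rfl⟩
  have hH : 0 < H := by rw [hHdef]; positivity
  obtain ⟨R, hRdef⟩ : ∃ R : ℝ, R = T ^ (1 - a / 2) := ⟨_, rfl⟩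
  have hR : 0 < R := by rw [hRdef]; positivity
  obtain ⟨ρ, hρdef⟩ : ∃ ρ : ℝ, ρ = T ^ (-(1 / 2) : ℝ) := ⟨_, rfl⟩
  have hρ0 : 0 < ρ := by rw [hρdef]; positivity
  have hρ1 : ρ ≤ 1 := by
    rw [hρdef]; exact Real.rpow_le_one_of_one_le_of_nonpos hT1 (by norm_num)
  obtain ⟨Z, hZdef⟩ : ∃ Z : ℝ, Z = N ^ q * Real.exp (D * (2 * Real.pi * ∑ j, |β j|) + 1) := ⟨_, rfl⟩
  have hT16 : T ^ a ≤ T ^ (1 / 16 : ℝ) := Real.rpow_le_rpow_of_exponent_le hT1 ha16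
  have hexpD : Real.exp (D * (2 * Real.pi * ∑ j, |β j|) + 1) ≤ 3 * T ^ (1 / 8 : ℝ) := by
    rw [← hθdef, Real.exp_add]
    have h1 : (D:ℝ) * θ ≤ Real.log T * (1 / 8) := by
      calc (D:ℝ) * θ ≤ (c₁ * Real.log T) * (θ + 1) := by gcongr; linarith
        _ = Real.log T * (1 / 8) := by rw [hc₁]; field_simp
    have h2 : Real.exp (D * θ) ≤ T ^ (1 / 8 : ℝ) := by
      rw [Real.rpow_def_of_pos hT0]
      exact Real.exp_le_exp.mpr h1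
    have h3 : Real.exp 1 ≤ 3 := by have := Real.exp_one_lt_d9; linarith
    calc Real.exp (D * θ) * Real.exp 1 ≤ T ^ (1 / 8 : ℝ) * 3 := by gcongr
      _ = _ := by ring
  have hZ1 : Z ≤ 3 * T ^ (3 / 16 : ℝ) := by
    rw [hZdef]
    calc _ ≤ T ^ (1 / 16 : ℝ) * (3 * T ^ (1 / 8 : ℝ)) := by
          gcongr
          exact hNq.trans hT16
      _ = 3 * (T ^ (1 / 16 : ℝ) * T ^ (1 / 8 : ℝ)) := by ring
      _ = _ := by rw [← Real.rpow_add hT0]; norm_num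
  have hZpos : 0 < Z := by rw [hZdef]; positivity
  have hZX : Z ≤ X₀ := by
    have h1 : T ^ (3 / 16 : ℝ) ≤ T := by
      calc T ^ (3 / 16 : ℝ) ≤ T ^ (1:ℝ) := Real.rpow_le_rpow_of_exponent_le hT1 (by norm_num)
        _ = T := Real.rpow_one T
    linarith
  have hZY : Z * N ^ q ≤ 3 * T ^ (1 / 4 : ℝ) := by
    calc Z * N ^ q ≤ (3 * T ^ (3 / 16 : ℝ)) * T ^ (1 / 16 : ℝ) := by
          gcongr
          exact hNq.trans hT16
      _ = 3 * (T ^ (3 / 16 : ℝ) * T ^ (1 / 16 : ℝ)) := by ring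
      _ = _ := by rw [← Real.rpow_add hT0]; norm_num
  have hρ2 : 2 * ρ ≤ 1 / (Z * N ^ q) := by
    rw [le_div_iff₀ (by positivity)]
    calc 2 * ρ * (Z * N ^ q) ≤ 2 * ρ * (3 * T ^ (1 / 4 : ℝ)) := by gcongr
      _ = 6 * (T ^ (-(1 / 2) : ℝ) * T ^ (1 / 4 : ℝ)) := by rw [hρdef]; ring
      _ = 6 * T ^ (-(1 / 4) : ℝ) := by rw [← Real.rpow_add hT0]; norm_num
      _ ≤ T ^ (1 / 4 : ℝ) * T ^ (-(1 / 4) : ℝ) := by gcongr
      _ = 1 := by rw [← Real.rpow_add hT0]; norm_num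
  have hNX : N ^ q ≤ X₀ := by
    have h1 : T ^ a ≤ T := by
      calc T ^ a ≤ T ^ (1:ℝ) := Real.rpow_le_rpow_of_exponent_le hT1 (by linarith)
        _ = T := Real.rpow_one T
    linarith
  obtain ⟨Γ, hΓdef⟩ : ∃ Γ : (Fin r → ℤ) → ℝ, Γ = fun m => if m ∈ bx r M₀ then ε₁ else K ^ 2 := ⟨_, rfl⟩
  have hΓ0 : ∀ m, 0 ≤ Γ m := by
    intro m
    rw [hΓdef]
    simp only
    split_ifs <;> positivity
  have hΓ : ∀ m ∈ bx r D, m ≠ 0 → ∀ a b : ℕ, 1 ≤ a → 1 ≤ b → a.Coprime b → a.Coprime P → b.Coprime P →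
      |th β m - Real.log a + Real.log b| < ρ →
      dv (q / 2) a * dv (q / 2) b * (Real.sqrt a)⁻¹ * (Real.sqrt b)⁻¹ ≤ Γ m := by
    intro m _ hm0 a b ha hb hab haP hbP hlt
    rw [← hκdef, hΓdef]
    simp only
    split_ifs with hm
    · rw [hρdef] at hlt
      exact h3 m hm hm0 a b ha hb hab haP hbP hlt
    · have e1 : dv κ a * dv κ b * (Real.sqrt a)⁻¹ * (Real.sqrt b)⁻¹ =
        (dv κ a * (Real.sqrt a)⁻¹) * (dv κ b * (Real.sqrt b)⁻¹) := by ring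
      rw [e1, sq]
      exact mul_le_mul (hK1 a) (hK1 b) (mul_nonneg (dv_nonneg hκ0 b) (by positivity)) (by positivity)
  have hεsum : ∑ m ∈ (bx r D).erase 0, Cm D δ m * Γ m ≤ ε := by
    rw [hΓdef]
    exact htail D δ hδ.le (by linarith)
  have hRT : R ≤ T / 4 := by
    rw [hRdef, le_div_iff₀ (by norm_num)]
    calc T ^ (1 - a / 2) * 4 ≤ T ^ (1 - a / 2) * T ^ (a / 2) := by gcongr
      _ = T := by rw [← Real.rpow_add hT0]; norm_num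
  obtain ⟨e₁, he₁def⟩ : ∃ e₁ : ℝ, e₁ = 1575 * (Real.sqrt 2 * T ^ (-(1 / 2) : ℝ)) := ⟨_, rfl⟩
  have he₁0 : 0 ≤ e₁ := by rw [he₁def]; positivity
  have happ : ∀ t ∈ Set.Ioc (τ - R) (τ + R), ‖zl t - zX X₀ t‖ ≤ e₁ := by
    intro t ht
    have ht1 : T / 2 ≤ t := by linarith [ht.1]
    have ht2 : t ≤ τ + T / 4 := by linarith [ht.2]
    have ht3 : τ - T / 4 ≤ t := by linarith [ht.1]
    have h := Pool.Agent.Y210.R9.zap0 t X₀ (by linarith) (by linarith) (by linarith)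
    unfold zl
    rw [zX_eq]
    refine h.trans ?_
    rw [he₁def]
    have h5 : t ^ (-(1 / 2) : ℝ) ≤ (T / 2) ^ (-(1 / 2) : ℝ) :=
      Real.rpow_le_rpow_of_nonpos (by linarith) ht1 (by norm_num)
    have h6 : (T / 2) ^ (-(1 / 2) : ℝ) = Real.sqrt 2 * T ^ (-(1 / 2) : ℝ) := by
      rw [Real.div_rpow hT0.le (by norm_num), Real.rpow_neg (by norm_num : (0:ℝ) ≤ 2), div_inv_eq_mul,
        Real.sqrt_eq_rpow, mul_comm]
    rw [h6] at h5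
    gcongr
  have hcore := window_core q hq J (by rw [← hκdef]; exact hJ) β φ D hD hδ.le hδ1 P hP N X₀ Z ρ τ H R ε e₁ μ hN1
    hNX hZX hρ0.le hρ1 hH hR.le he₁0 hμpos (le_of_eq hZdef.symm) hρ2 Γ hΓ0 hΓ hεsum happ
  rw [← hκdef, ← hd0, ← hγ] at hcore
  -- the error terms
  have hgq : gq H ρ = Real.exp (-(1 / 4 * T ^ (1 - 2 * a))) := by
    unfold gq
    congr 1
    rw [hHdef, hρdef, ← Real.rpow_natCast, ← Real.rpow_natCast, ← Real.rpow_mul hT0.le,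
      ← Real.rpow_mul hT0.le, ← Real.rpow_add hT0]
    rw [show (1 - a) * ((2:ℕ):ℝ) + (-(1 / 2)) * ((2:ℕ):ℝ) = 1 - 2 * a by push_cast; ring]
    ring
  have hRH : Real.exp (-(R ^ 2 / (2 * H ^ 2))) = Real.exp (-(1 / 2 * T ^ a)) := by
    congr 1
    rw [hHdef, hRdef, ← Real.rpow_natCast, ← Real.rpow_natCast, ← Real.rpow_mul hT0.le,
      ← Real.rpow_mul hT0.le]
    have e1 : T ^ ((1 - a / 2) * ((2:ℕ):ℝ)) = T ^ ((1 - a) * ((2:ℕ):ℝ)) * T ^ a := by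
      rw [← Real.rpow_add hT0]
      congr 1
      push_cast
      ring
    rw [e1]
    have : (0:ℝ) < T ^ ((1 - a) * ((2:ℕ):ℝ)) := by positivity
    field_simp
  have hbig : (N ^ (q - 2) * (P * (X₀:ℝ))) ^ (q + 3) * N ^ (J + 1) ≤
      (10 * P) ^ (q + 3) * T ^ ((q - 1) * (q + 3) + (J + 1)) := by
    have e1 : N ^ (q - 2) * (P * (X₀:ℝ)) ≤ (10 * P) * T ^ (q - 1) := by
      calc N ^ (q - 2) * (P * (X₀:ℝ)) ≤ T ^ (q - 2) * (P * (10 * T)) := by gcongr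
        _ = (10 * P) * (T ^ (q - 2) * T) := by ring
        _ = (10 * P) * T ^ (q - 1) := by rw [← pow_succ, show q - 2 + 1 = q - 1 by omega]
    calc _ ≤ ((10 * P) * T ^ (q - 1)) ^ (q + 3) * T ^ (J + 1) := by gcongr
      _ = _ := by rw [mul_pow, ← pow_mul, pow_add]; ring
  have hE1 : Lam ^ r * ((N ^ (q - 2) * (P * (X₀:ℝ))) ^ (q + 3) * N ^ (J + 1) * gq H ρ) ≤ 1 := by
    refine le_trans ?_ h4
    rw [hgq]
    calc _ ≤ Lam ^ r * (((10 * P) ^ (q + 3) * T ^ ((q - 1) * (q + 3) + (J + 1))) *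
          Real.exp (-(1 / 4 * T ^ (1 - 2 * a)))) := by gcongr
      _ = _ := by ring
  have hE2 : Lam ^ r * ((N ^ (q - 2) * (P * (X₀:ℝ))) ^ (q + 3) * N ^ (J + 1)) *
      (2 * Real.exp (-(R ^ 2 / (2 * H ^ 2)))) ≤ 1 := by
    refine le_trans ?_ h5
    rw [hRH]
    calc _ ≤ Lam ^ r * ((10 * P) ^ (q + 3) * T ^ ((q - 1) * (q + 3) + (J + 1))) *
          (2 * Real.exp (-(1 / 2 * T ^ a))) := by gcongr
      _ = _ := by ring
  have hE6 : μ * (2 * (Lam ^ r * ((N ^ q) ^ (2 * (q + J + 1)) * gq H ρ))) ≤ 1 := by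
    refine le_trans ?_ h6
    rw [hgq]
    calc _ ≤ μ * (2 * (Lam ^ r * ((T ^ q) ^ (2 * (q + J + 1)) *
          Real.exp (-(1 / 4 * T ^ (1 - 2 * a)))))) := by gcongr
      _ = _ := by rw [← pow_mul]; ring
  have hE3 : Lam ^ r * (2 * D * γ ^ (2 * D)) * (P * N ^ (q - 2) * N ^ (J + 1)) *
        (1 + (1 + Real.log X₀) * ((1 + 4 * (X₀:ℝ) ^ 2 / H ^ 2) * Lam)) ≤ 1 := by
    refine le_trans ?_ h7
    rw [hC3]
    refine E3_bound D hapos (by linarith) hT1 hγ0 hlogγ haσ hc₁pos hDle hDge (by positivity) ?_ hX1 hXT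
      hHdef hLam (by positivity) (by positivity)
    rw [mul_assoc]
    gcongr
  have hE4 : Lam ^ r * (e₁ * (P * N ^ (q - 2) * N ^ (J + 1))) ≤ 1 := by
    refine le_trans ?_ h8
    have g3 : (P:ℝ) * N ^ (q - 2) * N ^ (J + 1) ≤ P * T ^ a := by
      rw [mul_assoc]; gcongr
    have k5 : T ^ (-(1 / 2) : ℝ) * T ^ a = T ^ (-(1 / 2 - a)) := by
      rw [← Real.rpow_add hT0]
      congr 1
      ring
    calc Lam ^ r * (e₁ * (P * N ^ (q - 2) * N ^ (J + 1))) ≤ Lam ^ r * (e₁ * (P * T ^ a)) := by gcongr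
      _ = Lam ^ r * (1575 * Real.sqrt 2) * P * (T ^ (-(1 / 2) : ℝ) * T ^ a) := by rw [he₁def]; ring
      _ = _ := by rw [k5]
  -- conclusion
  obtain ⟨S, hSdef⟩ : ∃ S : ℝ, S = SP κ P ⌊N⌋₊ := ⟨_, rfl⟩
  obtain ⟨U, hUdef⟩ : ∃ U : ℝ, U = ∑ v ∈ Icc 1 ⌊N ^ q⌋₊, dv κ v ^ 2 / (v:ℝ) := ⟨_, rfl⟩
  rw [← hNdef] at h1 h2
  rw [← hSdef] at h1 hcore
  rw [← hUdef] at h2 hcore
  have hU0 : 0 ≤ U := by rw [hUdef]; exact sum_nonneg fun v _ => by positivity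
  obtain ⟨Lg, hLg⟩ : ∃ Lg : ℝ, Lg = (ν * Real.log T) ^ (κ ^ 2) := ⟨_, rfl⟩
  rw [← hLg] at h1 h2
  have hLg0 : 0 ≤ Lg := by rw [hLg]; positivity
  have hcU : c₂ * U ≤ S := by
    calc c₂ * U ≤ c₂ * (CU * ((q:ℝ) ^ (κ ^ 2) * Lg)) := by gcongr
      _ = cS * Lg := by rw [hc₂]; field_simp
      _ ≤ S := h1
  have hLg2 : Lg = ν ^ (κ ^ 2) * Real.log T ^ (κ ^ 2) := by
    rw [hLg, Real.mul_rpow hνpos.le hlog.le]
  have hSbig : 20 ≤ d0 * S := by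
    calc (20:ℝ) ≤ d0 * cS * ν ^ (κ ^ 2) * Real.log T ^ (κ ^ 2) := h12
      _ = d0 * (cS * Lg) := by rw [hLg2]; ring
      _ ≤ d0 * S := by gcongr
  have hεU : ε * U ≤ d0 * S / 4 := by
    rw [hεdef]
    calc d0 * c₂ / 4 * U = d0 * (c₂ * U) / 4 := by ring
      _ ≤ d0 * S / 4 := by gcongr
  have hμU : μ * (2 * (1 + ε) * U) ≤ d0 * S / 4 := by
    rw [hμdef]
    calc d0 * c₂ / (8 * (1 + ε)) * (2 * (1 + ε) * U) = d0 * (c₂ * U) / 4 := by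
          field_simp
          ring
      _ ≤ d0 * S / 4 := by gcongr
  rw [← hRdef, ← hHdef]
  obtain ⟨Jn, hJn⟩ : ∃ Jn : ℝ, Jn = ∫ t in Set.Ioc (τ - R) (τ + R) ∩ BSet β φ δ, ‖zl t‖ ^ q * gw τ H t := ⟨_, rfl⟩
  rw [← hJn] at hcore
  rw [← hJn, ← hκdef]
  have hden : 0 < (μ⁻¹) ^ (q - 1) * (Lam ^ r * P ^ q) := by positivity
  have hfin : d0 * S / 4 ≤ (μ⁻¹) ^ (q - 1) * (Lam ^ r * P ^ q) * Jn := by
    have e1 : μ * (2 * (1 + ε) * U + 2 * (Lam ^ r * ((N ^ q) ^ (2 * (q + J + 1)) * gq H ρ))) =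
      μ * (2 * (1 + ε) * U) + μ * (2 * (Lam ^ r * ((N ^ q) ^ (2 * (q + J + 1)) * gq H ρ))) := by ring
    rw [e1] at hcore
    exact fin_arith hcore hεU hE1 hE2 hE3 hE4 hE6 hμU hSbig
  rw [div_mul_eq_mul_div, div_le_iff₀ hden]
  calc (1 / 4) * d0 * cS * ν ^ (κ ^ 2) * Real.log T ^ (κ ^ 2) = d0 * (cS * Lg) / 4 := by
        rw [hLg2]; ring
    _ ≤ d0 * S / 4 := by gcongr
    _ ≤ (μ⁻¹) ^ (q - 1) * (Lam ^ r * P ^ q) * Jn := hfin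
    _ = _ := by ring

end

end Pool.Agent.R311.BS
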